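import Mathlib

/-!
# MP_3240be_co, item (1): trees and bipartite graphs with a leaf and a cut vertex

Definitions and statements of the rows (board TREES, chair helper51).  Paper: finding 4406 and its supplement.
`κ x = true` means that `x` is in the class `A`; `a = |A|`.
-/

set_option autoImplicit false

namespace MP3240T

open Finset

/-- `T` is (isomorphic to) a subgraph of `G`. -/
def Emb {X V : Type} (T : SimpleGraph X) (G : SimpleGraph V) : Prop :=
  ∃ f : X → V, Function.Injective f ∧ ∀ i j, T.Adj i j → G.Adj (f i) (f j)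

/-- The edges of `F` that have colour `b`. -/
def cls {V : Type} (F : SimpleGraph V) (c : V → V → Bool) (b : Bool) : SimpleGraph V where
  Adj x y := F.Adj x y ∧ c x y = b ∧ c y x = b
  symm := ⟨fun _ _ h => ⟨h.1.symm, h.2.2, h.2.1⟩⟩
  loopless := ⟨fun x h => F.loopless.irrefl x h.1⟩

/-- `F → T` (`F` may be infinite). -/
def Arr {V X : Type} (F : SimpleGraph V) (T : SimpleGraph X) : Prop :=
  ∀ c : V → V → Bool, (∀ x y, c x y = c y x) → ∃ b : Bool, Emb T (cls F c b)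

/-- The vertices of `R` have infinitely many common neighbours. -/
def Full {V : Type} (G : SimpleGraph V) (R : Finset V) : Prop :=
  {z | ∀ y ∈ R, G.Adj y z}.Infinite

/-- neighbours of `x` in a graph on `Fin n`. -/
noncomputable def nb {n : ℕ} (T : SimpleGraph (Fin n)) (x : Fin n) : Finset (Fin n) := by
  classical exact univ.filter (fun y => T.Adj x y)

/-- the class `A` -/
def clA {n : ℕ} (κ : Fin n → Bool) : Finset (Fin n) := univ.filter (fun x => κ x = true)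

/-! ## General rows -/

/-- Row CPT (compactness). -/
def CptStatement : Prop :=
  ∀ (V : Type) (F : SimpleGraph V) (n n' : ℕ) (T : SimpleGraph (Fin n)) (T' : SimpleGraph (Fin n')),
    Arr F T → ¬ Arr F T' → ∃ (m : ℕ) (F0 : SimpleGraph (Fin m)), Arr F0 T ∧ ¬ Arr F0 T'

/-- Row EXT (extension lemma (E)). -/
def ExtStatement : Prop :=
  ∀ (V : Type) (G : SimpleGraph V) (n : ℕ) (T : SimpleGraph (Fin n)) (W : Finset (Fin n))
    (φ : Fin n → V), Set.InjOn φ (W : Set (Fin n)) →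
    (∀ i ∈ W, ∀ j ∈ W, T.Adj i j → G.Adj (φ i) (φ j)) →
    (∀ i, i ∉ W → ∀ j, j ∉ W → ¬ T.Adj i j) →
    (∀ u, u ∉ W → {z | ∀ i ∈ W, T.Adj u i → G.Adj (φ i) z}.Infinite) → Emb T G

/-- Row GRD (greedy embedding (G)): a set `K` of vertices of `T` that induces a tree embeds into
`G` inside `B`, with `r ↦ g`, if inside `B` every vertex has at least `|K| - 1` neighbours. -/
def GrdStatement : Prop :=
  ∀ (V : Type) (G : SimpleGraph V) (B : Set V) (n : ℕ) (T : SimpleGraph (Fin n))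
    (K : Finset (Fin n)) (r : Fin n) (g : V),
    (T.induce (K : Set (Fin n))).IsTree → r ∈ K → g ∈ B →
    (∀ x ∈ B, ∀ S : Finset V, x ∈ S → S.card < K.card → ∃ y ∈ B, y ∉ S ∧ G.Adj x y) →
    ∃ f : Fin n → V, Set.InjOn f (K : Set (Fin n)) ∧ (∀ i ∈ K, f i ∈ B) ∧ f r = g ∧
      ∀ i ∈ K, ∀ j ∈ K, T.Adj i j → G.Adj (f i) (f j)

/-! ## Case I -/

/-- `T` is bipartite; `s` is a cut vertex in `A`, `K` is one side (there are `A`-vertices in `K`
and outside `K ∪ {s}`); `a0` in `A`, outside `K`, has only one non-leaf neighbour `b0`. -/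
structure Dat {n : ℕ} (T : SimpleGraph (Fin n)) (κ : Fin n → Bool) (a : ℕ) where
  prop : ∀ i j, T.Adj i j → κ i ≠ κ j
  cardA : (clA κ).card = a
  s : Fin n
  hs : κ s = true
  K : Finset (Fin n)
  sK : s ∉ K
  closed : ∀ x ∈ K, ∀ y, y ∉ K → T.Adj x y → y = s
  KA : ∃ x ∈ K, κ x = true
  KA' : ∃ x, x ∉ K ∧ x ≠ s ∧ κ x = true
  a0 : Fin n
  b0 : Fin n
  ha0 : κ a0 = true
  a0K : a0 ∉ K
  a0s : a0 ≠ s
  adj0 : T.Adj a0 b0
  leaf : ∀ x, T.Adj a0 x → x ≠ b0 → ∀ y, T.Adj x y → y = a0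

/-- The additional data for trees: `K` is a tree, joined to `s` by one edge only. -/
structure DatI {n : ℕ} (T : SimpleGraph (Fin n)) (κ : Fin n → Bool) (a : ℕ)
    extends Dat T κ a where
  b1 : Fin n
  b1K : b1 ∈ K
  only : ∀ x ∈ K, T.Adj s x → x = b1
  tree : (T.induce (K : Set (Fin n))).IsTree
  d0 : 2 * (nb T a0).card ≤ n + 1
  d0K : K.card + (nb T a0).card ≤ n + 1

/-- Row TI (tree facts): a tree in which some vertex `s` of `A` has two different non-leaf
neighbours has the data of Case I. -/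
def TIStatement : Prop :=
  ∀ (n : ℕ) (T : SimpleGraph (Fin n)) (κ : Fin n → Bool) (s x y x' y' : Fin n),
    T.IsTree → (∀ i j, T.Adj i j → κ i ≠ κ j) → κ s = true →
    T.Adj s x → T.Adj s y → x ≠ y → T.Adj x x' → x' ≠ s → T.Adj y y' → y' ≠ s →
    Nonempty (DatI T κ (clA κ).card)

/-- Row LR (two full sets, (I.1) and (I.6)). -/
def LRStatement : Prop :=
  ∀ (n a : ℕ) (T : SimpleGraph (Fin n)) (κ : Fin n → Bool) (D : Dat T κ a)
    (V : Type) (G : SimpleGraph V) (R R' : Finset V) (y : V), y ∈ R → y ∈ R' →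
    Full G R → Full G R' → (D.K.filter (fun x => κ x = true)).card + 1 ≤ R.card →
    a ≤ R'.card + (D.K.filter (fun x => κ x = true)).card → (∀ V' : Finset V, R ⊆ V' → R' ⊆ V' → a ≤ V'.card) →
    Emb T G

/-- Row L7 ((I.7) and (I.9)). -/
def L7Statement : Prop :=
  ∀ (n a : ℕ) (T : SimpleGraph (Fin n)) (κ : Fin n → Bool) (D : Dat T κ a)
    (V : Type) (G : SimpleGraph V) (S N S0 : Finset V) (q q0 : V), S.card + 1 = a → Full G S →
    q ∉ S → (∀ x ∈ N, x ∉ S) → (nb T D.a0).card ≤ N.card → (∀ x ∈ N, G.Adj q x) → q0 ∈ N →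
    S0 ⊆ S → (nb T D.b0).card ≤ S0.card + 1 → (∀ y ∈ S0, G.Adj q0 y) → Emb T G

/-- `b0` has few neighbours: together with the `A`-vertices of `K` at most `a`. -/
def L7aStatement : Prop :=
  ∀ (n a : ℕ) (T : SimpleGraph (Fin n)) (κ : Fin n → Bool) (D : Dat T κ a),
    (nb T D.b0).card + (D.K.filter (fun x => κ x = true)).card ≤ a

/-- Row L8 ((I.8)). -/
def L8Statement : Prop :=
  ∀ (n a : ℕ) (T : SimpleGraph (Fin n)) (κ : Fin n → Bool) (D : DatI T κ a)
    (V : Type) (G : SimpleGraph V) (B : Set V) (Y : Finset V) (y q : V), y ∈ Y → Y.card + 1 = a →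
    Full G Y → (∀ x ∈ Y, x ∉ B) → q ∈ B → G.Adj y q →
    (∀ x ∈ B, ∀ S : Finset V, x ∈ S → S.card < D.K.card → ∃ z ∈ B, z ∉ S ∧ G.Adj x z) →
    Emb T G

/-- Row SPL ((I.2), (I.5)): `m` hubs `P`, infinitely many vertices `z t` joined to all of them. -/
def SplStatement : Prop :=
  ∀ (n a : ℕ) (T : SimpleGraph (Fin n)) (κ : Fin n → Bool),
    (∀ i j, T.Adj i j → κ i ≠ κ j) → (clA κ).card = a →
    ∀ (V : Type) (F : SimpleGraph V) (c : V → V → Bool), (∀ x y, c x y = c y x) →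
    (∀ b, ¬ Emb T (cls F c b)) →
    ∀ (P : Finset V) (z : ℕ → V), Function.Injective z → P.card + 2 = 2 * a →
      (∀ y ∈ P, ∀ t, F.Adj y (z t)) →
      (∃ R C : Finset V, R.card + 1 = a ∧ C.card + 1 = a ∧ Disjoint R C ∧
        (∀ x, x ∈ R ∨ x ∈ C ↔ x ∈ P) ∧ Full (cls F c true) R ∧ Full (cls F c false) C) ∧
      (∀ R ⊆ P, {t | ∀ y ∈ P, (c y (z t) = true ↔ y ∈ R)}.Infinite →
        R.card + 1 = a ∧ ∃ C : Finset V, C.card + 1 = a ∧ Disjoint R C ∧
        (∀ x, x ∈ R ∨ x ∈ C ↔ x ∈ P) ∧ Full (cls F c true) R ∧ Full (cls F c false) C)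

/-- Row TYP ((I.3), (I.4)): pure set combinatorics.  `Rf`, `Bf` = red-full, blue-full. -/
def TypStatement : Prop :=
  ∀ (V : Type) (h : ℕ) (Rf Bf : Finset V → Prop) (Y : Option (Fin h) → Finset V)
    (P : Option (Fin h) → Fin 3 → Finset V), 2 ≤ h →
    (∀ R R', R.card = h → R'.card = h → Rf R → Rf R' → R ≠ R' → Disjoint R R') →
    (∀ R R', R.card = h → R'.card = h → Bf R → Bf R' → R ≠ R' → Disjoint R R') →
    (∀ s, (Y s).card = h) → (∀ s j, (P s j).card = h) →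
    (∀ s j j', j ≠ j' → Disjoint (P s j) (P s j')) → (∀ s s' j, Disjoint (Y s) (P s' j)) →
    (∀ i, ¬ Disjoint (Y none) (Y (some i))) → (∀ i, Y none ≠ Y (some i)) →
    (∀ s j, ∃ R C : Finset V, R.card = h ∧ C.card = h ∧ Rf R ∧ Bf C ∧ Disjoint R C ∧
      (∀ x, x ∈ R ∨ x ∈ C ↔ x ∈ Y s ∨ x ∈ P s j)) →
    (Bf (Y none) ∧ ¬ Rf (Y none) ∧ ∀ i, Rf (Y (some i))) ∨
    (Rf (Y none) ∧ ¬ Bf (Y none) ∧ ∀ i, Bf (Y (some i)))

/-- The vertices of the host of Case I: `y i` (the hubs of `Y_0`), `w i l` (the other hubs of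
`Y'_i`), `p s j l` (partner hubs), `z s j t` (lows), `q m x` (block vertices). -/
inductive VI (h n : ℕ) : Type
  | y : Fin h → VI h n
  | w : Fin h → Fin (h - 1) → VI h n
  | p : Option (Fin h) → Fin 3 → Fin h → VI h n
  | z : Option (Fin h) → Fin 3 → ℕ → VI h n
  | q : ℕ → Fin n → VI h n

/-- The edges of the host (one direction).  `z none 0 t` is private to `q m x` if
`t / k = m * n + x`. -/
def relI {h n : ℕ} (k : ℕ) : VI h n → VI h n → Prop
  | .y _, .z none _ _ => True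
  | .y i, .z (some i') _ _ => i = i'
  | .w i _, .z (some i') _ _ => i = i'
  | .p s j _, .z s' j' _ => s = s' ∧ j = j'
  | .y _, .q _ _ => True
  | .q m x, .q m' x' => m = m' ∧ x ≠ x'
  | .q m x, .z none j t => j = 0 ∧ 0 < k ∧ t / k = m * n + x.val
  | _, _ => False

/-- The host of Case I. -/
def FI (h n k : ℕ) : SimpleGraph (VI h n) := SimpleGraph.fromRel (relI k)

/-- `h` hubs joined to infinitely many disjoint stars `K_(1,k)`. -/
def SH (h k : ℕ) : SimpleGraph (Fin h ⊕ (ℕ × Option (Fin k))) :=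
  SimpleGraph.fromRel (fun u v => match u, v with
    | .inl _, .inr _ => True
    | .inr (m, none), .inr (m', some _) => m = m'
    | _, _ => False)

/-- Row NF1: the `T'`-free colouring. -/
def NF1Statement : Prop :=
  ∀ (n h k : ℕ) (T' : SimpleGraph (Fin (n + 1))) (κ : Fin (n + 1) → Bool),
    (∀ i j, T'.Adj i j → κ i ≠ κ j) → T'.Connected →
    h < (univ.filter (fun x => κ x = true)).card → h < (univ.filter (fun x => κ x = false)).card →
    ¬ Emb T' (SH h k) → ¬ Arr (FI h n k) T'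

/-- Row AR1B: `FI → T` if `a0` is a leaf. -/
def AR1BStatement : Prop :=
  ∀ (n h k : ℕ) (T : SimpleGraph (Fin n)) (κ : Fin n → Bool) (D : Dat T κ (h + 1)),
    (nb T D.a0).card = 1 → Arr (FI h n k) T

/-- Row AR1I: `FI → T` in Case I. -/
def AR1IStatement : Prop :=
  ∀ (n h k : ℕ) (T : SimpleGraph (Fin n)) (κ : Fin n → Bool) (_ : DatI T κ (h + 1)),
    Emb T (SH h (k + 1)) → Arr (FI h n k) T

/-! ## Case II -/

/-- Vertices of a tree of depth two: centre, `a` children, leaves. -/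
inductive D2 {a : ℕ} (c : Fin a → ℕ) : Type
  | ctr : D2 c
  | al : Fin a → D2 c
  | lf : (i : Fin a) → Fin (c i) → D2 c

/-- The tree of depth two. -/
def T2 {a : ℕ} (c : Fin a → ℕ) : SimpleGraph (D2 c) :=
  SimpleGraph.fromRel (fun u v => match u, v with
    | .ctr, .al _ => True
    | .al i, .lf j _ => i = j
    | _, _ => False)

/-- Row STR (structure): a tree whose class `A` has at least two elements, none of which has two
different non-leaf neighbours, is a tree of depth two with centre in `B`. -/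
def StrStatement : Prop :=
  ∀ (n : ℕ) (T : SimpleGraph (Fin n)) (κ : Fin n → Bool), T.IsTree →
    (∀ i j, T.Adj i j → κ i ≠ κ j) → 2 ≤ (clA κ).card →
    (∀ s x y x' y', κ s = true → T.Adj s x → T.Adj s y → T.Adj x x' → x' ≠ s → T.Adj y y' →
      y' ≠ s → x = y) →
    ∃ (c : Fin (clA κ).card → ℕ) (e : Fin n ≃ D2 c), (∀ i j, T.Adj i j ↔ (T2 c).Adj (e i) (e j)) ∧
      ∀ i, κ i = true ↔ ∃ j, e i = .al j

/-- The rook graph. -/
def rook (n : ℕ) : SimpleGraph (Fin n × Fin n) :=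
  SimpleGraph.fromRel (fun u v => u.1 = v.1 ∨ u.2 = v.2)

/-- Row R2A: Case IIa. -/
def R2AStatement : Prop :=
  ∀ (a : ℕ) (c : Fin a → ℕ) (n : ℕ) (i : Fin a), n = 1 + a + ∑ j, c j → n + 1 ≤ 2 * c i →
    Arr (rook n) (T2 c)

/-- Row N2A: the rook graph is not Ramsey for a connected graph with `n + 1` vertices. -/
def N2AStatement : Prop :=
  ∀ (n : ℕ) (T' : SimpleGraph (Fin (n + 1))), T'.Connected → ¬ Arr (rook n) T'

/-- The host of Case IIb: `h` hubs and infinitely many copies of `K_n × K_(k+1)`. -/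
def FB (h n k : ℕ) : SimpleGraph (Fin h ⊕ (ℕ × Fin (k + 1) × Fin n)) :=
  SimpleGraph.fromRel (fun u v => match u, v with
    | .inl _, .inr _ => True
    | .inr (m, r, s), .inr (m', r', s') => m = m' ∧ (r = r' ∨ s = s')
    | _, _ => False)

/-- Row R2B: Case IIb, `FB → T2 c`. -/
def R2BStatement : Prop :=
  ∀ (h : ℕ) (c : Fin (h + 1) → ℕ) (n k : ℕ), 1 ≤ h → n = 2 + h + ∑ j, c j →
    (∀ i, 2 * c i ≤ n) → (∀ i, k ≤ c i) → h ≤ ∑ j, c j →
    (∀ K, (∀ i, K ≤ c i) → (h + 1) * K + h ≤ ∑ j, c j → K ≤ k) →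
    Arr (FB h n k) (T2 c)

/-- Row N2B: the `T'`-free colouring of `FB`. -/
def N2BStatement : Prop :=
  ∀ (h : ℕ) (c : Fin (h + 1) → ℕ) (n k : ℕ), 1 ≤ h → n + 1 = 2 + h + ∑ j, c j →
    (∀ i, k ≤ c i) → (h + 1) * k + h + 1 ≤ ∑ j, c j → ¬ Arr (FB h n k) (T2 c)

/-- Row PEN: pendant extension of a tree of depth two at a child of the centre. -/
def PenStatement : Prop :=
  ∀ (n a : ℕ) (T : SimpleGraph (Fin n)) (T' : SimpleGraph (Fin (n + 1))) (v : Fin n)
    (c : Fin a → ℕ) (e : Fin n ≃ D2 c) (i0 : Fin a),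
    (∀ i j : Fin n, T'.Adj i.castSucc j.castSucc ↔ T.Adj i j) →
    (∀ i : Fin n, T'.Adj (Fin.last n) i.castSucc ↔ i = v) →
    (∀ i j, T.Adj i j ↔ (T2 c).Adj (e i) (e j)) → e v = .al i0 →
    ∃ e' : Fin (n + 1) ≃ D2 (fun i => if i = i0 then c i + 1 else c i),
      ∀ i j, T'.Adj i j ↔ (T2 (fun i => if i = i0 then c i + 1 else c i)).Adj (e' i) (e' j)

/-- Row STA: stars (`a = 1`; `v` is the centre). -/
def StaStatement : Prop :=
  ∀ (n : ℕ) (T : SimpleGraph (Fin n)) (T' : SimpleGraph (Fin (n + 1))) (v : Fin n),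
    (∀ i j : Fin n, T'.Adj i.castSucc j.castSucc ↔ T.Adj i j) →
    (∀ i : Fin n, T'.Adj (Fin.last n) i.castSucc ↔ i = v) →
    (∀ i j, T.Adj i j ↔ (i = v ∧ j ≠ v) ∨ (j = v ∧ i ≠ v)) →
    ∃ (m : ℕ) (F0 : SimpleGraph (Fin m)), Arr F0 T ∧ ¬ Arr F0 T'

end MP3240T
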