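import Pool.Agent.Lib.MP_3240be_co.H51.Defs

/-!
# Row AR1 (board TREES, MP_3240be_co): the host of Case I is Ramsey for `T`
-/

set_option autoImplicit false

namespace MP3240T

open Finset

namespace AR1

variable {h n k : ℕ}

theorem adj_of_rel {u v : VI h n} (huv : u ≠ v) (hr : relI k u v) : (FI h n k).Adj u v := by
  rw [FI, SimpleGraph.fromRel_adj]
  exact ⟨huv, Or.inl hr⟩

theorem fi_yz0 (i : Fin h) (j : Fin 3) (t : ℕ) : (FI h n k).Adj (.y i) (.z none j t) :=
  adj_of_rel (by simp) trivial

theorem fi_yz (i : Fin h) (j : Fin 3) (t : ℕ) : (FI h n k).Adj (.y i) (.z (some i) j t) :=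
  adj_of_rel (by simp) rfl

theorem fi_wz (i : Fin h) (l : Fin (h - 1)) (j : Fin 3) (t : ℕ) :
    (FI h n k).Adj (.w i l) (.z (some i) j t) :=
  adj_of_rel (by simp) rfl

theorem fi_pz (s : Option (Fin h)) (j : Fin 3) (l : Fin h) (t : ℕ) :
    (FI h n k).Adj (.p s j l) (.z s j t) :=
  adj_of_rel (by simp) ⟨rfl, rfl⟩

theorem fi_yq (i : Fin h) (m : ℕ) (x : Fin n) : (FI h n k).Adj (.y i) (.q m x) :=
  adj_of_rel (by simp) trivial

theorem fi_qq (m : ℕ) {x x' : Fin n} (hx : x ≠ x') : (FI h n k).Adj (.q m x) (.q m x') :=
  adj_of_rel (by simp [hx]) ⟨rfl, hx⟩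

theorem fi_qz (m : ℕ) (x : Fin n) (t : ℕ) (hk : 0 < k) (ht : t / k = m * n + x.val) :
    (FI h n k).Adj (.q m x) (.z none 0 t) :=
  adj_of_rel (by simp) ⟨rfl, hk, ht⟩

/-- The hub sets `Y_0`, `Y'_i`. -/
noncomputable def Yf (h n : ℕ) : Option (Fin h) → Finset (VI h n) := by
  classical
  exact fun s => match s with
    | none => univ.image (fun i => VI.y i)
    | some i => insert (VI.y i) (univ.image (fun l => VI.w i l))

/-- The partner sets. -/
noncomputable def Pf (h n : ℕ) (s : Option (Fin h)) (j : Fin 3) : Finset (VI h n) := by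
  classical
  exact univ.image (fun l => VI.p s j l)

theorem mem_Y0 (v : VI h n) : v ∈ Yf h n none ↔ ∃ i, v = .y i := by
  classical
  simp only [Yf, mem_image, mem_univ, true_and]
  constructor
  · rintro ⟨i, rfl⟩; exact ⟨i, rfl⟩
  · rintro ⟨i, rfl⟩; exact ⟨i, rfl⟩

theorem mem_Yi (i : Fin h) (v : VI h n) : v ∈ Yf h n (some i) ↔ v = .y i ∨ ∃ l, v = .w i l := by
  classical
  simp only [Yf, mem_insert, mem_image, mem_univ, true_and]
  constructor
  · rintro (rfl | ⟨l, rfl⟩)
    · exact Or.inl rfl
    · exact Or.inr ⟨l, rfl⟩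
  · rintro (rfl | ⟨l, rfl⟩)
    · exact Or.inl rfl
    · exact Or.inr ⟨l, rfl⟩

theorem mem_P (s : Option (Fin h)) (j : Fin 3) (v : VI h n) : v ∈ Pf h n s j ↔ ∃ l, v = .p s j l := by
  classical
  simp only [Pf, mem_image, mem_univ, true_and]
  constructor
  · rintro ⟨i, rfl⟩; exact ⟨i, rfl⟩
  · rintro ⟨i, rfl⟩; exact ⟨i, rfl⟩

theorem card_Y0 : (Yf h n none).card = h := by
  classical
  have : (univ.image (fun i => (VI.y i : VI h n))).card = h := by
    rw [card_image_of_injective _ (fun a b hab => by simpa using hab)]
    simp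
  exact this

theorem card_W (i : Fin h) : by
    classical exact (univ.image (fun l => (VI.w i l : VI h n))).card = h - 1 := by
  classical
  rw [card_image_of_injective _ (fun a b hab => by simpa using hab)]
  simp

theorem card_Yi (i : Fin h) : (Yf h n (some i)).card = h := by
  classical
  have hpos : 0 < h := i.pos
  have h1 : (insert (VI.y i : VI h n) (univ.image (fun l => (VI.w i l : VI h n)))).card = h := by
    rw [card_insert_of_notMem (by simp)]
    have := card_W (n := n) i
    rw [card_image_of_injective _ (fun a b hab => by simpa using hab)]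
    simp
    omega
  exact h1

theorem card_Y (s : Option (Fin h)) : (Yf h n s).card = h := by
  cases s with
  | none => exact card_Y0
  | some i => exact card_Yi i

theorem card_P (s : Option (Fin h)) (j : Fin 3) : (Pf h n s j).card = h := by
  classical
  have : (univ.image (fun l => (VI.p s j l : VI h n))).card = h := by
    rw [card_image_of_injective _ (fun a b hab => by simpa using hab)]
    simp
  exact this

theorem disj_YP (s s' : Option (Fin h)) (j : Fin 3) : Disjoint (Yf h n s) (Pf h n s' j) := by
  rw [Finset.disjoint_left]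
  intro v hv hv'
  obtain ⟨l, rfl⟩ := (mem_P s' j v).1 hv'
  cases s with
  | none => obtain ⟨i, hi⟩ := (mem_Y0 _).1 hv; exact absurd hi (by simp)
  | some i =>
    rcases (mem_Yi i _).1 hv with hi | ⟨l', hi⟩
    · exact absurd hi (by simp)
    · exact absurd hi (by simp)

theorem disj_PP (s : Option (Fin h)) (j j' : Fin 3) (hj : j ≠ j') :
    Disjoint (Pf h n s j) (Pf h n s j') := by
  rw [Finset.disjoint_left]
  intro v hv hv'
  obtain ⟨l, rfl⟩ := (mem_P s j v).1 hv
  obtain ⟨l', hl'⟩ := (mem_P s j' _).1 hv'
  simp at hl'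
  exact hj hl'.1

theorem cls_mk {V : Type} {F : SimpleGraph V} {c : V → V → Bool} (hc : ∀ x y, c x y = c y x)
    {b : Bool} {x y : V} (hF : F.Adj x y) (h' : c x y = b) : (cls F c b).Adj x y :=
  ⟨hF, h', by rw [hc]; exact h'⟩

/-- `|A ∩ K| + 2 ≤ a` and `1 ≤ |A ∩ K|`. -/
theorem kA {T : SimpleGraph (Fin n)} {κ : Fin n → Bool} {a : ℕ} (D : Dat T κ a) :
    1 ≤ (D.K.filter (fun x => κ x = true)).card ∧
      (D.K.filter (fun x => κ x = true)).card + 2 ≤ a := by
  classical
  obtain ⟨x, hx, hκx⟩ := D.KA
  obtain ⟨x', hx', hx's, hκx'⟩ := D.KA'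
  refine ⟨card_pos.2 ⟨x, mem_filter.2 ⟨hx, hκx⟩⟩, ?_⟩
  have hsub : insert D.s (insert x' (D.K.filter (fun x => κ x = true))) ⊆ clA κ := by
    intro v hv
    simp only [mem_insert, mem_filter] at hv
    simp only [clA, mem_filter, mem_univ, true_and]
    rcases hv with rfl | rfl | ⟨-, hv⟩
    · exact D.hs
    · exact hκx'
    · exact hv
  have hc := card_le_card hsub
  rw [D.cardA, card_insert_of_notMem, card_insert_of_notMem] at hc
  · omega
  · simp [hx']
  · simp only [mem_insert, mem_filter, not_or]
    exact ⟨fun h' => hx's h'.symm, fun h' => D.sK h'.1⟩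

/-- (I.1) -/
theorem disjF (hLR : LRStatement) {T : SimpleGraph (Fin n)} {κ : Fin n → Bool}
    (D : Dat T κ (h + 1)) {V : Type} (G : SimpleGraph V) (hG : ¬ Emb T G) (R R' : Finset V)
    (hR : R.card = h) (hR' : R'.card = h) (fR : Full G R) (fR' : Full G R') (hne : R ≠ R') :
    Disjoint R R' := by
  classical
  obtain ⟨h1, h2⟩ := kA D
  by_contra hd
  rw [Finset.not_disjoint_iff] at hd
  obtain ⟨y, hy, hy'⟩ := hd
  refine hG (hLR n (h + 1) T κ D V G R R' y hy hy' fR fR' ?_ ?_ ?_)
  · omega
  · omega
  · intro V' hV hV'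
    by_contra hlt
    have e1 : R = V' := eq_of_subset_of_card_le hV (by omega)
    have e2 : R' = V' := eq_of_subset_of_card_le hV' (by omega)
    exact hne (e1.trans e2.symm)

section core

variable {T : SimpleGraph (Fin n)} {κ : Fin n → Bool}

/-- A low `z none 0 t` is typical. -/
def typ (c : VI h n → VI h n → Bool) (t : ℕ) : Prop :=
  (∀ i, c (.y i) (.z none 0 t) = false) ∧ (∀ l, c (.p none 0 l) (.z none 0 t) = true)

/-- red hubs of a block vertex -/
def Rs (c : VI h n → VI h n → Bool) (m : ℕ) (x : Fin n) : Finset (Fin h) :=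
  univ.filter (fun i => c (.y i) (.q m x) = true)

/-- good blocks -/
def good (k : ℕ) (D : Dat T κ (h + 1)) (c : VI h n → VI h n → Bool) (m : ℕ) : Prop :=
  (∀ (x : Fin n) (t : ℕ), 0 < k → t / k = m * n + x.val → typ c t) ∧
    ∀ x, (Rs c m x).card ≤ (D.K.filter (fun x => κ x = true)).card

/-- (I.5) -/
theorem finTyp (hLR : LRStatement) (hSP : SplStatement) (D : Dat T κ (h + 1))
    (c : VI h n → VI h n → Bool) (hc : ∀ x y, c x y = c y x)
    (hno : ∀ b, ¬ Emb T (cls (FI h n k) c b))
    (hB : Full (cls (FI h n k) c false) (Yf h n none))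
    (hR : ¬ Full (cls (FI h n k) c true) (Yf h n none)) : {t | ¬ typ c t}.Finite := by
  classical
  set P := Yf h n none ∪ Pf h n none 0 with hP
  have hsp := (hSP n (h + 1) T κ D.prop D.cardA (VI h n) (FI h n k) c hc hno P
    (fun t => .z none 0 t) (fun a b hab => by simpa using hab)
    (by rw [hP, card_union_of_disjoint (disj_YP _ _ _), card_Y, card_P]; omega)
    (by
      intro y hy t
      rw [hP, mem_union] at hy
      rcases hy with hy | hy
      · obtain ⟨i, rfl⟩ := (mem_Y0 _).1 hy
        exact fi_yz0 i 0 t
      · obtain ⟨l, rfl⟩ := (mem_P _ _ _).1 hy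
        exact fi_pz none 0 l t)).2
  have hfin : ∀ R ∈ P.powerset, R ≠ Pf h n none 0 →
      {t | ∀ y ∈ P, (c y (.z none 0 t) = true ↔ y ∈ R)}.Finite := by
    intro R hRP hRne
    rw [mem_powerset] at hRP
    by_contra hinf
    obtain ⟨hRc, C, hCc, hRC, hmem, fR, fC⟩ := hsp R hRP hinf
    by_cases hCY : C = Yf h n none
    · apply hRne
      ext v
      constructor
      · intro hv
        have h1 := hRP hv
        rw [hP, mem_union] at h1
        rcases h1 with h1 | h1
        · exact absurd (hCY ▸ h1 : v ∈ C) (Finset.disjoint_left.1 hRC hv)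
        · exact h1
      · intro hv
        have h1 : v ∈ P := by rw [hP, mem_union]; exact Or.inr hv
        rcases (hmem v).2 h1 with h2 | h2
        · exact h2
        · rw [hCY] at h2
          exact absurd hv (Finset.disjoint_left.1 (disj_YP none none 0) h2)
    · have hd := disjF hLR D _ (hno false) C (Yf h n none) (by omega) card_Y0 fC hB hCY
      have hCP : C = Pf h n none 0 := by
        apply eq_of_subset_of_card_le
        · intro v hv
          have h1 : v ∈ P := (hmem v).1 (Or.inr hv)
          rw [hP, mem_union] at h1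
          rcases h1 with h1 | h1
          · exact absurd h1 (Finset.disjoint_left.1 hd hv)
          · exact h1
        · rw [card_P]; omega
      have hRY : Yf h n none = R := by
        apply eq_of_subset_of_card_le
        · intro v hv
          have h1 : v ∈ P := by rw [hP, mem_union]; exact Or.inl hv
          rcases (hmem v).2 h1 with h2 | h2
          · exact h2
          · rw [hCP] at h2
            exact absurd h2 (Finset.disjoint_left.1 (disj_YP none none 0) hv)
        · rw [card_Y]; omega
      rw [← hRY] at fR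
      exact hR fR
  have hunion : {t | ¬ typ c t} ⊆ ⋃ R ∈ (P.powerset.filter (fun R => R ≠ Pf h n none 0)),
      {t | ∀ y ∈ P, (c y (.z none 0 t) = true ↔ y ∈ R)} := by
    intro t ht
    simp only [Set.mem_iUnion, mem_filter, mem_powerset, exists_prop]
    refine ⟨P.filter (fun y => c y (.z none 0 t) = true), ⟨filter_subset _ _, ?_⟩, ?_⟩
    · intro heq
      apply ht
      constructor
      · intro i
        cases hci : c (.y i) (.z none 0 t) with
        | false => rfl
        | true =>
          have hy : VI.y i ∈ Yf h n none := (mem_Y0 _).2 ⟨i, rfl⟩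
          have h1 : VI.y i ∈ P.filter (fun y => c y (.z none 0 t) = true) :=
            mem_filter.2 ⟨by rw [hP, mem_union]; exact Or.inl hy, hci⟩
          rw [heq] at h1
          exact absurd h1 (Finset.disjoint_left.1 (disj_YP none none 0) hy)
      · intro l
        have h1 : VI.p none 0 l ∈ Pf h n none 0 := (mem_P _ _ _).2 ⟨l, rfl⟩
        rw [← heq] at h1
        exact (mem_filter.1 h1).2
    · intro y hy
      rw [mem_filter]
      exact ⟨fun h' => ⟨hy, h'⟩, fun h' => h'.2⟩
  refine Set.Finite.subset ?_ hunion
  apply Set.Finite.biUnion (Finset.finite_toSet _)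
  intro R hRm
  have := Finset.mem_coe.1 hRm
  rw [mem_filter] at this
  exact hfin R this.1 this.2

theorem finGood (hLR : LRStatement) (hSP : SplStatement) (D : Dat T κ (h + 1))
    (c : VI h n → VI h n → Bool) (hc : ∀ x y, c x y = c y x)
    (hno : ∀ b, ¬ Emb T (cls (FI h n k) c b))
    (hB : Full (cls (FI h n k) c false) (Yf h n none))
    (hR : ¬ Full (cls (FI h n k) c true) (Yf h n none))
    (hY : ∀ i, Full (cls (FI h n k) c true) (Yf h n (some i))) :
    {m | ¬ good k D c m}.Finite := by
  classical
  obtain ⟨hk1, hk2⟩ := kA D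
  have hT := finTyp hLR hSP D c hc hno hB hR
  have h1 : {m | ¬ ∀ (x : Fin n) (t : ℕ), 0 < k → t / k = m * n + x.val → typ c t}.Finite := by
    refine Set.Finite.subset (hT.image (fun t => t / k / n)) ?_
    intro m hm
    simp only [Set.mem_setOf_eq, not_forall] at hm
    obtain ⟨x, t, hk, ht, hnt⟩ := hm
    refine ⟨t, hnt, ?_⟩
    show t / k / n = m
    rw [ht, Nat.mul_comm, Nat.mul_add_div (by have := x.2; omega), Nat.div_eq_of_lt x.2]
    rfl
  have h2 : {m | ¬ ∀ x, (Rs c m x).card ≤ (D.K.filter (fun x => κ x = true)).card}.Finite := by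
    have hfin : ∀ (x : Fin n) (R : Finset (Fin h)),
        R.card = (D.K.filter (fun x => κ x = true)).card + 1 → {m | R ⊆ Rs c m x}.Finite := by
      intro x R hRc
      by_contra hinf
      have hinf' : {m | R ⊆ Rs c m x}.Infinite := hinf
      have hne : R.Nonempty := card_pos.1 (by omega)
      obtain ⟨i, hi⟩ := hne
      have hF : Full (cls (FI h n k) c true) (R.image (fun i => (VI.y i : VI h n))) := by
        have := hinf'.image (f := fun m => (VI.q m x : VI h n)) (fun a _ b _ hab => by simpa using hab)
        refine this.mono ?_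
        rintro v ⟨m, hm, rfl⟩
        intro y hy
        rw [mem_image] at hy
        obtain ⟨j, hj, rfl⟩ := hy
        have := hm hj
        rw [Rs, mem_filter] at this
        exact cls_mk hc (fi_yq j m x) this.2
      have hcR : (R.image (fun i => (VI.y i : VI h n))).card = R.card :=
        card_image_of_injective _ (fun a b hab => by simpa using hab)
      refine hno true (hLR n (h + 1) T κ D _ _ (R.image (fun i => (VI.y i : VI h n)))
        (Yf h n (some i)) (.y i) (mem_image.2 ⟨i, hi, rfl⟩) ((mem_Yi i _).2 (Or.inl rfl)) hF (hY i)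
        (by rw [hcR, hRc]) (by rw [card_Yi]; omega) ?_)
      intro V' hV1 hV2
      have hsub : (R.image (fun i => (VI.y i : VI h n))) ∪ (univ.image (fun l => (VI.w i l : VI h n)))
          ⊆ V' := by
        apply union_subset hV1
        intro v hv
        rw [mem_image] at hv
        obtain ⟨l, -, rfl⟩ := hv
        exact hV2 ((mem_Yi i _).2 (Or.inr ⟨l, rfl⟩))
      have hcc := card_le_card hsub
      rw [card_union_of_disjoint, hcR, hRc,
        card_image_of_injective (f := fun l => (VI.w i l : VI h n)) _
          (fun a b hab => by simpa using hab)] at hcc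
      · simp only [card_univ, Fintype.card_fin] at hcc
        have := i.pos
        omega
      · rw [Finset.disjoint_left]
        intro v hv hv'
        rw [mem_image] at hv hv'
        obtain ⟨j, -, rfl⟩ := hv
        obtain ⟨l, -, hl⟩ := hv'
        exact absurd hl (by simp)
    have hsub : {m | ¬ ∀ x, (Rs c m x).card ≤ (D.K.filter (fun x => κ x = true)).card} ⊆
        ⋃ (x : Fin n), ⋃ R ∈ (univ.filter (fun R : Finset (Fin h) =>
          R.card = (D.K.filter (fun x => κ x = true)).card + 1)), {m | R ⊆ Rs c m x} := by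
      intro m hm
      simp only [Set.mem_setOf_eq, not_forall, not_le] at hm
      obtain ⟨x, hx⟩ := hm
      obtain ⟨R, hRs, hRc⟩ := exists_subset_card_eq (Nat.succ_le_of_lt hx)
      simp only [Set.mem_iUnion, mem_filter, mem_univ, true_and, exists_prop]
      exact ⟨x, R, hRc, hRs⟩
    refine Set.Finite.subset ?_ hsub
    apply Set.finite_iUnion
    intro x
    apply Set.Finite.biUnion (Finset.finite_toSet _)
    intro R hRm
    have := Finset.mem_coe.1 hRm
    rw [mem_filter] at this
    exact hfin x R this.2
  refine Set.Finite.subset (h1.union h2) ?_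
  intro m hm
  by_contra hcon
  simp only [Set.mem_union, Set.mem_setOf_eq, not_or, not_not] at hcon
  exact hm ⟨hcon.1, hcon.2⟩

/-- (I.7): few blue block neighbours -/
theorem fewBlue (h7 : L7Statement) (h7a : L7aStatement) (D : Dat T κ (h + 1))
    (c : VI h n → VI h n → Bool) (hc : ∀ x y, c x y = c y x)
    (hno : ∀ b, ¬ Emb T (cls (FI h n k) c b))
    (hB : Full (cls (FI h n k) c false) (Yf h n none)) (m : ℕ) (hm : good k D c m) (x : Fin n) :
    (univ.filter (fun x' => x' ≠ x ∧ c (.q m x) (.q m x') = false)).card < (nb T D.a0).card := by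
  classical
  have hd0 : 0 < (nb T D.a0).card := by
    refine card_pos.2 ⟨D.b0, ?_⟩
    simp only [nb, mem_filter, mem_univ, true_and]
    exact D.adj0
  by_contra hle
  push Not at hle
  set N := univ.filter (fun x' => x' ≠ x ∧ c (.q m x) (.q m x') = false) with hN
  obtain ⟨x0, hx0⟩ : N.Nonempty := card_pos.1 (by omega)
  have hx0' : x0 ≠ x ∧ c (.q m x) (.q m x0) = false := by
    rw [hN, mem_filter] at hx0; exact hx0.2
  have hcN : (N.image (fun x' => (VI.q m x' : VI h n))).card = N.card :=
    card_image_of_injective _ (fun a b hab => by simpa using hab)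
  have hb0 := h7a n (h + 1) T κ D
  have hRx := hm.2 x0
  have hcS : ((univ.filter (fun i => c (.y i) (.q m x0) = false)).image
      (fun i => (VI.y i : VI h n))).card = h - (Rs c m x0).card := by
    rw [card_image_of_injective _ (fun a b hab => by simpa using hab)]
    have hsum := card_filter_add_card_filter_not (s := (univ : Finset (Fin h)))
      (fun i => c (.y i) (.q m x0) = true)
    simp only [card_univ, Fintype.card_fin, Bool.not_eq_true] at hsum
    rw [Rs]
    omega
  refine hno false (h7 n (h + 1) T κ D _ _ (Yf h n none) (N.image (fun x' => (VI.q m x' : VI h n)))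
    ((univ.filter (fun i => c (.y i) (.q m x0) = false)).image (fun i => (VI.y i : VI h n)))
    (.q m x) (.q m x0) (by rw [card_Y]) hB ?_ ?_ (by rw [hcN]; exact hle) ?_
    (mem_image.2 ⟨x0, hx0, rfl⟩) ?_ (by rw [hcS]; omega) ?_)
  · intro hq
    obtain ⟨i, hi⟩ := (mem_Y0 _).1 hq
    exact absurd hi (by simp)
  · intro v hv hq
    rw [mem_image] at hv
    obtain ⟨x', -, rfl⟩ := hv
    obtain ⟨i, hi⟩ := (mem_Y0 _).1 hq
    exact absurd hi (by simp)
  · intro v hv
    rw [mem_image] at hv
    obtain ⟨x', hx', rfl⟩ := hv
    rw [hN, mem_filter] at hx'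
    exact cls_mk hc (fi_qq m (Ne.symm hx'.2.1)) hx'.2.2
  · intro v hv
    rw [mem_image] at hv
    obtain ⟨i, -, rfl⟩ := hv
    exact (mem_Y0 _).2 ⟨i, rfl⟩
  · intro v hv
    rw [mem_image] at hv
    obtain ⟨i, hi, rfl⟩ := hv
    rw [mem_filter] at hi
    exact (cls_mk hc (fi_yq i m x0) hi.2).symm

theorem goodExists (D : Dat T κ (h + 1)) (c : VI h n → VI h n → Bool) (S : Set ℕ)
    (h1 : {m | ¬ good k D c m}.Finite) (h2 : {m | good k D c m ∧ m ∈ S}.Finite) :
    ∃ m, good k D c m ∧ m ∉ S := by
  obtain ⟨m, hm⟩ := (h1.union h2).exists_notMem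
  simp only [Set.mem_union, Set.mem_setOf_eq, not_or, not_not, not_and] at hm
  exact ⟨m, hm.1, hm.2 hm.1⟩

theorem embRed (T : SimpleGraph (Fin n)) (c : VI h n → VI h n → Bool) (hc : ∀ x y, c x y = c y x)
    (m : ℕ) (hm : ∀ x x' : Fin n, x ≠ x' → c (.q m x) (.q m x') = true) :
    Emb T (cls (FI h n k) c true) := by
  refine ⟨fun x => .q m x, fun a b hab => by simpa using hab, ?_⟩
  intro i j hij
  exact cls_mk hc (fi_qq m hij.ne) (hm i j hij.ne)

/-- Case `a0` a leaf, after the choice of colours. -/
theorem coreB (hLR : LRStatement) (h7 : L7Statement) (h7a : L7aStatement) (hSP : SplStatement)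
    (D : Dat T κ (h + 1)) (hd : (nb T D.a0).card = 1)
    (c : VI h n → VI h n → Bool) (hc : ∀ x y, c x y = c y x)
    (hno : ∀ b, ¬ Emb T (cls (FI h n k) c b))
    (hB : Full (cls (FI h n k) c false) (Yf h n none))
    (hR : ¬ Full (cls (FI h n k) c true) (Yf h n none))
    (hY : ∀ i, Full (cls (FI h n k) c true) (Yf h n (some i))) : False := by
  classical
  have hg := finGood hLR hSP D c hc hno hB hR hY
  obtain ⟨m, hm, -⟩ := goodExists D c ∅ hg (by simp)
  refine hno true (embRed T c hc m ?_)
  intro x x' hxx
  have := fewBlue h7 h7a D c hc hno hB m hm x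
  rw [hd, Nat.lt_one_iff, card_eq_zero, filter_eq_empty_iff] at this
  have h1 := this (mem_univ x')
  cases hcc : c (.q m x) (.q m x') with
  | true => rfl
  | false => exact absurd ⟨Ne.symm hxx, hcc⟩ h1

/-- Case I, after the choice of colours. -/
theorem coreI (hLR : LRStatement) (h7 : L7Statement) (h7a : L7aStatement) (h8 : L8Statement)
    (hSP : SplStatement) (D : DatI T κ (h + 1)) (hSH : Emb T (SH h (k + 1)))
    (c : VI h n → VI h n → Bool) (hc : ∀ x y, c x y = c y x)
    (hno : ∀ b, ¬ Emb T (cls (FI h n k) c b))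
    (hB : Full (cls (FI h n k) c false) (Yf h n none))
    (hR : ¬ Full (cls (FI h n k) c true) (Yf h n none))
    (hY : ∀ i, Full (cls (FI h n k) c true) (Yf h n (some i))) : False := by
  classical
  have hg := finGood hLR hSP D.toDat c hc hno hB hR hY
  have hT := finTyp hLR hSP D.toDat c hc hno hB hR
  have hd0 := D.d0
  have hd0K := D.d0K
  have hd0p : 0 < (nb T D.a0).card := by
    refine card_pos.2 ⟨D.b0, ?_⟩
    simp only [nb, mem_filter, mem_univ, true_and]
    exact D.adj0
  have hP : Full (cls (FI h n k) c true) (Pf h n none 0) := by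
    have hinf : {t | typ c t}.Infinite := by
      have := hT.infinite_compl
      refine this.mono ?_
      intro t ht
      simpa using ht
    have := hinf.image (f := fun t => (VI.z none 0 t : VI h n)) (fun a _ b _ hab => by simpa using hab)
    refine this.mono ?_
    rintro v ⟨t, ht, rfl⟩
    intro y hy
    obtain ⟨l, rfl⟩ := (mem_P _ _ _).1 hy
    exact cls_mk hc (fi_pz none 0 l t) (ht.2 l)
  -- red block neighbours
  have hred : ∀ m, good k D.toDat c m → ∀ x : Fin n, n ≤
      (univ.filter (fun x' => x' ≠ x ∧ c (.q m x) (.q m x') = true)).card + (nb T D.a0).card := by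
    intro m hm x
    have hb := fewBlue h7 h7a D.toDat c hc hno hB m hm x
    have hsub : (univ : Finset (Fin n)) ⊆ insert x
        ((univ.filter (fun x' => x' ≠ x ∧ c (.q m x) (.q m x') = true)) ∪
          (univ.filter (fun x' => x' ≠ x ∧ c (.q m x) (.q m x') = false))) := by
      intro x' _
      simp only [mem_insert, mem_union, mem_filter, mem_univ, true_and]
      by_cases hx : x' = x
      · exact Or.inl hx
      · cases hcc : c (.q m x) (.q m x') with
        | true => exact Or.inr (Or.inl ⟨hx, rfl⟩)
        | false => exact Or.inr (Or.inr ⟨hx, rfl⟩)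
    have h1 := card_le_card hsub
    have h2 := card_insert_le x ((univ.filter (fun x' => x' ≠ x ∧ c (.q m x) (.q m x') = true)) ∪
          (univ.filter (fun x' => x' ≠ x ∧ c (.q m x) (.q m x') = false)))
    have h3 := card_union_le (univ.filter (fun x' => x' ≠ x ∧ c (.q m x) (.q m x') = true))
          (univ.filter (fun x' => x' ≠ x ∧ c (.q m x) (.q m x') = false))
    simp only [card_univ, Fintype.card_fin] at h1
    omega
  -- (I.8)
  have h8' : ∀ m, good k D.toDat c m → ∀ x i, c (.y i) (.q m x) = false := by
    intro m hm x i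
    cases hcc : c (.y i) (.q m x) with
    | false => rfl
    | true =>
      exfalso
      refine hno true (h8 n (h + 1) T κ D _ _ (Set.range (fun x => (VI.q m x : VI h n)))
        (Yf h n (some i)) (.y i) (.q m x) ((mem_Yi i _).2 (Or.inl rfl)) (by rw [card_Yi]) (hY i) ?_
        ⟨x, rfl⟩ (cls_mk hc (fi_yq i m x) hcc) ?_)
      · rintro v hv ⟨x', rfl⟩
        rcases (mem_Yi i _).1 hv with hv | ⟨l, hv⟩
        · exact absurd hv (by simp)
        · exact absurd hv (by simp)
      · rintro v ⟨x', rfl⟩ S hS hSK
        have hr := hred m hm x'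
        set NR := univ.filter (fun x'' => x'' ≠ x' ∧ c (.q m x') (.q m x'') = true) with hNR
        by_contra hcon
        push Not at hcon
        have hsub : insert (VI.q m x') (NR.image (fun x'' => (VI.q m x'' : VI h n))) ⊆ S := by
          intro v hv
          rw [mem_insert, mem_image] at hv
          rcases hv with rfl | ⟨x'', hx'', rfl⟩
          · exact hS
          · by_contra hvS
            rw [hNR, mem_filter] at hx''
            exact hcon _ ⟨x'', rfl⟩ hvS (cls_mk hc (fi_qq m (Ne.symm hx''.2.1)) hx''.2.2)
        have hcard := card_le_card hsub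
        rw [card_insert_of_notMem, card_image_of_injective _ (fun a b hab => by simpa using hab)]
          at hcard
        · omega
        · rw [mem_image]
          rintro ⟨x'', hx'', he⟩
          rw [hNR, mem_filter] at hx''
          simp at he
          exact hx''.2.1 he
  -- (I.9)
  have h9' : ∀ m, good k D.toDat c m → ∀ (x : Fin n) (t : ℕ), 0 < k → t / k = m * n + x.val →
      c (.q m x) (.z none 0 t) = false := by
    intro m hm x t hk ht
    cases hcc : c (.q m x) (.z none 0 t) with
    | false => rfl
    | true =>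
      exfalso
      have hr := hred m hm x
      have ht' := hm.1 x t hk ht
      set NR := univ.filter (fun x'' => x'' ≠ x ∧ c (.q m x) (.q m x'') = true) with hNR
      have hb0 := h7a n (h + 1) T κ D.toDat
      have hcN : (insert (VI.z none 0 t) (NR.image (fun x'' => (VI.q m x'' : VI h n)))).card =
          NR.card + 1 := by
        rw [card_insert_of_notMem, card_image_of_injective _ (fun a b hab => by simpa using hab)]
        simp
      refine hno true (h7 n (h + 1) T κ D.toDat _ _ (Pf h n none 0)
        (insert (VI.z none 0 t) (NR.image (fun x'' => (VI.q m x'' : VI h n))))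
        (Pf h n none 0) (.q m x) (.z none 0 t) (by rw [card_P]) hP ?_ ?_ (by rw [hcN]; omega) ?_
        (mem_insert_self _ _) (Subset.refl _) (by rw [card_P]; omega) ?_)
      · intro hq
        obtain ⟨i, hi⟩ := (mem_P _ _ _).1 hq
        exact absurd hi (by simp)
      · intro v hv hq
        obtain ⟨i, rfl⟩ := (mem_P _ _ _).1 hq
        rw [mem_insert, mem_image] at hv
        rcases hv with hv | ⟨x'', -, hv⟩
        · exact absurd hv (by simp)
        · exact absurd hv (by simp)
      · intro v hv
        rw [mem_insert, mem_image] at hv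
        rcases hv with rfl | ⟨x'', hx'', rfl⟩
        · exact cls_mk hc (fi_qz m x t hk ht) hcc
        · rw [hNR, mem_filter] at hx''
          exact cls_mk hc (fi_qq m (Ne.symm hx''.2.1)) hx''.2.2
      · intro v hv
        obtain ⟨l, rfl⟩ := (mem_P _ _ _).1 hv
        exact (cls_mk hc (fi_pz none 0 l t) (ht'.2 l)).symm
  -- (I.10)
  set S : Set ℕ := {m | ∃ x x' : Fin n, x ≠ x' ∧ c (.q m x) (.q m x') = false} with hS
  have hfin : {m | good k D.toDat c m ∧ m ∈ S}.Finite := by
    by_contra hinf
    have hinf' : {m | good k D.toDat c m ∧ m ∈ S}.Infinite := hinf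
    let M : ℕ ↪ {m | good k D.toDat c m ∧ m ∈ S} := hinf'.natEmbedding
    have hM : ∀ j, good k D.toDat c (M j).1 := fun j => (M j).2.1
    have hMS : ∀ j, ∃ x x' : Fin n, x ≠ x' ∧ c (.q (M j).1 x) (.q (M j).1 x') = false :=
      fun j => (M j).2.2
    choose xc xd hxx hcd using hMS
    let f : Fin h ⊕ (ℕ × Option (Fin (k + 1))) → VI h n := fun u => match u with
      | .inl i => .y i
      | .inr (j, none) => .q (M j).1 (xc j)
      | .inr (j, some l) => if hl : l.val = 0 then .q (M j).1 (xd j) else
          .z none 0 (k * ((M j).1 * n + (xc j).val) + (l.val - 1))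
    have hMinj : ∀ i j, (M i).1 = (M j).1 → i = j := fun i j hij => M.injective (Subtype.ext hij)
    have hdiv : ∀ (j : ℕ) (l : Fin (k + 1)), l.val ≠ 0 → 0 < k ∧
        (k * ((M j).1 * n + (xc j).val) + (l.val - 1)) / k = (M j).1 * n + (xc j).val := by
      intro j l hl
      have hl2 := l.2
      have hk : 0 < k := by omega
      refine ⟨hk, ?_⟩
      rw [Nat.mul_add_div hk, Nat.div_eq_of_lt (by omega)]
      rfl
    have hfinl : ∀ i, f (.inl i) = .y i := fun _ => rfl
    have hfnone : ∀ j, f (.inr (j, none)) = .q (M j).1 (xc j) := fun _ => rfl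
    have hfzero : ∀ j (l : Fin (k + 1)), l.val = 0 → f (.inr (j, some l)) = .q (M j).1 (xd j) := by
      intro j l hl
      show (if hl : l.val = 0 then (VI.q (M j).1 (xd j) : VI h n) else _) = _
      rw [dif_pos hl]
    have hfsucc : ∀ j (l : Fin (k + 1)), l.val ≠ 0 → f (.inr (j, some l)) =
        .z none 0 (k * ((M j).1 * n + (xc j).val) + (l.val - 1)) := by
      intro j l hl
      show (if hl : l.val = 0 then (VI.q (M j).1 (xd j) : VI h n) else _) = _
      rw [dif_neg hl]
    have finj : Function.Injective f := by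
      have hmn : ∀ (i j : ℕ), (M i).1 * n + (xc i).val = (M j).1 * n + (xc j).val → i = j := by
        intro i j hij
        apply hMinj
        have h1 : ((M i).1 * n + (xc i).val) / n = (M i).1 := by
          rw [Nat.mul_comm, Nat.mul_add_div (by have := (xc i).2; omega), Nat.div_eq_of_lt (xc i).2]
          rfl
        have h2 : ((M j).1 * n + (xc j).val) / n = (M j).1 := by
          rw [Nat.mul_comm, Nat.mul_add_div (by have := (xc j).2; omega), Nat.div_eq_of_lt (xc j).2]
          rfl
        rw [← h1, ← h2, hij]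
      rintro (i | ⟨i, _ | l⟩) (j | ⟨j, _ | l'⟩) huv
      · rw [hfinl, hfinl] at huv
        simp at huv
        rw [huv]
      · rw [hfinl, hfnone] at huv
        exact absurd huv (by simp)
      · by_cases hl : l'.val = 0
        · rw [hfinl, hfzero _ _ hl] at huv
          exact absurd huv (by simp)
        · rw [hfinl, hfsucc _ _ hl] at huv
          exact absurd huv (by simp)
      · rw [hfinl, hfnone] at huv
        exact absurd huv (by simp)
      · rw [hfnone, hfnone] at huv
        simp at huv
        rw [hMinj i j (by simpa using huv.1)]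
      · by_cases hl : l'.val = 0
        · rw [hfnone, hfzero _ _ hl] at huv
          simp only [VI.q.injEq] at huv
          have hij := hMinj i j huv.1
          subst hij
          exact absurd huv.2 (hxx i)
        · rw [hfnone, hfsucc _ _ hl] at huv
          exact absurd huv (by simp)
      · by_cases hl : l.val = 0
        · rw [hfinl, hfzero _ _ hl] at huv
          exact absurd huv (by simp)
        · rw [hfinl, hfsucc _ _ hl] at huv
          exact absurd huv (by simp)
      · by_cases hl : l.val = 0
        · rw [hfnone, hfzero _ _ hl] at huv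
          simp only [VI.q.injEq] at huv
          have hij := hMinj i j huv.1
          subst hij
          exact absurd huv.2.symm (hxx i)
        · rw [hfnone, hfsucc _ _ hl] at huv
          exact absurd huv (by simp)
      · by_cases hl : l.val = 0
        · by_cases hl' : l'.val = 0
          · rw [hfzero _ _ hl, hfzero _ _ hl'] at huv
            simp only [VI.q.injEq] at huv
            have hij := hMinj i j huv.1
            subst hij
            have : l = l' := Fin.ext (hl.trans hl'.symm)
            rw [this]
          · rw [hfzero _ _ hl, hfsucc _ _ hl'] at huv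
            exact absurd huv (by simp)
        · by_cases hl' : l'.val = 0
          · rw [hfsucc _ _ hl, hfzero _ _ hl'] at huv
            exact absurd huv (by simp)
          · rw [hfsucc _ _ hl, hfsucc _ _ hl'] at huv
            simp only [VI.z.injEq, true_and] at huv
            have h1 := (hdiv i l hl).2
            have h2 := (hdiv j l' hl').2
            rw [huv, h2] at h1
            have hij := hmn j i h1
            subst hij
            have : l = l' := by
              apply Fin.ext
              omega
            rw [this]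
    have hadj1 : ∀ i u, (cls (FI h n k) c false).Adj (f (.inl i)) (f (.inr u)) := by
      rintro i ⟨j, _ | l⟩
      · rw [hfinl, hfnone]
        exact cls_mk hc (fi_yq _ _ _) (h8' _ (hM j) _ _)
      · by_cases hl : l.val = 0
        · rw [hfinl, hfzero _ _ hl]
          exact cls_mk hc (fi_yq _ _ _) (h8' _ (hM j) _ _)
        · rw [hfinl, hfsucc _ _ hl]
          obtain ⟨hk, hd⟩ := hdiv j l hl
          exact cls_mk hc (fi_yz0 _ _ _) (((hM j).1 (xc j) _ hk hd).1 i)
    have hadj2 : ∀ j l, (cls (FI h n k) c false).Adj (f (.inr (j, none))) (f (.inr (j, some l))) := by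
      intro j l
      by_cases hl : l.val = 0
      · rw [hfnone, hfzero _ _ hl]
        exact cls_mk hc (fi_qq _ (hxx j)) (hcd j)
      · rw [hfnone, hfsucc _ _ hl]
        obtain ⟨hk, hd⟩ := hdiv j l hl
        exact cls_mk hc (fi_qz _ _ _ hk hd) (h9' _ (hM j) _ _ hk hd)
    have hadj : ∀ u v, (SH h (k + 1)).Adj u v → (cls (FI h n k) c false).Adj (f u) (f v) := by
      intro u v huv
      rw [SH, SimpleGraph.fromRel_adj] at huv
      obtain ⟨-, h1⟩ := huv
      rcases u with (i | ⟨i, _ | l⟩) <;> rcases v with (j | ⟨j, _ | l'⟩)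
      · rcases h1 with h1 | h1
        · exact (h1 : False).elim
        · exact (h1 : False).elim
      · exact hadj1 i (j, none)
      · exact hadj1 i (j, some l')
      · exact (hadj1 j (i, none)).symm
      · rcases h1 with h1 | h1
        · exact (h1 : False).elim
        · exact (h1 : False).elim
      · rcases h1 with h1 | h1
        · have hr' : i = j := h1
          subst hr'
          exact hadj2 i l'
        · exact (h1 : False).elim
      · exact (hadj1 j (i, some l)).symm
      · rcases h1 with h1 | h1
        · exact (h1 : False).elim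
        · have hr' : j = i := h1
          subst hr'
          exact (hadj2 j l).symm
      · rcases h1 with h1 | h1
        · exact (h1 : False).elim
        · exact (h1 : False).elim
    obtain ⟨g, ginj, hgadj⟩ := hSH
    exact hno false ⟨f ∘ g, finj.comp ginj, fun i j hij => hadj _ _ (hgadj i j hij)⟩
  obtain ⟨m, hm, hmS⟩ := goodExists D.toDat c S hg hfin
  refine hno true (embRed T c hc m ?_)
  intro x x' hxx
  cases hcc : c (.q m x) (.q m x') with
  | true => rfl
  | false => exact absurd ⟨x, x', hxx, hcc⟩ hmS

theorem cls_not {V : Type} (F : SimpleGraph V) (c : V → V → Bool) (b : Bool) :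
    cls F (fun x y => !(c x y)) b = cls F c (!b) := by
  ext x y
  constructor
  · rintro ⟨h1, h2, h3⟩
    refine ⟨h1, ?_, ?_⟩
    · rw [← h2, Bool.not_not]
    · rw [← h3, Bool.not_not]
  · rintro ⟨h1, h2, h3⟩
    refine ⟨h1, ?_, ?_⟩
    · show (!(c x y)) = b
      rw [h2, Bool.not_not]
    · show (!(c y x)) = b
      rw [h3, Bool.not_not]

/-- Reduction to one choice of colours. -/
theorem reduce (hLR : LRStatement) (hSP : SplStatement) (hTY : TypStatement)
    (D : Dat T κ (h + 1))
    (core : ∀ c : VI h n → VI h n → Bool, (∀ x y, c x y = c y x) →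
      (∀ b, ¬ Emb T (cls (FI h n k) c b)) → Full (cls (FI h n k) c false) (Yf h n none) →
      ¬ Full (cls (FI h n k) c true) (Yf h n none) →
      (∀ i, Full (cls (FI h n k) c true) (Yf h n (some i))) → False) :
    Arr (FI h n k) T := by
  classical
  intro c hc
  by_contra hcon
  push Not at hcon
  have hno : ∀ b, ¬ Emb T (cls (FI h n k) c b) := hcon
  obtain ⟨hk1, hk2⟩ := kA D
  have htyp := hTY (VI h n) h (Full (cls (FI h n k) c true)) (Full (cls (FI h n k) c false))
    (Yf h n) (Pf h n) (by omega)
    (fun R R' hR hR' f1 f2 hne => disjF hLR D _ (hno true) R R' hR hR' f1 f2 hne)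
    (fun R R' hR hR' f1 f2 hne => disjF hLR D _ (hno false) R R' hR hR' f1 f2 hne)
    card_Y card_P disj_PP disj_YP
    (by
      intro i
      rw [Finset.not_disjoint_iff]
      exact ⟨.y i, (mem_Y0 _).2 ⟨i, rfl⟩, (mem_Yi i _).2 (Or.inl rfl)⟩)
    (by
      intro i heq
      have hl : VI.w i ⟨0, by omega⟩ ∈ Yf h n (some i) := (mem_Yi i _).2 (Or.inr ⟨_, rfl⟩)
      rw [← heq] at hl
      obtain ⟨j, hj⟩ := (mem_Y0 _).1 hl
      exact absurd hj (by simp))
    (by
      intro s j
      have hsp := (hSP n (h + 1) T κ D.prop D.cardA (VI h n) (FI h n k) c hc hno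
        (Yf h n s ∪ Pf h n s j) (fun t => .z s j t) (fun a b hab => by simpa using hab)
        (by rw [card_union_of_disjoint (disj_YP _ _ _), card_Y, card_P]; omega)
        (by
          intro y hy t
          rw [mem_union] at hy
          rcases hy with hy | hy
          · cases s with
            | none =>
              obtain ⟨i, rfl⟩ := (mem_Y0 _).1 hy
              exact fi_yz0 i j t
            | some i =>
              rcases (mem_Yi i _).1 hy with rfl | ⟨l, rfl⟩
              · exact fi_yz i j t
              · exact fi_wz i l j t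
          · obtain ⟨l, rfl⟩ := (mem_P _ _ _).1 hy
            exact fi_pz s j l t)).1
      obtain ⟨R, C, hRc, hCc, hRC, hmem, fR, fC⟩ := hsp
      refine ⟨R, C, by omega, by omega, fR, fC, hRC, ?_⟩
      intro x
      rw [hmem x, mem_union])
  rcases htyp with ⟨hB, hR, hY⟩ | ⟨hB, hR, hY⟩
  · exact core c hc hno hB hR hY
  · refine core (fun x y => !(c x y)) (fun x y => by rw [hc]) ?_ ?_ ?_ ?_
    · intro b; rw [cls_not]; exact hno _
    · rw [cls_not]; exact hB
    · rw [cls_not]; exact hR
    · intro i; rw [cls_not]; exact hY i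

end core

end AR1

theorem ar1b_proof (hLR : LRStatement) (h7 : L7Statement) (h7a : L7aStatement)
    (hSP : SplStatement) (hTY : TypStatement) : AR1BStatement := by
  intro n h k T κ D hd
  exact AR1.reduce hLR hSP hTY D
    (fun c hc hno hB hR hY => AR1.coreB hLR h7 h7a hSP D hd c hc hno hB hR hY)

theorem ar1i_proof (hLR : LRStatement) (h7 : L7Statement) (h7a : L7aStatement)
    (h8 : L8Statement) (hSP : SplStatement) (hTY : TypStatement) : AR1IStatement := by
  intro n h k T κ D hSH
  exact AR1.reduce hLR hSP hTY D.toDat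
    (fun c hc hno hB hR hY => AR1.coreI hLR h7 h7a h8 hSP D hSH c hc hno hB hR hY)

end MP3240T
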