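import Pool.Agent.Lib.MP_3240be_co.H51.FinTrees
import Pool.Agent.Lib.MP_3240be_co.H51.AR1
import Pool.Agent.Lib.MP_3240be_co.H51.H68.TI

/-!
# Trees, and bipartite graphs with a leaf and a cut vertex in the smaller class: all rows together
-/

set_option autoImplicit false

namespace MP3240T

open Finset

theorem ar1i_all : AR1IStatement :=
  ar1i_proof (LR_proof ext_proof) (L7_proof ext_proof) L7a_proof (l8_proof ext_proof grd_proof)
    (spl_proof ext_proof) typ_proof

theorem ar1b_all : AR1BStatement :=
  ar1b_proof (LR_proof ext_proof) (L7_proof ext_proof) L7a_proof (spl_proof ext_proof) typ_proof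

/-- Every tree `T` and every pendant extension `T'` of it are separated by a finite graph. -/
theorem trees_all {n : ℕ} (T : SimpleGraph (Fin n)) (T' : SimpleGraph (Fin (n + 1)))
    (hT : T.IsTree) (hext : ∀ i j : Fin n, T'.Adj i.castSucc j.castSucc ↔ T.Adj i j) (v : Fin n)
    (hpend : ∀ i : Fin n, T'.Adj (Fin.last n) i.castSucc ↔ i = v) :
    ∃ (m : ℕ) (F0 : SimpleGraph (Fin m)), Arr F0 T ∧ ¬ Arr F0 T' :=
  trees ti_proof ar1i_all T T' hT hext v hpend

end MP3240T
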