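import Pool.Agent.Lib.MP_3240be_co.H51.Defs

/-!
# MP_3240be_co: connected bipartite graphs with a leaf in `A` at a vertex of small degree

Host: hubs `Y_0` (`h = a - 1`), two further hub sets that meet `Y_0` in complementary parts, infinitely many partner
sets for each of the three, and one block `K_n` joined to `Y_0`.
-/

set_option autoImplicit false

namespace MP3240T

open Finset

/-- Local rule: if `R` is full and `x ∉ R` has `|N(b0)| - 1` neighbours in `R` and a further neighbour outside `R`, then
there is a copy of `T` (`a0` is a leaf at `b0`). -/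
theorem lc (hE : ExtStatement) {n a : ℕ} (T : SimpleGraph (Fin n)) (κ : Fin n → Bool)
    (hκ : ∀ i j, T.Adj i j → κ i ≠ κ j) (hA : (clA κ).card = a) (a0 b0 : Fin n)
    (ha0 : κ a0 = true) (adj0 : T.Adj a0 b0) (leaf0 : ∀ x, T.Adj a0 x → x = b0)
    {V : Type} (G : SimpleGraph V) (R : Finset V) (hR : R.card + 1 = a) (hF : Full G R)
    (x x' : V) (hx : x ∉ R) (hx' : x' ∉ R) (hxx : G.Adj x x') (S0 : Finset V) (hS0 : S0 ⊆ R)
    (hS : (nb T b0).card ≤ S0.card + 1) (hxS : ∀ y ∈ S0, G.Adj x y) : Emb T G := by
  classical
  have hb0 : κ b0 = false := by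
    have h := hκ a0 b0 adj0
    cases hb : κ b0
    · rfl
    · exact absurd (ha0.trans hb.symm) h
  have hnbA : ∀ y ∈ nb T b0, κ y = true := by
    intro y hy
    have h1 : T.Adj b0 y := by simpa [nb] using hy
    have h := hκ b0 y h1
    cases hc : κ y
    · exact absurd (hb0.trans hc.symm) h
    · rfl
  have ha0nb : a0 ∈ nb T b0 := by simpa [nb] using adj0.symm
  -- N := neighbours of b0 other than a0, placed in S0
  set N := (nb T b0).erase a0 with hN
  have hNc : N.card ≤ S0.card := by
    rw [hN, Finset.card_erase_of_mem ha0nb]
    omega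
  obtain ⟨S1, hS1, hS1c⟩ := Finset.exists_subset_card_eq hNc
  have hNA : N ⊆ (clA κ).erase a0 := by
    intro y hy
    rw [hN, Finset.mem_erase] at hy
    rw [Finset.mem_erase]
    exact ⟨hy.1, by simp [clA, hnbA y hy.2]⟩
  have hAc : ((clA κ).erase a0).card = R.card := by
    rw [Finset.card_erase_of_mem (by simp [clA, ha0])]
    omega
  have hrest : (((clA κ).erase a0) \ N).card = (R \ S1).card := by
    rw [Finset.card_sdiff_of_subset hNA, Finset.card_sdiff_of_subset (hS1.trans hS0), hAc, hS1c]
  let e1 : N ≃ S1 := Finset.equivOfCardEq hS1c.symm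
  let e2 : (((clA κ).erase a0) \ N : Finset (Fin n)) ≃ (R \ S1 : Finset V) :=
    Finset.equivOfCardEq hrest
  let φ : Fin n → V := fun i =>
    if h1 : i ∈ N then (e1 ⟨i, h1⟩ : V)
    else if h2 : i ∈ ((clA κ).erase a0) \ N then (e2 ⟨i, h2⟩ : V)
    else if i = b0 then x else x'
  have hφ1 : ∀ i (h : i ∈ N), φ i = (e1 ⟨i, h⟩ : V) := fun i h => dif_pos h
  have hφ2 : ∀ i (h : i ∈ ((clA κ).erase a0) \ N), φ i = (e2 ⟨i, h⟩ : V) := by
    intro i h
    have h' : i ∉ N := (Finset.mem_sdiff.mp h).2
    simp only [φ]
    rw [dif_neg h', dif_pos h]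
  have hbN : b0 ∉ N := fun h => by
    have := hnbA b0 (Finset.mem_of_mem_erase h)
    rw [hb0] at this
    exact Bool.noConfusion this
  have hbA : b0 ∉ ((clA κ).erase a0) \ N := fun h => by
    have := Finset.mem_of_mem_erase (Finset.mem_sdiff.mp h).1
    simp [clA, hb0] at this
  have hφb : φ b0 = x := by
    simp only [φ]
    rw [dif_neg hbN, dif_neg hbA]
    simp
  have haN : a0 ∉ N := Finset.notMem_erase _ _
  have haA : a0 ∉ ((clA κ).erase a0) \ N := fun h =>
    Finset.notMem_erase _ _ (Finset.mem_sdiff.mp h).1
  have hab : a0 ≠ b0 := adj0.ne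
  have hφa : φ a0 = x' := by
    simp only [φ]
    rw [dif_neg haN, dif_neg haA, if_neg hab]
  have hφ1S : ∀ i (h : i ∈ N), φ i ∈ S1 := by
    intro i h
    rw [hφ1 i h]
    exact (e1 ⟨i, h⟩).2
  have hφ2R : ∀ i (h : i ∈ ((clA κ).erase a0) \ N), φ i ∈ R \ S1 := by
    intro i h
    rw [hφ2 i h]
    exact (e2 ⟨i, h⟩).2
  have hφR : ∀ i, κ i = true → i ≠ a0 → φ i ∈ R := by
    intro i hi hia
    by_cases h1 : i ∈ N
    · exact hS0 (hS1 (hφ1S i h1))
    · have h2 : i ∈ ((clA κ).erase a0) \ N := by
        rw [Finset.mem_sdiff, Finset.mem_erase]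
        exact ⟨⟨hia, by simp [clA, hi]⟩, h1⟩
      exact (Finset.mem_sdiff.mp (hφ2R i h2)).1
  have hxx' : x ≠ x' := hxx.ne
  -- W = A ∪ {b0}
  let W : Finset (Fin n) := insert b0 (clA κ)
  refine hE V G n T W φ ?_ ?_ ?_ ?_
  · -- injective on W
    have key : ∀ i j, κ i = true → κ j = true → φ i = φ j → i = j := by
      intro i j hi hj hij
      by_cases hia : i = a0
      · by_cases hja : j = a0
        · rw [hia, hja]
        · exfalso
          have := hφR j hj hja
          rw [← hij, hia, hφa] at this
          exact hx' this
      · by_cases hja : j = a0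
        · exfalso
          have := hφR i hi hia
          rw [hij, hja, hφa] at this
          exact hx' this
        · by_cases h1 : i ∈ N
          · by_cases h2 : j ∈ N
            · rw [hφ1 i h1, hφ1 j h2] at hij
              have := e1.injective (Subtype.ext hij)
              simpa using this
            · exfalso
              have h3 : j ∈ ((clA κ).erase a0) \ N := by
                rw [Finset.mem_sdiff, Finset.mem_erase]
                exact ⟨⟨hja, by simp [clA, hj]⟩, h2⟩
              have h4 := hφ2R j h3
              rw [← hij] at h4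
              exact (Finset.mem_sdiff.mp h4).2 (hφ1S i h1)
          · have h1' : i ∈ ((clA κ).erase a0) \ N := by
              rw [Finset.mem_sdiff, Finset.mem_erase]
              exact ⟨⟨hia, by simp [clA, hi]⟩, h1⟩
            by_cases h2 : j ∈ N
            · exfalso
              have h4 := hφ2R i h1'
              rw [hij] at h4
              exact (Finset.mem_sdiff.mp h4).2 (hφ1S j h2)
            · have h2' : j ∈ ((clA κ).erase a0) \ N := by
                rw [Finset.mem_sdiff, Finset.mem_erase]
                exact ⟨⟨hja, by simp [clA, hj]⟩, h2⟩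
              rw [hφ2 i h1', hφ2 j h2'] at hij
              have := e2.injective (Subtype.ext hij)
              simpa using this
    have keyb : ∀ i, κ i = true → φ i ≠ φ b0 := by
      intro i hi h
      rw [hφb] at h
      by_cases hia : i = a0
      · rw [hia, hφa] at h
        exact hxx' h.symm
      · have := hφR i hi hia
        rw [h] at this
        exact hx this
    intro i hi j hj hij
    simp only [W, Finset.coe_insert, Set.mem_insert_iff, Finset.mem_coe] at hi hj
    rcases hi with hi | hi <;> rcases hj with hj | hj
    · rw [hi, hj]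
    · exfalso
      have hj' : κ j = true := by simpa [clA] using hj
      exact keyb j hj' (by rw [← hij, hi])
    · exfalso
      have hi' : κ i = true := by simpa [clA] using hi
      exact keyb i hi' (by rw [hij, hj])
    · exact key i j (by simpa [clA] using hi) (by simpa [clA] using hj) hij
  · -- edges inside W: only at b0
    have hb : ∀ j, T.Adj b0 j → G.Adj (φ b0) (φ j) := by
      intro j hj
      rw [hφb]
      have hjn : j ∈ nb T b0 := by simpa [nb] using hj
      by_cases hja : j = a0
      · rw [hja, hφa]
        exact hxx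
      · have : j ∈ N := Finset.mem_erase.mpr ⟨hja, hjn⟩
        exact hxS _ (hS1 (hφ1S j this))
    intro i hi j hj hij
    by_cases hib : i = b0
    · rw [hib] at hij ⊢
      exact hb j hij
    · by_cases hjb : j = b0
      · rw [hjb] at hij ⊢
        exact (hb i hij.symm).symm
      · exfalso
        simp only [W, Finset.mem_insert] at hi hj
        have hi' : κ i = true := by simpa [clA] using hi.resolve_left hib
        have hj' : κ j = true := by simpa [clA] using hj.resolve_left hjb
        exact hκ i j hij (hi'.trans hj'.symm)
  · intro i hi j hj hij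
    have hi' : κ i = false := by
      cases h : κ i
      · rfl
      · exact absurd (Finset.mem_insert_of_mem (by simp [clA, h])) hi
    have hj' : κ j = false := by
      cases h : κ j
      · rfl
      · exact absurd (Finset.mem_insert_of_mem (by simp [clA, h])) hj
    exact hκ i j hij (hi'.trans hj'.symm)
  · intro u hu
    refine hF.mono ?_
    intro z hz i hi hui
    simp only [W, Finset.mem_insert, not_or] at hu
    have hu' : κ u = false := by
      cases h : κ u
      · rfl
      · exact absurd (by simp [clA, h]) hu.2
    have hi' : κ i = true := by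
      have := hκ u i hui
      cases h : κ i
      · exact absurd (hu'.trans h.symm) this
      · rfl
    have hia : i ≠ a0 := by
      intro h
      rw [h] at hui
      exact hu.1 (leaf0 u hui.symm)
    exact hz _ (hφR i hi' hia)

/-- Vertices of the host: `y l` (hubs of `Y_0`), `w i l` (further hubs of the two other sets),
`p s j l` (partners), `z s j t` (lows), `q x` (the block). -/
inductive VC (h n : ℕ) : Type
  | y : Fin h → VC h n
  | w : Bool → Fin h → VC h n
  | p : Option Bool → ℕ → Fin h → VC h n
  | z : Option Bool → ℕ → ℕ → VC h n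
  | q : Fin n → VC h n

/-- The three main hub sets. -/
def mainC {h n : ℕ} (s : ℕ) : Option Bool → Fin h → VC h n
  | none, l => .y l
  | some i, l => if decide (l.val < s) = i then .y l else .w i l

/-- The edges of the host (one direction). -/
def relC {h n : ℕ} (s : ℕ) : VC h n → VC h n → Prop
  | .p i j _, .z i' j' _ => i = i' ∧ j = j'
  | .y _, .q _ => True
  | .q x, .q x' => x ≠ x'
  | u, .z i _ _ => ∃ l, u = mainC s i l
  | _, _ => False

/-- The host. -/
def FC (h n s : ℕ) : SimpleGraph (VC h n) := SimpleGraph.fromRel (relC s)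

theorem mainC_inj {h n : ℕ} (s : ℕ) (i : Option Bool) :
    Function.Injective (mainC (n := n) s i : Fin h → VC h n) := by
  intro l l' hl
  cases i with
  | none => simpa [mainC] using hl
  | some i =>
    simp only [mainC] at hl
    split_ifs at hl <;> simp_all

end MP3240T
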