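import Pool.Agent.Lib.MP_3240be_co.H51.CCcore

/-!
# The host `FC` is Ramsey for `T`
-/

set_option autoImplicit false

namespace MP3240T

open Finset

/-- hubs of the main set `i` -/
noncomputable def YC (h n s : ℕ) (i : Option Bool) : Finset (VC h n) := by
  classical exact univ.image (mainC s i)

/-- partner hubs -/
noncomputable def PC (h n : ℕ) (i : Option Bool) (j : ℕ) : Finset (VC h n) := by
  classical exact univ.image (VC.p i j)

/-- the two parts of `Y_0` -/
noncomputable def WC (h n s : ℕ) (i : Bool) : Finset (VC h n) := by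
  classical exact (univ.filter (fun l : Fin h => decide (l.val < s) = i)).image VC.y

theorem mem_YC {h n s : ℕ} {i : Option Bool} {x : VC h n} :
    x ∈ YC h n s i ↔ ∃ l, mainC s i l = x := by
  classical
  simp [YC]

theorem mem_PC {h n : ℕ} {i : Option Bool} {j : ℕ} {x : VC h n} :
    x ∈ PC h n i j ↔ ∃ l, VC.p i j l = x := by
  classical
  simp [PC]

theorem mem_WC {h n s : ℕ} {i : Bool} {x : VC h n} :
    x ∈ WC h n s i ↔ ∃ l : Fin h, decide (l.val < s) = i ∧ VC.y l = x := by
  classical
  simp [WC]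

theorem card_YC (h n s : ℕ) (i : Option Bool) : (YC h n s i).card = h := by
  classical
  rw [YC, Finset.card_image_of_injective _ (mainC_inj s i)]
  simp

theorem card_PC (h n : ℕ) (i : Option Bool) (j : ℕ) : (PC h n i j).card = h := by
  classical
  rw [PC, Finset.card_image_of_injective]
  · simp
  · intro l l' hl
    simpa using hl

theorem card_WC_true {h n s : ℕ} (hs : s ≤ h) : s ≤ (WC h n s true).card := by
  classical
  rw [WC, Finset.card_image_of_injective _ (fun l l' hl => by simpa using hl)]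
  have h1 : (univ.image (fun l : Fin s => Fin.castLE hs l)) ⊆
      univ.filter (fun l : Fin h => decide (l.val < s) = true) := by
    intro x hx
    obtain ⟨l, -, rfl⟩ := Finset.mem_image.mp hx
    simp
  have h2 := Finset.card_le_card h1
  rw [Finset.card_image_of_injective _ (Fin.castLE_injective hs)] at h2
  simpa using h2

theorem card_WC_false {h n s : ℕ} (hs : 2 * s ≤ h) : s ≤ (WC h n s false).card := by
  classical
  rw [WC, Finset.card_image_of_injective _ (fun l l' hl => by simpa using hl)]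
  have hinj : Function.Injective (fun l : Fin s => (⟨l.val + s, by omega⟩ : Fin h)) := by
    intro l l' hl
    apply Fin.ext
    have := congrArg Fin.val hl
    simp only at this
    omega
  have h1 : (univ.image (fun l : Fin s => (⟨l.val + s, by omega⟩ : Fin h))) ⊆
      univ.filter (fun l : Fin h => decide (l.val < s) = false) := by
    intro x hx
    obtain ⟨l, -, rfl⟩ := Finset.mem_image.mp hx
    simp
  have h2 := Finset.card_le_card h1
  rw [Finset.card_image_of_injective _ hinj] at h2
  simpa using h2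

theorem WC_sub_YC {h n s : ℕ} (i : Bool) : WC h n s i ⊆ YC h n s (some i) := by
  intro x hx
  obtain ⟨l, hl, rfl⟩ := mem_WC.mp hx
  rw [mem_YC]
  exact ⟨l, by simp [mainC, hl]⟩

theorem WC_sub_Y0 {h n s : ℕ} (i : Bool) : WC h n s i ⊆ YC h n s none := by
  intro x hx
  obtain ⟨l, hl, rfl⟩ := mem_WC.mp hx
  rw [mem_YC]
  exact ⟨l, rfl⟩

theorem mem_Y0_iff {h n s : ℕ} (x : VC h n) :
    x ∈ YC h n s none ↔ x ∈ WC h n s true ∨ x ∈ WC h n s false := by
  rw [mem_YC, mem_WC, mem_WC]
  constructor
  · rintro ⟨l, rfl⟩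
    by_cases hl : l.val < s
    · exact Or.inl ⟨l, by simp [hl], rfl⟩
    · exact Or.inr ⟨l, by simp [hl], rfl⟩
  · rintro (⟨l, -, rfl⟩ | ⟨l, -, rfl⟩)
    · exact ⟨l, rfl⟩
    · exact ⟨l, rfl⟩

theorem WC_notMem {h n s : ℕ} (i : Bool) (x : VC h n) (hx : x ∈ WC h n s (!i)) :
    x ∉ YC h n s (some i) := by
  obtain ⟨l, hl, rfl⟩ := mem_WC.mp hx
  rw [mem_YC]
  rintro ⟨l', hl'⟩
  simp only [mainC] at hl'
  split_ifs at hl' with h1
  simp only [VC.y.injEq] at hl'
  rw [hl', hl] at h1
  cases i <;> simp at h1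

/-- an element of `Y'_i` outside `Y_0` -/
theorem exists_w {h n s : ℕ} (i : Bool) (h1 : 0 < (WC h n s (!i)).card) :
    ∃ x ∈ YC h n s (some i), x ∉ YC h n s none := by
  obtain ⟨x, hx⟩ := Finset.card_pos.mp h1
  obtain ⟨l, hl, rfl⟩ := mem_WC.mp hx
  refine ⟨.w i l, ?_, ?_⟩
  · rw [mem_YC]
    refine ⟨l, ?_⟩
    simp only [mainC]
    rw [if_neg]
    rw [hl]
    cases i <;> simp
  · rw [mem_YC]
    rintro ⟨l', hl'⟩
    simp [mainC] at hl'

theorem adj_low {h n s : ℕ} (i : Option Bool) (j t : ℕ) (x : VC h n)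
    (hx : x ∈ YC h n s i ∨ x ∈ PC h n i j) : (FC h n s).Adj x (.z i j t) := by
  rw [FC, SimpleGraph.fromRel_adj]
  rcases hx with hx | hx
  · obtain ⟨l, rfl⟩ := mem_YC.mp hx
    cases i with
    | none => exact ⟨by simp [mainC], Or.inl ⟨l, rfl⟩⟩
    | some i =>
      simp only [mainC]
      split_ifs with h1
      · exact ⟨by simp, Or.inl ⟨l, by simp [mainC, h1]⟩⟩
      · exact ⟨by simp, Or.inl ⟨l, by simp only [mainC]; rw [if_neg h1]⟩⟩
  · obtain ⟨l, rfl⟩ := mem_PC.mp hx
    exact ⟨by simp, Or.inl ⟨rfl, rfl⟩⟩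

theorem adj_q {h n s : ℕ} (l : Fin h) (x : Fin n) : (FC h n s).Adj (.q x) (.y l) := by
  rw [FC, SimpleGraph.fromRel_adj]
  exact ⟨by simp, Or.inr trivial⟩

theorem adj_qq {h n s : ℕ} (x x' : Fin n) (hx : x ≠ x') : (FC h n s).Adj (.q x) (.q x') := by
  rw [FC, SimpleGraph.fromRel_adj]
  exact ⟨by simpa using hx, Or.inl hx⟩

/-- The host is Ramsey for `T`. -/
theorem arrC (hE : ExtStatement) (hS : SplStatement) {n h s0 : ℕ} (T : SimpleGraph (Fin n))
    (κ : Fin n → Bool) (hκ : ∀ i j, T.Adj i j → κ i ≠ κ j) (hA : (clA κ).card = h + 1)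
    (a0 b0 : Fin n) (ha0 : κ a0 = true) (adj0 : T.Adj a0 b0) (leaf0 : ∀ x, T.Adj a0 x → x = b0)
    (hs1 : 1 ≤ s0) (hs : (nb T b0).card ≤ s0 + 1) (hs2 : 2 * s0 ≤ h) (hs3 : 3 * s0 ≤ h + 2) :
    Arr (FC h n s0) T := by
  classical
  intro c hc
  by_contra hno
  push Not at hno
  set F := FC h n s0 with hF
  have hrule : ∀ b, Rule (cls F c b) h s0 := by
    intro b R hR hRf x x' hx hx' hxx S0 hS0 hS0c hxS
    exact hno b (lc hE T κ hκ hA a0 b0 ha0 adj0 leaf0 (cls F c b) R (by omega) hRf x x' hx hx' hxx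
      S0 hS0 (by omega) hxS)
  -- splits
  have hsplit : ∀ (i : Option Bool) (j : ℕ), ∃ R C : Finset (VC h n), R.card = h ∧ C.card = h ∧
      Disjoint R C ∧ (∀ x, x ∈ R ∨ x ∈ C ↔ x ∈ YC h n s0 i ∨ x ∈ PC h n i j) ∧
      Full (cls F c true) R ∧ Full (cls F c false) C := by
    intro i j
    have hd : Disjoint (YC h n s0 i) (PC h n i j) := by
      rw [Finset.disjoint_left]
      intro x hx hx'
      obtain ⟨l, rfl⟩ := mem_YC.mp hx
      obtain ⟨l', hl'⟩ := mem_PC.mp hx'
      cases i with
      | none => simp [mainC] at hl'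
      | some i =>
        simp only [mainC] at hl'
        split_ifs at hl'
    obtain ⟨⟨R, C, h1, h2, h3, h4, h5, h6⟩, -⟩ := hS n (h + 1) T κ hκ hA (VC h n) F c hc hno
      (YC h n s0 i ∪ PC h n i j) (fun t => .z i j t) (fun t t' ht => by simpa using ht)
      (by rw [Finset.card_union_of_disjoint hd, card_YC, card_PC]; omega)
      (by
        intro y hy t
        exact adj_low i j t y (Finset.mem_union.mp hy))
    exact ⟨R, C, by omega, by omega, h3, fun x => by rw [h4 x, Finset.mem_union], h5, h6⟩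
  have hpure : ∀ i, Full (cls F c true) (YC h n s0 i) ∨ Full (cls F c false) (YC h n s0 i) := by
    intro i
    refine pure_set (hrule true) (hrule false) hs2 (YC h n s0 i) (PC h n i) (card_YC h n s0 i)
      ?_ (hsplit i)
    intro j j' hj
    rw [Finset.disjoint_left]
    intro x hx hx'
    obtain ⟨l, rfl⟩ := mem_PC.mp hx
    obtain ⟨l', hl'⟩ := mem_PC.mp hx'
    simp only [VC.p.injEq, true_and] at hl'
    exact hj hl'.1.symm
  have hWt := card_WC_true (h := h) (n := n) (s := s0) (by omega)
  have hWf := card_WC_false (h := h) (n := n) (s := s0) hs2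
  have hW : ∀ i, s0 ≤ (WC h n s0 i).card := by
    intro i
    cases i
    · exact hWf
    · exact hWt
  have hnot : ∀ (b : Bool) (i : Bool), Full (cls F c b) (YC h n s0 none) →
      Full (cls F c b) (YC h n s0 (some i)) → False := by
    intro b i h1 h2
    obtain ⟨x, hx, hx'⟩ := exists_w (h := h) (n := n) (s := s0) i (by have := hW (!i); omega)
    exact rule_two (hrule b) (card_YC h n s0 none) h1 h2 (WC_sub_Y0 i) (WC_sub_YC i) (hW i) x hx hx'
  -- the key claim for both colours
  have main : ∀ (b : Bool), Full (cls F c (!b)) (YC h n s0 none) →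
      (∀ i, Full (cls F c b) (YC h n s0 (some i))) → False := by
    intro b hb1 hb2
    have hall : ∀ x x' : Fin n, x ≠ x' → (cls F c b).Adj (.q x) (.q x') := by
      intro x x' hx
      have hadj := adj_qq (h := h) (n := n) (s := s0) x x' hx
      by_contra hcon
      have hblue : (cls F c (!b)).Adj (.q x) (.q x') := by
        refine ⟨hadj, ?_, ?_⟩
        · cases hcc : c (.q x) (.q x') <;> cases b
          · exact absurd ⟨hadj, hcc, by rw [hc]; exact hcc⟩ hcon
          · rfl
          · rfl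
          · exact absurd ⟨hadj, hcc, by rw [hc]; exact hcc⟩ hcon
        · cases hcc : c (.q x') (.q x) <;> cases b
          · exact absurd ⟨hadj, by rw [hc]; exact hcc, hcc⟩ hcon
          · rfl
          · rfl
          · exact absurd ⟨hadj, by rw [hc]; exact hcc, hcc⟩ hcon
      refine no_blue (hrule b) (hrule (!b)) hs3 (YC h n s0 none) (WC h n s0)
        (fun i => YC h n s0 (some i)) (card_YC h n s0 none) (fun i => card_YC h n s0 (some i))
        mem_Y0_iff hW WC_sub_YC WC_notMem hb1 hb2 (.q x) (.q x') ?_ ?_ ?_ hblue ?_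
      · rw [mem_YC]
        rintro ⟨l, hl⟩
        simp [mainC] at hl
      · intro i
        rw [mem_YC]
        rintro ⟨l, hl⟩
        simp only [mainC] at hl
        split_ifs at hl
      · rw [mem_YC]
        rintro ⟨l, hl⟩
        simp [mainC] at hl
      · intro y hy
        obtain ⟨l, rfl⟩ := mem_YC.mp hy
        have hadj2 := adj_q (h := h) (n := n) (s := s0) l x
        show (cls F c b).Adj (.q x) (.y l) ∨ (cls F c (!b)).Adj (.q x) (.y l)
        cases hcc : c (.q x) (.y l) <;> cases b
        · exact Or.inl ⟨hadj2, hcc, by rw [hc]; exact hcc⟩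
        · exact Or.inr ⟨hadj2, hcc, by rw [hc]; exact hcc⟩
        · exact Or.inr ⟨hadj2, hcc, by rw [hc]; exact hcc⟩
        · exact Or.inl ⟨hadj2, hcc, by rw [hc]; exact hcc⟩
    refine hno b ⟨fun i => .q i, fun i j hij => by simpa using hij, ?_⟩
    intro i j hij
    exact hall i j hij.ne
  rcases hpure none with h1 | h1
  · -- `Y_0` red-full
    refine main false h1 (fun i => ?_)
    rcases hpure (some i) with h2 | h2
    · exact absurd h2 (fun h2 => hnot true i h1 h2)
    · exact h2
  · refine main true h1 (fun i => ?_)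
    rcases hpure (some i) with h2 | h2
    · exact h2
    · exact absurd h2 (fun h2 => hnot false i h1 h2)

end MP3240T
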