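import Pool.Agent.Lib.MP_3240be_co.H51.CC

/-!
# The combinatorial core of the host `FC`
-/

set_option autoImplicit false

namespace MP3240T

open Finset

/-- The local rule as a property of one colour. -/
def Rule {V : Type} (G : SimpleGraph V) (h s0 : ℕ) : Prop :=
  ∀ R : Finset V, R.card = h → Full G R → ∀ x x' : V, x ∉ R → x' ∉ R → G.Adj x x' →
    ∀ S0 : Finset V, S0 ⊆ R → s0 ≤ S0.card → (∀ y ∈ S0, G.Adj x y) → False

/-- A common neighbour outside a finite set. -/
theorem Full.exists_notMem {V : Type} {G : SimpleGraph V} {R : Finset V} (hR : Full G R)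
    (S : Finset V) : ∃ z, z ∉ S ∧ ∀ y ∈ R, G.Adj z y := by
  obtain ⟨z, hz, hzS⟩ := hR.exists_notMem_finset S
  exact ⟨z, hzS, fun y hy => (hz y hy).symm⟩

/-- Two full sets of the same colour with large intersection: the second is contained in the first. -/
theorem rule_two {V : Type} {G : SimpleGraph V} {h s0 : ℕ} (hr : Rule G h s0) {R R' X : Finset V}
    (hRc : R.card = h) (hR : Full G R) (hR' : Full G R') (hX : X ⊆ R) (hX' : X ⊆ R')
    (hXc : s0 ≤ X.card) (x' : V) (h1 : x' ∈ R') (h2 : x' ∉ R) : False := by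
  obtain ⟨z, hz, hz'⟩ := hR'.exists_notMem R
  exact hr R hRc hR z x' hz h2 (hz' x' h1) X hX hXc (fun y hy => hz' y (hX' hy))

/-- (C3): every main set is full in one of the colours. -/
theorem pure_set {V : Type} {Gr Gb : SimpleGraph V} {h s0 : ℕ} (hr : Rule Gr h s0)
    (hb : Rule Gb h s0) (hs : 2 * s0 ≤ h) (Y : Finset V) (P : ℕ → Finset V)
    (hY : Y.card = h) (hPP : ∀ j j', j ≠ j' → Disjoint (P j) (P j'))
    (hsp : ∀ j, ∃ R C : Finset V, R.card = h ∧ C.card = h ∧ Disjoint R C ∧
      (∀ x, x ∈ R ∨ x ∈ C ↔ x ∈ Y ∨ x ∈ P j) ∧ Full Gr R ∧ Full Gb C) :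
    Full Gr Y ∨ Full Gb Y := by
  classical
  by_contra hcon
  push Not at hcon
  choose R C hRc hCc hRC hU hRf hCf using hsp
  -- neither R j nor C j is contained in Y
  have hRY : ∀ j, ∃ x ∈ R j, x ∉ Y := by
    intro j
    by_contra h1
    push Not at h1
    have : R j = Y := Finset.eq_of_subset_of_card_le h1 (by rw [hRc, hY])
    exact hcon.1 (this ▸ hRf j)
  have hCY : ∀ j, ∃ x ∈ C j, x ∉ Y := by
    intro j
    by_contra h1
    push Not at h1
    have : C j = Y := Finset.eq_of_subset_of_card_le h1 (by rw [hCc, hY])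
    exact hcon.2 (this ▸ hCf j)
  let X : ℕ → Y.powerset := fun j => ⟨R j ∩ Y, Finset.mem_powerset.mpr Finset.inter_subset_right⟩
  obtain ⟨j, j', hjj, hXX⟩ := Finite.exists_ne_map_eq_of_infinite X
  have hX : R j ∩ Y = R j' ∩ Y := by simpa [X] using hXX
  have hCX : C j ∩ Y = C j' ∩ Y := by
    ext x
    simp only [Finset.mem_inter]
    have h1 := hU j x
    have h2 := hU j' x
    have h3 : x ∈ R j ∧ x ∈ Y ↔ x ∈ R j' ∧ x ∈ Y := by
      rw [← Finset.mem_inter, hX, Finset.mem_inter]
    have h4 : x ∈ R j → x ∉ C j := fun h => Finset.disjoint_left.mp (hRC j) h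
    have h5 : x ∈ R j' → x ∉ C j' := fun h => Finset.disjoint_left.mp (hRC j') h
    tauto
  have hcard : h ≤ (R j ∩ Y).card + (C j ∩ Y).card := by
    rw [← hY, ← Finset.card_union_of_disjoint
      (Finset.disjoint_of_subset_left Finset.inter_subset_left
        (Finset.disjoint_of_subset_right Finset.inter_subset_left (hRC j)))]
    refine Finset.card_le_card ?_
    intro x hx
    have := (hU j x).mpr (Or.inl hx)
    rw [Finset.mem_union, Finset.mem_inter, Finset.mem_inter]
    tauto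
  have key : ∀ (D : ℕ → Finset V), (∀ i x, x ∈ D i → x ∈ Y ∨ x ∈ P i) →
      (∀ i, ∃ x ∈ D i, x ∉ Y) → ∃ x ∈ D j', x ∉ D j := by
    intro D hD hDY
    obtain ⟨x, hx, hxY⟩ := hDY j'
    refine ⟨x, hx, fun hx' => ?_⟩
    have h1 := (hD j' x hx).resolve_left hxY
    have h2 := (hD j x hx').resolve_left hxY
    exact Finset.disjoint_left.mp (hPP j j' hjj) h2 h1
  rcases (by omega : s0 ≤ (R j ∩ Y).card ∨ s0 ≤ (C j ∩ Y).card) with h1 | h1
  · obtain ⟨x, hx, hx'⟩ := key R (fun i x hx => (hU i x).mp (Or.inl hx)) hRY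
    exact rule_two hr (hRc j) (hRf j) (hRf j') Finset.inter_subset_left
      (by rw [hX]; exact Finset.inter_subset_left) h1 x hx hx'
  · obtain ⟨x, hx, hx'⟩ := key C (fun i x hx => (hU i x).mp (Or.inr hx)) hCY
    exact rule_two hb (hCc j) (hCf j) (hCf j') Finset.inter_subset_left
      (by rw [hCX]; exact Finset.inter_subset_left) h1 x hx hx'

/-- (C6): no blue edge `q q'` at a vertex `q` joined to `Y_0`. -/
theorem no_blue {V : Type} {Gr Gb : SimpleGraph V} {h s0 : ℕ} (hr : Rule Gr h s0)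
    (hb : Rule Gb h s0) (hs3 : 3 * s0 ≤ h + 2) (Y : Finset V)
    (W : Bool → Finset V) (Y' : Bool → Finset V) (hY : Y.card = h) (hY' : ∀ i, (Y' i).card = h)
    (hWY : ∀ x, x ∈ Y ↔ x ∈ W true ∨ x ∈ W false)
    (hWc : ∀ i, s0 ≤ (W i).card) (hWY' : ∀ i, W i ⊆ Y' i)
    (hWn : ∀ i, ∀ x ∈ W (!i), x ∉ Y' i) (hYf : Full Gb Y) (hY'f : ∀ i, Full Gr (Y' i))
    (q q' : V) (hq : q ∉ Y) (hqY' : ∀ i, q ∉ Y' i) (hq' : q' ∉ Y) (hqq : Gb.Adj q q')
    (hqY : ∀ y ∈ Y, Gr.Adj q y ∨ Gb.Adj q y) : False := by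
  classical
  let B : Finset V := Y.filter (fun y => Gb.Adj q y)
  have hB : B.card < s0 := by
    by_contra h1
    exact hb Y hY hYf q q' hq hq' hqq B (Finset.filter_subset _ _) (not_lt.mp h1)
      (fun y hy => (Finset.mem_filter.mp hy).2)
  let A : Bool → Finset V := fun i => (W i).filter (fun y => Gr.Adj q y)
  have hAW : ∀ i, (W i).card ≤ (A i).card + B.card := by
    intro i
    refine le_trans ?_ (Finset.card_union_le _ _)
    refine Finset.card_le_card ?_
    intro x hx
    have hxY : x ∈ Y := by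
      rw [hWY]
      cases i
      · exact Or.inr hx
      · exact Or.inl hx
    rw [Finset.mem_union, Finset.mem_filter, Finset.mem_filter]
    rcases hqY x hxY with h1 | h1
    · exact Or.inl ⟨hx, h1⟩
    · exact Or.inr ⟨hxY, h1⟩
  have hsum : h ≤ (A true).card + (A false).card + B.card := by
    rw [← hY]
    have : Y ⊆ A true ∪ A false ∪ B := by
      intro x hx
      rw [Finset.mem_union, Finset.mem_union, Finset.mem_filter, Finset.mem_filter,
        Finset.mem_filter]
      rcases hqY x hx with h1 | h1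
      · rcases (hWY x).mp hx with h2 | h2
        · exact Or.inl (Or.inl ⟨h2, h1⟩)
        · exact Or.inl (Or.inr ⟨h2, h1⟩)
      · exact Or.inr ⟨hx, h1⟩
    refine le_trans (Finset.card_le_card this) ?_
    refine le_trans (Finset.card_union_le _ _) ?_
    have := Finset.card_union_le (A true) (A false)
    omega
  have key : ∀ i, s0 ≤ (A i).card → False := by
    intro i hi
    have h1 : 0 < (A (!i)).card := by
      have h2 := hAW (!i)
      have h3 := hWc (!i)
      omega
    obtain ⟨x', hx'⟩ := Finset.card_pos.mp h1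
    have hx'2 := Finset.mem_filter.mp hx'
    exact hr (Y' i) (hY' i) (hY'f i) q x' (hqY' i) (hWn i x' hx'2.1) hx'2.2 (A i)
      (fun y hy => hWY' i (Finset.mem_filter.mp hy).1) hi
      (fun y hy => (Finset.mem_filter.mp hy).2)
  rcases (by omega : s0 ≤ (A true).card ∨ s0 ≤ (A false).card) with h1 | h1
  · exact key true h1
  · exact key false h1

end MP3240T
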