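import Pool.Agent.Lib.MP_3240be_co.H51.DCore

/-!
# The host `FC` is Ramsey for sparse `T`
-/

set_option autoImplicit false

namespace MP3240T

open Finset

theorem card_WC_true_eq {h n s : ℕ} (hs : s ≤ h) : (WC h n s true).card = s := by
  classical
  refine le_antisymm ?_ (card_WC_true hs)
  rw [WC, Finset.card_image_of_injective _ (fun l l' hl => by simpa using hl)]
  have h1 : univ.filter (fun l : Fin h => decide (l.val < s) = true) ⊆
      (univ.image (fun l : Fin s => Fin.castLE hs l)) := by
    intro x hx
    have h2 : x.val < s := by simpa using hx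
    exact Finset.mem_image.mpr ⟨⟨x.val, h2⟩, Finset.mem_univ _, rfl⟩
  refine le_trans (Finset.card_le_card h1) (le_trans Finset.card_image_le ?_)
  simp

theorem pos_WC_false {h n s : ℕ} (hs : s < h) : 0 < (WC h n s false).card := by
  rw [Finset.card_pos]
  refine ⟨.y ⟨s, hs⟩, ?_⟩
  rw [mem_WC]
  exact ⟨⟨s, hs⟩, by simp, rfl⟩

/-- The host is Ramsey for `T`. -/
theorem arrD (hE : ExtStatement) (hS : SplStatement) {n h D : ℕ} (T : SimpleGraph (Fin n))
    (κ : Fin n → Bool) (hκ : ∀ i j, T.Adj i j → κ i ≠ κ j) (hA : (clA κ).card = h + 1)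
    (a0 : Fin n) (ha0 : κ a0 = true) (hd : 1 ≤ (nb T a0).card) (ht : 1 ≤ (n2 T a0).card)
    (hth : 2 * (n2 T a0).card ≤ h) (hD : ∀ x, (nb T x).card ≤ D)
    (hn : 2 * (D * (3 * ((2 * (n2 T a0).card - 1).choose (n2 T a0).card *
      ((nb T a0).card - 1)))) < n) :
    Arr (FC h n (2 * (n2 T a0).card - 1)) T := by
  classical
  intro c hc
  by_contra hno
  push Not at hno
  set t := (n2 T a0).card with htdef
  set d := (nb T a0).card with hddef
  set s := 2 * t - 1 with hsdef
  set M := s.choose t * (d - 1) with hMdef
  set F := FC h n s with hF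
  have hrule : ∀ b, Rule2 (cls F c b) h d t := by
    intro b R hR hRf x' X S0 hx' hX hXc hXx hS0 hS0c hXS
    exact hno b (hubrule hE T κ hκ hA a0 ha0 (cls F c b) R (by omega) hRf x' hx' X S0 hX hXc hXx
      hS0 hS0c hXS)
  have hsplit : ∀ (i : Option Bool) (j : ℕ), ∃ R C : Finset (VC h n), R.card = h ∧ C.card = h ∧
      Disjoint R C ∧ (∀ x, x ∈ R ∨ x ∈ C ↔ x ∈ YC h n s i ∨ x ∈ PC h n i j) ∧
      Full (cls F c true) R ∧ Full (cls F c false) C := by
    intro i j
    have hd : Disjoint (YC h n s i) (PC h n i j) := by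
      rw [Finset.disjoint_left]
      intro x hx hx'
      obtain ⟨l, rfl⟩ := mem_YC.mp hx
      obtain ⟨l', hl'⟩ := mem_PC.mp hx'
      cases i with
      | none => simp [mainC] at hl'
      | some i =>
        simp only [mainC] at hl'
        split_ifs at hl'
    obtain ⟨⟨R, C, h1, h2, h3, h4, h5, h6⟩, -⟩ := hS n (h + 1) T κ hκ hA (VC h n) F c hc hno
      (YC h n s i ∪ PC h n i j) (fun t => .z i j t) (fun t t' ht => by simpa using ht)
      (by rw [Finset.card_union_of_disjoint hd, card_YC, card_PC]; omega)
      (by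
        intro y hy t
        exact adj_low i j t y (Finset.mem_union.mp hy))
    exact ⟨R, C, by omega, by omega, h3, fun x => by rw [h4 x, Finset.mem_union], h5, h6⟩
  have hpure : ∀ i, Full (cls F c true) (YC h n s i) ∨ Full (cls F c false) (YC h n s i) := by
    intro i
    refine pure_set2 (hrule true) (hrule false) (by omega) (YC h n s i) (PC h n i)
      (card_YC h n s i) ?_ (hsplit i)
    intro j j' hj
    rw [Finset.disjoint_left]
    intro x hx hx'
    obtain ⟨l, rfl⟩ := mem_PC.mp hx
    obtain ⟨l', hl'⟩ := mem_PC.mp hx'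
    simp only [VC.p.injEq, true_and] at hl'
    exact hj hl'.1.symm
  have hWt : (WC h n s true).card = s := card_WC_true_eq (by omega)
  have hWf := pos_WC_false (h := h) (n := n) (s := s) (by omega)
  have hnot : ∀ (b : Bool), Full (cls F c b) (YC h n s none) →
      Full (cls F c b) (YC h n s (some true)) → False := by
    intro b h1 h2
    obtain ⟨x, hx, hx'⟩ := exists_w (h := h) (n := n) (s := s) true hWf
    exact rule2_two (hrule b) (card_YC h n s none) h1 h2 (WC_sub_Y0 true) (WC_sub_YC true)
      (by rw [hWt]; omega) x hx hx'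
  -- colours
  have hadj2 : ∀ (b : Bool) (u v : VC h n), F.Adj u v → (cls F c b).Adj u v ∨
      (cls F c (!b)).Adj u v := by
    intro b u v huv
    cases hcc : c u v <;> cases b
    · exact Or.inl ⟨huv, hcc, by rw [hc]; exact hcc⟩
    · exact Or.inr ⟨huv, hcc, by rw [hc]; exact hcc⟩
    · exact Or.inr ⟨huv, hcc, by rw [hc]; exact hcc⟩
    · exact Or.inl ⟨huv, hcc, by rw [hc]; exact hcc⟩
  -- packing in a block with one sparse colour
  have hfin : ∀ b : Bool, (∀ x : Fin n, ∀ S : Finset (Fin n),
      (∀ y ∈ S, (cls F c (!b)).Adj (.q x) (.q y)) → S.card ≤ 3 * M) → False := by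
    intro b hb
    obtain ⟨σ, hσ⟩ := pack (fun i j => T.Adj i j)
      (fun i j => (cls F c (!b)).Adj (.q i) (.q j)) (fun i j h => h.symm)
      (fun i h => T.loopless.irrefl i h) (fun i j h => h.symm) (3 * M) D
      (by
        intro i S hS
        refine le_trans (Finset.card_le_card ?_) (hD i)
        intro j hj
        simpa [nb] using hS j hj) hb hn
    refine hno b ⟨fun i => .q (σ i), fun i j hij => ?_, ?_⟩
    · have : σ i = σ j := by simpa using hij
      exact σ.injective this
    · intro i j hij
      have hne : σ i ≠ σ j := fun h => hij.ne (σ.injective h)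
      rcases hadj2 b _ _ (adj_qq (h := h) (n := n) (s := s) (σ i) (σ j) hne) with h1 | h1
      · exact h1
      · exact absurd h1 (hσ i j hij)
  have main : ∀ (b : Bool), Full (cls F c (!b)) (YC h n s none) →
      Full (cls F c b) (YC h n s (some true)) → False := by
    intro b hb1 hb2
    -- `b` = red, `!b` = blue
    have hq0 : ∀ i (x : Fin n), (VC.q x : VC h n) ∉ YC h n s i := by
      intro i x
      rw [mem_YC]
      rintro ⟨l, hl⟩
      cases i with
      | none => simp [mainC] at hl
      | some i =>
        simp only [mainC] at hl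
        split_ifs at hl
    let C : Fin n → Prop := fun x => ∃ S ⊆ WC h n s true, S.card = t ∧
      ∀ y ∈ S, (cls F c (!b)).Adj (.q x) y
    have hCnot : ∀ x, ¬ C x → ∃ S ⊆ WC h n s true, S.card = t ∧
        ∀ y ∈ S, (cls F c b).Adj (.q x) y := by
      intro x hx
      let S1 := (WC h n s true).filter (fun y => (cls F c (!b)).Adj (.q x) y)
      let S2 := (WC h n s true).filter (fun y => (cls F c b).Adj (.q x) y)
      have h1 : S1.card < t := by
        by_contra hcon
        obtain ⟨S, hS, hSc⟩ := Finset.exists_subset_card_eq (not_lt.mp hcon)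
        exact hx ⟨S, hS.trans (Finset.filter_subset _ _), hSc,
          fun y hy => (Finset.mem_filter.mp (hS hy)).2⟩
      have h2 : (WC h n s true).card ≤ S1.card + S2.card := by
        refine le_trans (Finset.card_le_card ?_) (Finset.card_union_le _ _)
        intro y hy
        obtain ⟨l, -, rfl⟩ := mem_WC.mp hy
        rw [Finset.mem_union, Finset.mem_filter, Finset.mem_filter]
        rcases hadj2 b _ _ (adj_q (h := h) (n := n) (s := s) l x) with h3 | h3
        · exact Or.inr ⟨hy, h3⟩
        · exact Or.inl ⟨hy, h3⟩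
      have h3 : t ≤ S2.card := by omega
      obtain ⟨S, hS, hSc⟩ := Finset.exists_subset_card_eq h3
      exact ⟨S, hS.trans (Finset.filter_subset _ _), hSc,
        fun y hy => (Finset.mem_filter.mp (hS hy)).2⟩
    have hqinj : Function.Injective (VC.q : Fin n → VC h n) := fun x y h => by simpa using h
    have hbound : ∀ (b' : Bool) (i : Option Bool) (P : Fin n → Prop),
        Full (cls F c b') (YC h n s i) → WC h n s true ⊆ YC h n s i →
        (∀ x, P x → ∃ S ⊆ WC h n s true, S.card = t ∧ ∀ y ∈ S, (cls F c b').Adj (.q x) y) →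
        ∀ x : Fin n, ∀ S : Finset (Fin n), (∀ y ∈ S, (cls F c b').Adj (.q x) (.q y) ∧ P y) →
          S.card ≤ M := by
      intro b' i P hf hW hP x S hS
      have h1 := deg_bound (hd) (hrule b') (card_YC h n s i) hf hW (.q x) (hq0 i x)
        (S.image VC.q) (by
          intro y hy
          obtain ⟨z, -, rfl⟩ := Finset.mem_image.mp hy
          exact hq0 i z) (by
          intro y hy
          obtain ⟨z, hz, rfl⟩ := Finset.mem_image.mp hy
          exact (hS z hz).1) (by
          intro y hy
          obtain ⟨z, hz, rfl⟩ := Finset.mem_image.mp hy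
          exact hP z (hS z hz).2)
      rw [Finset.card_image_of_injective _ hqinj, hWt] at h1
      exact h1
    rcases block_deg (M := M) (fun x y => (cls F c b).Adj (.q x) (.q y))
      (fun x y => (cls F c (!b)).Adj (.q x) (.q y)) C
      (fun x y hxy => hadj2 b _ _ (adj_qq (h := h) (n := n) (s := s) x y hxy))
      (fun x y h => h.symm)
      (hbound (!b) none C hb1 (WC_sub_Y0 true) (fun x hx => hx))
      (hbound b (some true) (fun x => ¬ C x) hb2 (WC_sub_YC true) hCnot) with h1 | h1
    · exact hfin b h1
    · refine hfin (!b) ?_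
      simpa using h1
  rcases hpure none with h1 | h1
  · rcases hpure (some true) with h2 | h2
    · exact hnot true h1 h2
    · exact main false h1 h2
  · rcases hpure (some true) with h2 | h2
    · exact main true h1 h2
    · exact hnot false h1 h2

end MP3240T
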