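import Pool.Agent.Lib.MP_3240be_co.H51.Defs

/-!
# The hub rule for a vertex `a0` of `A`
-/

set_option autoImplicit false

namespace MP3240T

open Finset

/-- the vertices at distance two from `x` (in a bipartite graph) -/
noncomputable def n2 {n : ℕ} (T : SimpleGraph (Fin n)) (x : Fin n) : Finset (Fin n) := by
  classical exact univ.filter (fun y => y ≠ x ∧ ∃ b, T.Adj x b ∧ T.Adj b y)

/-- Hub rule: `R` full with `a - 1` elements, `x' ∉ R` has `deg a0` neighbours outside `R` that have
at least `|n2 a0|` common neighbours in `R`. -/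
theorem hubrule (hE : ExtStatement) {n a : ℕ} (T : SimpleGraph (Fin n)) (κ : Fin n → Bool)
    (hκ : ∀ i j, T.Adj i j → κ i ≠ κ j) (hA : (clA κ).card = a) (a0 : Fin n)
    (ha0 : κ a0 = true)
    {V : Type} (G : SimpleGraph V) (R : Finset V) (hR : R.card + 1 = a) (hF : Full G R)
    (x' : V) (hx' : x' ∉ R) (X S0 : Finset V) (hX : ∀ x ∈ X, x ∉ R)
    (hXc : (nb T a0).card ≤ X.card) (hXx : ∀ x ∈ X, G.Adj x' x) (hS0 : S0 ⊆ R)
    (hS : (n2 T a0).card ≤ S0.card) (hXS : ∀ x ∈ X, ∀ y ∈ S0, G.Adj x y) : Emb T G := by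
  classical
  have hnb : ∀ y, y ∈ nb T a0 ↔ T.Adj a0 y := by
    intro y
    simp [nb]
  have hn2 : ∀ y, y ∈ n2 T a0 ↔ y ≠ a0 ∧ ∃ b, T.Adj a0 b ∧ T.Adj b y := by
    intro y
    simp [n2]
  have hf : ∀ i j, T.Adj i j → κ i = true → κ j = false := by
    intro i j hij hi
    cases hj : κ j
    · rfl
    · exact absurd (hi.trans hj.symm) (hκ i j hij)
  have ht : ∀ i j, T.Adj i j → κ i = false → κ j = true := by
    intro i j hij hi
    cases hj : κ j
    · exact absurd (hi.trans hj.symm) (hκ i j hij)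
    · rfl
  have hnbB : ∀ y ∈ nb T a0, κ y = false := fun y hy => hf a0 y ((hnb y).mp hy) ha0
  have hn2A : ∀ y ∈ n2 T a0, κ y = true := by
    intro y hy
    obtain ⟨-, b, h1, h2⟩ := (hn2 y).mp hy
    exact ht b y h2 (hf a0 b h1 ha0)
  obtain ⟨X1, hX1, hX1c⟩ := Finset.exists_subset_card_eq hXc
  obtain ⟨S1, hS1, hS1c⟩ := Finset.exists_subset_card_eq hS
  have hN2A : n2 T a0 ⊆ (clA κ).erase a0 := by
    intro y hy
    rw [Finset.mem_erase]
    exact ⟨((hn2 y).mp hy).1, by simp [clA, hn2A y hy]⟩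
  have hAc : ((clA κ).erase a0).card = R.card := by
    rw [Finset.card_erase_of_mem (by simp [clA, ha0])]
    omega
  have hrest : (((clA κ).erase a0) \ n2 T a0).card = (R \ S1).card := by
    rw [Finset.card_sdiff_of_subset hN2A, Finset.card_sdiff_of_subset (hS1.trans hS0), hAc, hS1c]
  let e0 : (nb T a0 : Finset (Fin n)) ≃ X1 := Finset.equivOfCardEq hX1c.symm
  let e1 : (n2 T a0 : Finset (Fin n)) ≃ S1 := Finset.equivOfCardEq hS1c.symm
  let e2 : (((clA κ).erase a0) \ n2 T a0 : Finset (Fin n)) ≃ (R \ S1 : Finset V) :=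
    Finset.equivOfCardEq hrest
  let φ : Fin n → V := fun i =>
    if h0 : i ∈ nb T a0 then (e0 ⟨i, h0⟩ : V)
    else if h1 : i ∈ n2 T a0 then (e1 ⟨i, h1⟩ : V)
    else if h2 : i ∈ ((clA κ).erase a0) \ n2 T a0 then (e2 ⟨i, h2⟩ : V)
    else x'
  have hd : ∀ i, i ∈ nb T a0 → i ∉ clA κ := by
    intro i hi h
    have h1 := hnbB i hi
    simp [clA, h1] at h
  have hφ0 : ∀ i (h : i ∈ nb T a0), φ i = (e0 ⟨i, h⟩ : V) := fun i h => dif_pos h
  have hφ1 : ∀ i (h : i ∈ n2 T a0), φ i = (e1 ⟨i, h⟩ : V) := by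
    intro i h
    have h' : i ∉ nb T a0 := fun h2 => hd i h2 (by simp [clA, hn2A i h])
    simp only [φ]
    rw [dif_neg h', dif_pos h]
  have hφ2 : ∀ i (h : i ∈ ((clA κ).erase a0) \ n2 T a0), φ i = (e2 ⟨i, h⟩ : V) := by
    intro i h
    have h' : i ∉ nb T a0 := fun h2 =>
      hd i h2 (Finset.mem_of_mem_erase (Finset.mem_sdiff.mp h).1)
    simp only [φ]
    rw [dif_neg h', dif_neg (Finset.mem_sdiff.mp h).2, dif_pos h]
  have ha0n : a0 ∉ nb T a0 := fun h => T.loopless.irrefl a0 ((hnb a0).mp h)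
  have ha02 : a0 ∉ n2 T a0 := fun h => ((hn2 a0).mp h).1 rfl
  have hφa : φ a0 = x' := by
    simp only [φ]
    rw [dif_neg ha0n, dif_neg ha02, dif_neg]
    intro h
    exact Finset.notMem_erase _ _ (Finset.mem_sdiff.mp h).1
  have hφ0X : ∀ i (h : i ∈ nb T a0), φ i ∈ X := by
    intro i h
    rw [hφ0 i h]
    exact hX1 (e0 ⟨i, h⟩).2
  have hφ1S : ∀ i (h : i ∈ n2 T a0), φ i ∈ S1 := by
    intro i h
    rw [hφ1 i h]
    exact (e1 ⟨i, h⟩).2
  have hφ2R : ∀ i (h : i ∈ ((clA κ).erase a0) \ n2 T a0), φ i ∈ R \ S1 := by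
    intro i h
    rw [hφ2 i h]
    exact (e2 ⟨i, h⟩).2
  have hmem2 : ∀ i, κ i = true → i ≠ a0 → i ∉ n2 T a0 → i ∈ ((clA κ).erase a0) \ n2 T a0 := by
    intro i hi hia h2
    rw [Finset.mem_sdiff, Finset.mem_erase]
    exact ⟨⟨hia, by simp [clA, hi]⟩, h2⟩
  have hφR : ∀ i, κ i = true → i ≠ a0 → φ i ∈ R := by
    intro i hi hia
    by_cases h1 : i ∈ n2 T a0
    · exact hS0 (hS1 (hφ1S i h1))
    · exact (Finset.mem_sdiff.mp (hφ2R i (hmem2 i hi hia h1))).1
  have hx'X : x' ∉ X := fun h => G.loopless.irrefl x' (hXx x' h)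
  -- W = A ∪ nb a0
  let W : Finset (Fin n) := nb T a0 ∪ clA κ
  have hWcases : ∀ i ∈ W, i ∈ nb T a0 ∨ κ i = true := by
    intro i hi
    rcases Finset.mem_union.mp hi with h | h
    · exact Or.inl h
    · exact Or.inr (by simpa [clA] using h)
  have hWnot : ∀ i, i ∉ W → κ i = false ∧ i ∉ nb T a0 := by
    intro i hi
    refine ⟨?_, fun h => hi (Finset.mem_union_left _ h)⟩
    cases h : κ i
    · rfl
    · exact absurd (Finset.mem_union_right _ (by simp [clA, h])) hi
  refine hE V G n T W φ ?_ ?_ ?_ ?_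
  · have keyA : ∀ i j, κ i = true → κ j = true → φ i = φ j → i = j := by
      intro i j hi hj hij
      by_cases hia : i = a0
      · by_cases hja : j = a0
        · rw [hia, hja]
        · exfalso
          have := hφR j hj hja
          rw [← hij, hia, hφa] at this
          exact hx' this
      · by_cases hja : j = a0
        · exfalso
          have := hφR i hi hia
          rw [hij, hja, hφa] at this
          exact hx' this
        · by_cases h1 : i ∈ n2 T a0
          · by_cases h2 : j ∈ n2 T a0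
            · rw [hφ1 i h1, hφ1 j h2] at hij
              have := e1.injective (Subtype.ext hij)
              simpa using this
            · exfalso
              have h4 := hφ2R j (hmem2 j hj hja h2)
              rw [← hij] at h4
              exact (Finset.mem_sdiff.mp h4).2 (hφ1S i h1)
          · by_cases h2 : j ∈ n2 T a0
            · exfalso
              have h4 := hφ2R i (hmem2 i hi hia h1)
              rw [hij] at h4
              exact (Finset.mem_sdiff.mp h4).2 (hφ1S j h2)
            · rw [hφ2 i (hmem2 i hi hia h1), hφ2 j (hmem2 j hj hja h2)] at hij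
              have := e2.injective (Subtype.ext hij)
              simpa using this
    have keyN : ∀ i j, i ∈ nb T a0 → κ j = true → φ i ≠ φ j := by
      intro i j hi hj hij
      have h1 := hφ0X i hi
      by_cases hja : j = a0
      · rw [hij, hja, hφa] at h1
        exact hx'X h1
      · have h2 := hφR j hj hja
        rw [← hij] at h2
        exact hX _ h1 h2
    intro i hi j hj hij
    rcases hWcases i hi with h1 | h1 <;> rcases hWcases j hj with h2 | h2
    · rw [hφ0 i h1, hφ0 j h2] at hij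
      have := e0.injective (Subtype.ext hij)
      simpa using this
    · exact absurd hij (keyN i j h1 h2)
    · exact absurd hij.symm (keyN j i h2 h1)
    · exact keyA i j h1 h2 hij
  · have hb : ∀ i j, i ∈ nb T a0 → T.Adj i j → G.Adj (φ i) (φ j) := by
      intro i j hi hij
      have h1 := hφ0X i hi
      by_cases hja : j = a0
      · rw [hja, hφa]
        exact (hXx _ h1).symm
      · have h2 : j ∈ n2 T a0 := (hn2 j).mpr ⟨hja, i, (hnb i).mp hi, hij⟩
        exact hXS _ h1 _ (hS1 (hφ1S j h2))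
    intro i hi j hj hij
    rcases hWcases i hi with h1 | h1
    · exact hb i j h1 hij
    · rcases hWcases j hj with h2 | h2
      · exact (hb j i h2 hij.symm).symm
      · exact absurd (h1.trans h2.symm) (hκ i j hij)
  · intro i hi j hj hij
    exact hκ i j hij ((hWnot i hi).1.trans (hWnot j hj).1.symm)
  · intro u hu
    refine hF.mono ?_
    intro z hz i hi hui
    have hi' : κ i = true := ht u i hui (hWnot u hu).1
    have hia : i ≠ a0 := by
      intro h
      rw [h] at hui
      exact (hWnot u hu).2 ((hnb u).mpr hui.symm)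
    exact hz _ (hφR i hi' hia)

end MP3240T
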