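import Mathlib

/-!
# Packing two sparse graphs (Sauer and Spencer)
-/

set_option autoImplicit false

namespace MP3240T

open Finset

/-- If `2 Δ(T) Δ(D) < n` then `T` and `D` pack. -/
theorem pack {n : ℕ} (T D : Fin n → Fin n → Prop) (hTs : ∀ i j, T i j → T j i)
    (hTi : ∀ i, ¬ T i i) (hDs : ∀ i j, D i j → D j i) (k d : ℕ)
    (hT : ∀ i, ∀ S : Finset (Fin n), (∀ j ∈ S, T i j) → S.card ≤ d)
    (hD : ∀ i, ∀ S : Finset (Fin n), (∀ j ∈ S, D i j) → S.card ≤ k) (h : 2 * (d * k) < n) :
    ∃ σ : Equiv.Perm (Fin n), ∀ i j, T i j → ¬ D (σ i) (σ j) := by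
  classical
  let C : Equiv.Perm (Fin n) → Finset (Fin n × Fin n) := fun σ =>
    univ.filter (fun p => T p.1 p.2 ∧ D (σ p.1) (σ p.2))
  obtain ⟨σ, hσ⟩ := Finite.exists_min (fun σ => (C σ).card)
  refine ⟨σ, ?_⟩
  intro i j hij hDij
  -- bad vertices
  let B1 : Finset (Fin n) := ((univ.filter (fun l => T i l)).biUnion
    (fun l => univ.filter (fun m => D (σ l) (σ m) ∧ m ≠ i)))
  let B2 : Finset (Fin n) := ((univ.filter (fun l => D (σ i) (σ l))).biUnion
    (fun l => univ.filter (fun m => T l m ∧ m ≠ i)))
  have hDcard : ∀ l, ∀ S : Finset (Fin n), (∀ m ∈ S, D (σ l) (σ m)) → S.card ≤ k := by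
    intro l S hS
    rw [← Finset.card_image_of_injective S σ.injective]
    refine hD (σ l) _ ?_
    intro m hm
    obtain ⟨m', hm', rfl⟩ := Finset.mem_image.mp hm
    exact hS m' hm'
  have hNT : (univ.filter (fun l => T i l)).card ≤ d :=
    hT i _ (fun l hl => (Finset.mem_filter.mp hl).2)
  have hND : (univ.filter (fun l => D (σ i) (σ l))).card ≤ k :=
    hDcard i _ (fun l hl => (Finset.mem_filter.mp hl).2)
  have hB1 : B1.card + 1 ≤ d * k := by
    have hj : j ∈ univ.filter (fun l => T i l) := by simp [hij]
    have h1 : B1 ⊆ ((univ.filter (fun l => T i l)).erase j).biUnion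
        (fun l => univ.filter (fun m => D (σ l) (σ m) ∧ m ≠ i)) ∪
        univ.filter (fun m => D (σ j) (σ m) ∧ m ≠ i) := by
      intro m hm
      obtain ⟨l, hl, hm'⟩ := Finset.mem_biUnion.mp hm
      rw [Finset.mem_union]
      by_cases hlj : l = j
      · right
        rw [← hlj]
        exact hm'
      · left
        exact Finset.mem_biUnion.mpr ⟨l, Finset.mem_erase.mpr ⟨hlj, hl⟩, hm'⟩
    have h2 : (univ.filter (fun m => D (σ j) (σ m) ∧ m ≠ i)).card + 1 ≤ k := by
      have h3 := hDcard j (insert i (univ.filter (fun m => D (σ j) (σ m) ∧ m ≠ i))) (by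
        intro m hm
        rcases Finset.mem_insert.mp hm with rfl | hm
        · exact hDs _ _ hDij
        · exact (Finset.mem_filter.mp hm).2.1)
      rw [Finset.card_insert_of_notMem (by simp)] at h3
      exact h3
    have h4 : (((univ.filter (fun l => T i l)).erase j).biUnion
        (fun l => univ.filter (fun m => D (σ l) (σ m) ∧ m ≠ i))).card ≤
        ((univ.filter (fun l => T i l)).erase j).card * k := by
      refine Finset.card_biUnion_le_card_mul _ _ _ ?_
      intro l _
      exact hDcard l _ (fun m hm => (Finset.mem_filter.mp hm).2.1)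
    rw [Finset.card_erase_of_mem hj] at h4
    have h5 := (Finset.card_le_card h1).trans (Finset.card_union_le _ _)
    have h6 : 1 ≤ (univ.filter (fun l => T i l)).card := Finset.card_pos.mpr ⟨j, hj⟩
    obtain ⟨e, he⟩ : ∃ e, (univ.filter (fun l => T i l)).card = e + 1 :=
      ⟨(univ.filter (fun l => T i l)).card - 1, by omega⟩
    rw [he] at h4 hNT
    have h7 : (e + 1) * k ≤ d * k := Nat.mul_le_mul_right _ hNT
    have h8 : (e + 1 - 1) * k + k = (e + 1) * k := by
      simp only [Nat.add_sub_cancel]
      ring
    omega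
  have hB2 : B2.card + 1 ≤ d * k := by
    have hj : j ∈ univ.filter (fun l => D (σ i) (σ l)) := by simp [hDij]
    have h1 : B2 ⊆ ((univ.filter (fun l => D (σ i) (σ l))).erase j).biUnion
        (fun l => univ.filter (fun m => T l m ∧ m ≠ i)) ∪
        univ.filter (fun m => T j m ∧ m ≠ i) := by
      intro m hm
      obtain ⟨l, hl, hm'⟩ := Finset.mem_biUnion.mp hm
      rw [Finset.mem_union]
      by_cases hlj : l = j
      · right
        rw [← hlj]
        exact hm'
      · left
        exact Finset.mem_biUnion.mpr ⟨l, Finset.mem_erase.mpr ⟨hlj, hl⟩, hm'⟩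
    have h2 : (univ.filter (fun m => T j m ∧ m ≠ i)).card + 1 ≤ d := by
      have h3 := hT j (insert i (univ.filter (fun m => T j m ∧ m ≠ i))) (by
        intro m hm
        rcases Finset.mem_insert.mp hm with rfl | hm
        · exact hTs _ _ hij
        · exact (Finset.mem_filter.mp hm).2.1)
      rw [Finset.card_insert_of_notMem (by simp)] at h3
      exact h3
    have h4 : (((univ.filter (fun l => D (σ i) (σ l))).erase j).biUnion
        (fun l => univ.filter (fun m => T l m ∧ m ≠ i))).card ≤
        ((univ.filter (fun l => D (σ i) (σ l))).erase j).card * d := by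
      refine Finset.card_biUnion_le_card_mul _ _ _ ?_
      intro l _
      exact hT l _ (fun m hm => (Finset.mem_filter.mp hm).2.1)
    rw [Finset.card_erase_of_mem hj] at h4
    have h5 := (Finset.card_le_card h1).trans (Finset.card_union_le _ _)
    have h6 : 1 ≤ (univ.filter (fun l => D (σ i) (σ l))).card := Finset.card_pos.mpr ⟨j, hj⟩
    obtain ⟨e, he⟩ : ∃ e, (univ.filter (fun l => D (σ i) (σ l))).card = e + 1 :=
      ⟨(univ.filter (fun l => D (σ i) (σ l))).card - 1, by omega⟩
    rw [he] at h4 hND
    have h7 : (e + 1) * d ≤ k * d := Nat.mul_le_mul_right _ hND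
    have h8 : (e + 1 - 1) * d + d = (e + 1) * d := by
      simp only [Nat.add_sub_cancel]
      ring
    have h9 : k * d = d * k := Nat.mul_comm _ _
    omega
  -- a good vertex
  obtain ⟨m, hm⟩ : ∃ m, m ∉ insert i (insert j (B1 ∪ B2)) := by
    by_contra hcon
    push Not at hcon
    have h1 : (univ : Finset (Fin n)) ⊆ insert i (insert j (B1 ∪ B2)) := fun m _ => hcon m
    have h2 := Finset.card_le_card h1
    rw [Finset.card_univ, Fintype.card_fin] at h2
    have h3 := Finset.card_insert_le i (insert j (B1 ∪ B2))
    have h4 := Finset.card_insert_le j (B1 ∪ B2)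
    have h5 := Finset.card_union_le B1 B2
    omega
  simp only [Finset.mem_insert, Finset.mem_union, not_or] at hm
  obtain ⟨hmi, hmj, hm1, hm2⟩ := hm
  have hb1 : ∀ l, T i l → ¬ D (σ l) (σ m) := by
    intro l hl hD'
    exact hm1 (Finset.mem_biUnion.mpr ⟨l, by simp [hl], by simp [hD', hmi]⟩)
  have hb2 : ∀ l, D (σ i) (σ l) → ¬ T l m := by
    intro l hl hT'
    exact hm2 (Finset.mem_biUnion.mpr ⟨l, by simp [hl], by simp [hT', hmi]⟩)
  set τ : Equiv.Perm (Fin n) := Equiv.swap i m with hτ
  have hji : j ≠ i := fun h => hTi i (by rw [h] at hij; exact hij)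
  have hlt : (C (τ.trans σ)).card < (C σ).card := by
    refine Finset.card_lt_card ?_
    rw [Finset.ssubset_iff_of_subset]
    · refine ⟨(i, j), by simp [C, hij, hDij], ?_⟩
      simp only [C, Finset.mem_filter, Finset.mem_univ, true_and, not_and]
      intro _
      have e1 : (τ.trans σ) i = σ m := by simp [hτ]
      have e2 : (τ.trans σ) j = σ j := by
        simp [hτ, Equiv.swap_apply_of_ne_of_ne hji (Ne.symm hmj)]
      rw [e1, e2]
      exact fun h' => hb1 j hij (hDs _ _ h')
    · rintro ⟨x, y⟩ hxy
      simp only [C, Finset.mem_filter, Finset.mem_univ, true_and] at hxy ⊢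
      obtain ⟨h1, h2⟩ := hxy
      refine ⟨h1, ?_⟩
      have ei : (τ.trans σ) i = σ m := by simp [hτ]
      have em : (τ.trans σ) m = σ i := by simp [hτ]
      have eo : ∀ z, z ≠ i → z ≠ m → (τ.trans σ) z = σ z := by
        intro z hz hz'
        simp [hτ, Equiv.swap_apply_of_ne_of_ne hz hz']
      by_cases hxi : x = i
      · subst hxi
        by_cases hym : y = m
        · subst hym
          rw [ei, em] at h2
          exact hDs _ _ h2
        · by_cases hyi : y = x
          · subst hyi
            exact absurd h1 (hTi _)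
          · rw [ei, eo y hyi hym] at h2
            exact absurd (hDs _ _ h2) (hb1 y h1)
      · by_cases hxm : x = m
        · subst hxm
          by_cases hyi : y = i
          · subst hyi
            rw [ei, em] at h2
            exact hDs _ _ h2
          · by_cases hym : y = x
            · subst hym
              exact absurd h1 (hTi _)
            · rw [em, eo y hyi hym] at h2
              exact absurd (hTs _ _ h1) (hb2 y h2)
        · by_cases hyi : y = i
          · subst hyi
            rw [ei, eo x hxi hxm] at h2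
            exact absurd h2 (hb1 x (hTs _ _ h1))
          · by_cases hym : y = m
            · subst hym
              rw [em, eo x hxi hxm] at h2
              exact absurd h1 (hb2 x (hDs _ _ h2))
            · rw [eo x hxi hxm, eo y hyi hym] at h2
              exact h2
  exact absurd (hσ (τ.trans σ)) (not_le.mpr hlt)

end MP3240T
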