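import Pool.Agent.Lib.MP_3240be_co.H51.CCarr
import Pool.Agent.Lib.MP_3240be_co.H51.DRule
import Pool.Agent.Lib.MP_3240be_co.H51.Pack

/-!
# The combinatorial core for sparse graphs
-/

set_option autoImplicit false

namespace MP3240T

open Finset

/-- The hub rule as a property of one colour. -/
def Rule2 {V : Type} (G : SimpleGraph V) (h d t : ℕ) : Prop :=
  ∀ R : Finset V, R.card = h → Full G R → ∀ (x' : V) (X S0 : Finset V), x' ∉ R →
    (∀ x ∈ X, x ∉ R) → d ≤ X.card → (∀ x ∈ X, G.Adj x' x) → S0 ⊆ R → t ≤ S0.card →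
    (∀ x ∈ X, ∀ y ∈ S0, G.Adj x y) → False

/-- Two full sets of the same colour with large intersection: the second is contained in the first. -/
theorem rule2_two {V : Type} {G : SimpleGraph V} {h d t : ℕ} (hr : Rule2 G h d t)
    {R R' X : Finset V} (hRc : R.card = h) (hR : Full G R) (hR' : Full G R') (hX : X ⊆ R)
    (hX' : X ⊆ R') (hXc : t ≤ X.card) (x' : V) (h1 : x' ∈ R') (h2 : x' ∉ R) : False := by
  classical
  have hinf : ({z | ∀ y ∈ R', G.Adj y z} \ (R : Set V)).Infinite := hR'.sdiff R.finite_toSet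
  obtain ⟨Z, hZ, hZc⟩ := hinf.exists_subset_card_eq d
  refine hr R hRc hR x' Z X h2 ?_ hZc.ge ?_ hX hXc ?_
  · intro z hz
    exact (hZ hz).2
  · intro z hz
    exact (hZ hz).1 x' h1
  · intro z hz y hy
    exact ((hZ hz).1 y (hX' hy)).symm

/-- Every main set is full in one of the colours. -/
theorem pure_set2 {V : Type} {Gr Gb : SimpleGraph V} {h d t : ℕ} (hr : Rule2 Gr h d t)
    (hb : Rule2 Gb h d t) (hs : 2 * t ≤ h + 1) (Y : Finset V) (P : ℕ → Finset V)
    (hY : Y.card = h) (hPP : ∀ j j', j ≠ j' → Disjoint (P j) (P j'))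
    (hsp : ∀ j, ∃ R C : Finset V, R.card = h ∧ C.card = h ∧ Disjoint R C ∧
      (∀ x, x ∈ R ∨ x ∈ C ↔ x ∈ Y ∨ x ∈ P j) ∧ Full Gr R ∧ Full Gb C) :
    Full Gr Y ∨ Full Gb Y := by
  classical
  by_contra hcon
  push Not at hcon
  choose R C hRc hCc hRC hU hRf hCf using hsp
  have hRY : ∀ j, ∃ x ∈ R j, x ∉ Y := by
    intro j
    by_contra h1
    push Not at h1
    have : R j = Y := Finset.eq_of_subset_of_card_le h1 (by rw [hRc, hY])
    exact hcon.1 (this ▸ hRf j)
  have hCY : ∀ j, ∃ x ∈ C j, x ∉ Y := by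
    intro j
    by_contra h1
    push Not at h1
    have : C j = Y := Finset.eq_of_subset_of_card_le h1 (by rw [hCc, hY])
    exact hcon.2 (this ▸ hCf j)
  let X : ℕ → Y.powerset := fun j => ⟨R j ∩ Y, Finset.mem_powerset.mpr Finset.inter_subset_right⟩
  obtain ⟨j, j', hjj, hXX⟩ := Finite.exists_ne_map_eq_of_infinite X
  have hX : R j ∩ Y = R j' ∩ Y := by simpa [X] using hXX
  have hCX : C j ∩ Y = C j' ∩ Y := by
    ext x
    simp only [Finset.mem_inter]
    have h1 := hU j x
    have h2 := hU j' x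
    have h3 : x ∈ R j ∧ x ∈ Y ↔ x ∈ R j' ∧ x ∈ Y := by
      rw [← Finset.mem_inter, hX, Finset.mem_inter]
    have h4 : x ∈ R j → x ∉ C j := fun h => Finset.disjoint_left.mp (hRC j) h
    have h5 : x ∈ R j' → x ∉ C j' := fun h => Finset.disjoint_left.mp (hRC j') h
    tauto
  have hcard : h ≤ (R j ∩ Y).card + (C j ∩ Y).card := by
    rw [← hY, ← Finset.card_union_of_disjoint
      (Finset.disjoint_of_subset_left Finset.inter_subset_left
        (Finset.disjoint_of_subset_right Finset.inter_subset_left (hRC j)))]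
    refine Finset.card_le_card ?_
    intro x hx
    have := (hU j x).mpr (Or.inl hx)
    rw [Finset.mem_union, Finset.mem_inter, Finset.mem_inter]
    tauto
  have key : ∀ (D : ℕ → Finset V), (∀ i x, x ∈ D i → x ∈ Y ∨ x ∈ P i) →
      (∀ i, ∃ x ∈ D i, x ∉ Y) → ∃ x ∈ D j', x ∉ D j := by
    intro D hD hDY
    obtain ⟨x, hx, hxY⟩ := hDY j'
    refine ⟨x, hx, fun hx' => ?_⟩
    have h1 := (hD j' x hx).resolve_left hxY
    have h2 := (hD j x hx').resolve_left hxY
    exact Finset.disjoint_left.mp (hPP j j' hjj) h2 h1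
  rcases (by omega : t ≤ (R j ∩ Y).card ∨ t ≤ (C j ∩ Y).card) with h1 | h1
  · obtain ⟨x, hx, hx'⟩ := key R (fun i x hx => (hU i x).mp (Or.inl hx)) hRY
    exact rule2_two hr (hRc j) (hRf j) (hRf j') Finset.inter_subset_left
      (by rw [hX]; exact Finset.inter_subset_left) h1 x hx hx'
  · obtain ⟨x, hx, hx'⟩ := key C (fun i x hx => (hU i x).mp (Or.inr hx)) hCY
    exact rule2_two hb (hCc j) (hCf j) (hCf j') Finset.inter_subset_left
      (by rw [hCX]; exact Finset.inter_subset_left) h1 x hx hx'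

/-- Degree bound: a vertex `x'` has at most `(2t-1 choose t) (d-1)` neighbours in `N` that see at
least `t` elements of `U`. -/
theorem deg_bound {V : Type} {G : SimpleGraph V} {h d t : ℕ} (hd : 1 ≤ d) (hr : Rule2 G h d t)
    {R U : Finset V} (hRc : R.card = h) (hR : Full G R) (hU : U ⊆ R) (x' : V)
    (hx' : x' ∉ R) (N : Finset V) (hN : ∀ x ∈ N, x ∉ R) (hNx : ∀ x ∈ N, G.Adj x' x)
    (hNU : ∀ x ∈ N, ∃ S ⊆ U, S.card = t ∧ ∀ y ∈ S, G.Adj x y) :
    N.card ≤ U.card.choose t * (d - 1) := by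
  classical
  by_contra hcon
  push Not at hcon
  choose! S hSU hSc hSx using hNU
  have hmaps : ∀ x ∈ N, S x ∈ U.powersetCard t := by
    intro x hx
    rw [Finset.mem_powersetCard]
    exact ⟨hSU x hx, hSc x hx⟩
  obtain ⟨S0, hS0, hlt⟩ := Finset.exists_lt_card_fiber_of_mul_lt_card_of_maps_to hmaps
    (n := d - 1) (by rw [Finset.card_powersetCard]; exact hcon)
  rw [Finset.mem_powersetCard] at hS0
  refine hr R hRc hR x' (N.filter (fun x => S x = S0)) S0 hx' ?_ (by omega) ?_
    (hS0.1.trans hU) hS0.2.ge ?_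
  · intro x hx
    exact hN x (Finset.mem_filter.mp hx).1
  · intro x hx
    exact hNx x (Finset.mem_filter.mp hx).1
  · intro x hx y hy
    obtain ⟨h1, h2⟩ := Finset.mem_filter.mp hx
    exact hSx x h1 y (by rw [h2]; exact hy)

/-- Block analysis: `q` = the block, `A b x x'` = the pair `x x'` has colour `b`;
`C x` = '`x` is of blue type'; every vertex has at most `M` blue neighbours of blue type and at most
`M` red neighbours of red type.  Then some colour has maximal degree at most `3 M` in the block. -/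
theorem block_deg {n M : ℕ} (Rd Bl : Fin n → Fin n → Prop) (C : Fin n → Prop)
    (hcol : ∀ x y, x ≠ y → Rd x y ∨ Bl x y)
    (hBs : ∀ x y, Bl x y → Bl y x)
    (hB : ∀ x, ∀ S : Finset (Fin n), (∀ y ∈ S, Bl x y ∧ C y) → S.card ≤ M)
    (hR : ∀ x, ∀ S : Finset (Fin n), (∀ y ∈ S, Rd x y ∧ ¬ C y) → S.card ≤ M) :
    (∀ x, ∀ S : Finset (Fin n), (∀ y ∈ S, Bl x y) → S.card ≤ 3 * M) ∨
    (∀ x, ∀ S : Finset (Fin n), (∀ y ∈ S, Rd x y) → S.card ≤ 3 * M) := by
  classical
  let QC : Finset (Fin n) := univ.filter C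
  let QR : Finset (Fin n) := univ.filter (fun x => ¬ C x)
  have hsplit : ∀ S : Finset (Fin n), S.card = (S.filter C).card + (S.filter (fun x => ¬ C x)).card :=
    fun S => (Finset.card_filter_add_card_filter_not (s := S) C).symm
  by_cases h1 : QR.card ≤ 2 * M
  · left
    intro x S hS
    have h2 := hB x (S.filter C) (fun y hy =>
      ⟨hS y (Finset.mem_filter.mp hy).1, (Finset.mem_filter.mp hy).2⟩)
    have h3 : (S.filter (fun x => ¬ C x)).card ≤ QR.card :=
      Finset.card_le_card (Finset.filter_subset_filter _ (Finset.subset_univ S))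
    have := hsplit S
    omega
  by_cases h1' : QC.card ≤ 2 * M
  · right
    intro x S hS
    have h2 := hR x (S.filter (fun x => ¬ C x)) (fun y hy =>
      ⟨hS y (Finset.mem_filter.mp hy).1, (Finset.mem_filter.mp hy).2⟩)
    have h3 : (S.filter C).card ≤ QC.card :=
      Finset.card_le_card (Finset.filter_subset_filter _ (Finset.subset_univ S))
    have := hsplit S
    omega
  exfalso
  -- count pairs
  have hpairs : (QC ×ˢ QR).card ≤ ((QC ×ˢ QR).filter (fun p => Rd p.1 p.2)).card +
      ((QC ×ˢ QR).filter (fun p => Bl p.1 p.2)).card := by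
    refine le_trans (Finset.card_le_card ?_) (Finset.card_union_le _ _)
    intro p hp
    have hp' := Finset.mem_product.mp hp
    have hne : p.1 ≠ p.2 := by
      intro h
      have h2 := (Finset.mem_filter.mp hp'.1).2
      rw [h] at h2
      exact (Finset.mem_filter.mp hp'.2).2 h2
    rw [Finset.mem_union, Finset.mem_filter, Finset.mem_filter]
    rcases hcol p.1 p.2 hne with h | h
    · exact Or.inl ⟨hp, h⟩
    · exact Or.inr ⟨hp, h⟩
  have hRd : ((QC ×ˢ QR).filter (fun p => Rd p.1 p.2)).card ≤ QC.card * M := by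
    have h2 : ((QC ×ˢ QR).filter (fun p => Rd p.1 p.2)) ⊆
        QC.biUnion (fun x => (QR.filter (fun y => Rd x y)).image (fun y => (x, y))) := by
      intro p hp
      obtain ⟨h3, h4⟩ := Finset.mem_filter.mp hp
      obtain ⟨h5, h6⟩ := Finset.mem_product.mp h3
      exact Finset.mem_biUnion.mpr ⟨p.1, h5, Finset.mem_image.mpr ⟨p.2,
        Finset.mem_filter.mpr ⟨h6, h4⟩, rfl⟩⟩
    refine le_trans (Finset.card_le_card h2) ?_
    refine Finset.card_biUnion_le_card_mul _ _ _ ?_
    intro x _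
    refine le_trans Finset.card_image_le ?_
    refine hR x _ ?_
    intro y hy
    obtain ⟨h3, h4⟩ := Finset.mem_filter.mp hy
    exact ⟨h4, (Finset.mem_filter.mp h3).2⟩
  have hBl : ((QC ×ˢ QR).filter (fun p => Bl p.1 p.2)).card ≤ QR.card * M := by
    have h2 : ((QC ×ˢ QR).filter (fun p => Bl p.1 p.2)) ⊆
        QR.biUnion (fun y => (QC.filter (fun x => Bl y x)).image (fun x => (x, y))) := by
      intro p hp
      obtain ⟨h3, h4⟩ := Finset.mem_filter.mp hp
      obtain ⟨h5, h6⟩ := Finset.mem_product.mp h3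
      exact Finset.mem_biUnion.mpr ⟨p.2, h6, Finset.mem_image.mpr ⟨p.1,
        Finset.mem_filter.mpr ⟨h5, hBs _ _ h4⟩, rfl⟩⟩
    refine le_trans (Finset.card_le_card h2) ?_
    refine Finset.card_biUnion_le_card_mul _ _ _ ?_
    intro y _
    refine le_trans Finset.card_image_le ?_
    refine hB y _ ?_
    intro x hx
    obtain ⟨h3, h4⟩ := Finset.mem_filter.mp hx
    exact ⟨h4, (Finset.mem_filter.mp h3).2⟩
  rw [Finset.card_product] at hpairs
  push Not at h1 h1'
  have h5 : QC.card * QR.card ≤ QC.card * M + QR.card * M := by omega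
  nlinarith

end MP3240T
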