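import Pool.Agent.Lib.MP_3240be_co.H51.Defs

/-!
# MP_3240be_co, board TREES, row L7: (I.7)/(I.9) and `L7a`
-/

set_option autoImplicit false

namespace MP3240T

open Finset

/-- A finite set maps injectively into any finite set that is at least as large. -/
theorem L7_exists_injOn {X V : Type} [Inhabited V] (s : Finset X) (t : Finset V)
    (h : s.card ≤ t.card) : ∃ f : X → V, (∀ x ∈ s, f x ∈ t) ∧ Set.InjOn f (s : Set X) := by
  classical
  have h' : Fintype.card s ≤ Fintype.card t := by simpa using h
  obtain ⟨e⟩ := Function.Embedding.nonempty_of_card_le h'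
  refine ⟨fun x => if hx : x ∈ s then (e ⟨x, hx⟩ : V) else default, ?_, ?_⟩
  · intro x hx
    simp only [hx, dif_pos]
    exact (e ⟨x, hx⟩).2
  · intro x hx y hy hxy
    have hx' : x ∈ s := hx
    have hy' : y ∈ s := hy
    simp only [hx', hy', dif_pos] at hxy
    have := e.injective (Subtype.ext hxy)
    exact congrArg Subtype.val this

theorem L7_proof (hE : ExtStatement) : L7Statement := by
  classical
  intro n a T κ D V G S N S0 q q0 hS hfull hqS hNS hN hqN hq0 hS0 hb0 hadj0
  have : Inhabited V := ⟨q⟩
  have hκb0 : κ D.b0 = false := by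
    have := D.prop _ _ D.adj0
    rw [D.ha0] at this
    cases h : κ D.b0
    · rfl
    · exact absurd h.symm this
  -- the neighbours of `b0` other than `a0`
  set Nb := (nb T D.b0).erase D.a0 with hNbdef
  have ha0b : D.a0 ∈ nb T D.b0 := by
    simp only [nb, mem_filter, mem_univ, true_and]
    exact D.adj0.symm
  have hNbcard : Nb.card ≤ S0.card := by
    rw [hNbdef, card_erase_of_mem ha0b]
    omega
  obtain ⟨S1, hS1sub, hS1card⟩ := exists_subset_card_eq hNbcard
  have hS1S : S1 ⊆ S := hS1sub.trans hS0
  have hNbA : Nb ⊆ (clA κ).erase D.a0 := by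
    intro x hx
    rw [hNbdef, mem_erase] at hx
    obtain ⟨hx1, hx2⟩ := hx
    simp only [nb, mem_filter, mem_univ, true_and] at hx2
    rw [mem_erase]
    refine ⟨hx1, ?_⟩
    simp only [clA, mem_filter, mem_univ, true_and]
    have := D.prop _ _ hx2
    rw [hκb0] at this
    cases h : κ x
    · exact absurd h.symm this
    · rfl
  have hAcard : ((clA κ).erase D.a0).card = S.card := by
    rw [card_erase_of_mem (by simp [clA, D.ha0]), D.cardA]
    omega
  obtain ⟨f1, hf1m, hf1i⟩ := L7_exists_injOn Nb S1 hS1card.ge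
  have hrest : (((clA κ).erase D.a0) \ Nb).card ≤ (S \ S1).card := by
    rw [card_sdiff_of_subset hNbA, card_sdiff_of_subset hS1S, hAcard, hS1card]
  obtain ⟨f2, hf2m, hf2i⟩ := L7_exists_injOn (((clA κ).erase D.a0) \ Nb) (S \ S1) hrest
  have hb0a : D.b0 ∈ nb T D.a0 := by
    simp only [nb, mem_filter, mem_univ, true_and]
    exact D.adj0
  have hleafcard : ((nb T D.a0).erase D.b0).card ≤ (N.erase q0).card := by
    rw [card_erase_of_mem hb0a, card_erase_of_mem hq0]
    omega
  obtain ⟨f3, hf3m, hf3i⟩ := L7_exists_injOn ((nb T D.a0).erase D.b0) (N.erase q0) hleafcard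
  -- the map
  let φ : Fin n → V := fun x =>
    if κ x = true then (if x = D.a0 then q else if x ∈ Nb then f1 x else f2 x)
    else (if x = D.b0 then q0 else f3 x)
  have hφa0 : φ D.a0 = q := by simp [φ, D.ha0]
  have hφb0 : φ D.b0 = q0 := by simp [φ, hκb0]
  have hφNb : ∀ x ∈ Nb, φ x ∈ S1 ∧ φ x = f1 x := by
    intro x hx
    have h1 := hNbA hx
    rw [mem_erase] at h1
    have hκ : κ x = true := by simpa [clA] using h1.2
    have : φ x = f1 x := by simp [φ, hκ, h1.1, hx]
    rw [this]
    exact ⟨hf1m x hx, rfl⟩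
  have hφR : ∀ x, κ x = true → x ≠ D.a0 → x ∉ Nb → φ x ∈ S \ S1 ∧ φ x = f2 x := by
    intro x hκ hx hxN
    have : φ x = f2 x := by simp [φ, hκ, hx, hxN]
    rw [this]
    refine ⟨hf2m x ?_, rfl⟩
    rw [mem_sdiff, mem_erase]
    exact ⟨⟨hx, by simp [clA, hκ]⟩, hxN⟩
  have hφS : ∀ x, κ x = true → x ≠ D.a0 → φ x ∈ S := by
    intro x hκ hx
    by_cases hxN : x ∈ Nb
    · exact hS1S (hφNb x hxN).1
    · exact (mem_sdiff.1 (hφR x hκ hx hxN).1).1
  have hκnb : ∀ x, T.Adj D.a0 x → κ x = false := by
    intro x hx
    have := D.prop _ _ hx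
    rw [D.ha0] at this
    cases h : κ x
    · rfl
    · exact absurd h.symm this
  have hφL : ∀ x, T.Adj D.a0 x → x ≠ D.b0 → φ x ∈ N.erase q0 ∧ φ x = f3 x := by
    intro x hx hxb
    have hκ := hκnb x hx
    have : φ x = f3 x := by simp [φ, hκ, hxb]
    rw [this]
    refine ⟨hf3m x ?_, rfl⟩
    rw [mem_erase]
    exact ⟨hxb, by simpa [nb] using hx⟩
  have hφN : ∀ x, T.Adj D.a0 x → φ x ∈ N := by
    intro x hx
    by_cases hxb : x = D.b0
    · rw [hxb, hφb0]; exact hq0
    · exact mem_of_mem_erase (hφL x hx hxb).1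
  -- injectivity among `A`
  have injA : ∀ x y, κ x = true → κ y = true → φ x = φ y → x = y := by
    intro x y hx hy hxy
    by_cases hxa : x = D.a0
    · by_cases hya : y = D.a0
      · rw [hxa, hya]
      · exfalso
        rw [hxa, hφa0] at hxy
        exact hqS (hxy ▸ hφS y hy hya)
    · by_cases hya : y = D.a0
      · exfalso
        rw [hya, hφa0] at hxy
        exact hqS (hxy ▸ hφS x hx hxa)
      · by_cases hxN : x ∈ Nb
        · by_cases hyN : y ∈ Nb
          · rw [(hφNb x hxN).2, (hφNb y hyN).2] at hxy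
            exact hf1i hxN hyN hxy
          · exfalso
            have h1 := (hφNb x hxN).1
            have h2 := (mem_sdiff.1 (hφR y hy hya hyN).1).2
            exact h2 (hxy ▸ h1)
        · by_cases hyN : y ∈ Nb
          · exfalso
            have h1 := (hφNb y hyN).1
            have h2 := (mem_sdiff.1 (hφR x hx hxa hxN).1).2
            exact h2 (hxy ▸ h1)
          · rw [(hφR x hx hxa hxN).2, (hφR y hy hya hyN).2] at hxy
            refine hf2i ?_ ?_ hxy
            · rw [mem_coe, mem_sdiff, mem_erase]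
              exact ⟨⟨hxa, by simp [clA, hx]⟩, hxN⟩
            · rw [mem_coe, mem_sdiff, mem_erase]
              exact ⟨⟨hya, by simp [clA, hy]⟩, hyN⟩
  have injN : ∀ x y, T.Adj D.a0 x → T.Adj D.a0 y → φ x = φ y → x = y := by
    intro x y hx hy hxy
    by_cases hxb : x = D.b0
    · by_cases hyb : y = D.b0
      · rw [hxb, hyb]
      · exfalso
        rw [hxb, hφb0] at hxy
        have := (hφL y hy hyb).1
        rw [← hxy] at this
        exact (mem_erase.1 this).1 rfl
    · by_cases hyb : y = D.b0
      · exfalso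
        rw [hyb, hφb0] at hxy
        have := (hφL x hx hxb).1
        rw [hxy] at this
        exact (mem_erase.1 this).1 rfl
      · rw [(hφL x hx hxb).2, (hφL y hy hyb).2] at hxy
        refine hf3i ?_ ?_ hxy
        · rw [mem_coe, mem_erase]
          exact ⟨hxb, by simpa [nb] using hx⟩
        · rw [mem_coe, mem_erase]
          exact ⟨hyb, by simpa [nb] using hy⟩
  have sep : ∀ x y, κ x = true → T.Adj D.a0 y → φ x ≠ φ y := by
    intro x y hx hy hxy
    by_cases hxa : x = D.a0
    · rw [hxa, hφa0] at hxy
      have h1 := hqN _ (hφN y hy)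
      rw [← hxy] at h1
      exact G.loopless.irrefl _ h1
    · have h1 := hφS x hx hxa
      rw [hxy] at h1
      exact hNS _ (hφN y hy) h1
  have edge : ∀ x y, κ x = true → T.Adj D.a0 y → T.Adj x y → G.Adj (φ x) (φ y) := by
    intro x y hx hy hxy
    by_cases hxa : x = D.a0
    · rw [hxa, hφa0]
      exact hqN _ (hφN y hy)
    · have hyb : y = D.b0 := by
        by_contra hyb
        exact hxa (D.leaf y hy hyb x hxy.symm)
      subst hyb
      have hxNb : x ∈ Nb := by
        rw [hNbdef, mem_erase]
        refine ⟨hxa, ?_⟩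
        simp only [nb, mem_filter, mem_univ, true_and]
        exact hxy.symm
      have h1 := hS1sub (hφNb x hxNb).1
      have h2 := hadj0 _ h1
      rw [hφb0]
      exact h2.symm
  have hW : ∀ x, x ∈ clA κ ∪ nb T D.a0 ↔ κ x = true ∨ T.Adj D.a0 x := by
    intro x
    simp [clA, nb]
  refine hE V G n T (clA κ ∪ nb T D.a0) φ ?_ ?_ ?_ ?_
  · intro x hx y hy hxy
    rw [mem_coe, hW] at hx hy
    rcases hx with hx | hx <;> rcases hy with hy | hy
    · exact injA x y hx hy hxy
    · exact absurd hxy (sep x y hx hy)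
    · exact absurd hxy.symm (sep y x hy hx)
    · exact injN x y hx hy hxy
  · intro i hi j hj hij
    rw [hW] at hi hj
    rcases hi with hi | hi <;> rcases hj with hj | hj
    · exact absurd (hi.trans hj.symm) (D.prop _ _ hij)
    · exact edge i j hi hj hij
    · exact (edge j i hj hi hij.symm).symm
    · exact absurd ((hκnb i hi).trans (hκnb j hj).symm) (D.prop _ _ hij)
  · intro i hi j hj hij
    rw [hW, not_or] at hi hj
    apply D.prop _ _ hij
    have h1 : κ i = false := by simpa using hi.1
    have h2 : κ j = false := by simpa using hj.1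
    rw [h1, h2]
  · intro u hu
    rw [hW, not_or] at hu
    refine hfull.mono ?_
    intro z hz i _ hui
    have hi : κ i = true := by
      have h1 : κ u = false := by simpa using hu.1
      have h2 := D.prop _ _ hui
      rw [h1] at h2
      cases h : κ i
      · exact absurd h.symm h2
      · rfl
    have hia : i ≠ D.a0 := by
      rintro rfl
      exact hu.2 hui.symm
    exact hz _ (hφS i hi hia)

theorem L7a_proof : L7aStatement := by
  classical
  intro n a T κ D
  have hκb0 : κ D.b0 = false := by
    have := D.prop _ _ D.adj0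
    rw [D.ha0] at this
    cases h : κ D.b0
    · rfl
    · exact absurd h.symm this
  have hb0K : D.b0 ∉ D.K := by
    intro h
    exact D.a0s (D.closed D.b0 h D.a0 D.a0K D.adj0.symm)
  have hdisj : Disjoint (nb T D.b0) (D.K.filter (fun x => κ x = true)) := by
    rw [disjoint_left]
    intro x hx hxK
    simp only [nb, mem_filter, mem_univ, true_and] at hx
    rw [mem_filter] at hxK
    have h1 := D.closed x hxK.1 D.b0 hb0K hx.symm
    have h2 := D.hs
    rw [← h1, hκb0] at h2
    exact Bool.false_ne_true h2
  rw [← card_union_of_disjoint hdisj]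
  refine le_trans (card_le_card ?_) D.cardA.le
  intro x hx
  simp only [clA, mem_filter, mem_univ, true_and]
  rw [mem_union] at hx
  rcases hx with hx | hx
  · simp only [nb, mem_filter, mem_univ, true_and] at hx
    have := D.prop _ _ hx
    rw [hκb0] at this
    cases h : κ x
    · exact absurd h.symm this
    · rfl
  · exact (mem_filter.1 hx).2

end MP3240T
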