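import Pool.Agent.Lib.MP_3240be_co.H51.NoEmb

/-!
# The host `FC` is not Ramsey for `T'`
-/

set_option autoImplicit false

namespace MP3240T

open Finset

theorem adj_cases {h n s : ℕ} {u v : VC h n} (huv : (FC h n s).Adj u v) :
    relC s u v ∨ relC s v u := by
  rw [FC, SimpleGraph.fromRel_adj] at huv
  exact huv.2

/-- the red edges -/
theorem red_cases {h n s : ℕ} (u v : VC h n) (huv : relC s u v) (hc : colC u v = true) :
    (∃ j l t, u = .p none j l ∧ v = .z none j t) ∨
    (∃ x x', u = .q x ∧ v = .q x' ∧ x ≠ x') ∨
    (∃ l j t, u = .y l ∧ v = .z (some (decide (l.val < s))) j t) ∨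
    (∃ i l j t, u = .w i l ∧ v = .z (some i) j t ∧ decide (l.val < s) ≠ i) := by
  rcases relC_cases u v huv with ⟨i, j, l, t, rfl, rfl⟩ | ⟨l, x, rfl, rfl⟩ | ⟨x, x', rfl, rfl, h⟩ |
    ⟨l, i, j, t, rfl, rfl, h⟩ | ⟨i, l, j, t, rfl, rfl, h⟩
  · cases i with
    | none => exact Or.inl ⟨j, l, t, rfl, rfl⟩
    | some i => simp [colC, redC] at hc
  · simp [colC, redC] at hc
  · exact Or.inr (Or.inl ⟨x, x', rfl, rfl, h⟩)
  · rcases h with h | h
    · subst h
      simp [colC, redC] at hc
    · subst h
      exact Or.inr (Or.inr (Or.inl ⟨l, j, t, rfl, rfl⟩))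
  · exact Or.inr (Or.inr (Or.inr ⟨i, l, j, t, rfl, rfl, h⟩))

/-- the blue edges -/
theorem blue_cases {h n s : ℕ} (u v : VC h n) (huv : relC s u v) (hc : colC u v = false) :
    (∃ i j l t, u = .p (some i) j l ∧ v = .z (some i) j t) ∨
    (∃ l x, u = .y l ∧ v = .q x) ∨
    (∃ l j t, u = .y l ∧ v = .z none j t) := by
  rcases relC_cases u v huv with ⟨i, j, l, t, rfl, rfl⟩ | ⟨l, x, rfl, rfl⟩ | ⟨x, x', rfl, rfl, h⟩ |
    ⟨l, i, j, t, rfl, rfl, h⟩ | ⟨i, l, j, t, rfl, rfl, h⟩
  · cases i with
    | none => simp [colC, redC] at hc
    | some i => exact Or.inl ⟨i, j, l, t, rfl, rfl⟩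
  · exact Or.inr (Or.inl ⟨l, x, rfl, rfl⟩)
  · simp [colC, redC] at hc
  · rcases h with h | h
    · subst h
      exact Or.inr (Or.inr ⟨l, j, t, rfl, rfl⟩)
    · subst h
      simp [colC, redC] at hc
  · simp [colC, redC] at hc

theorem colC_symm {h n : ℕ} (u v : VC h n) : colC u v = colC v u := by
  unfold colC
  exact Bool.or_comm _ _

/-- `FC` is not Ramsey for `T'`. -/
theorem nfc {n h s : ℕ} (T' : SimpleGraph (Fin (n + 1))) (κ : Fin (n + 1) → Bool)
    (hκ : ∀ i j, T'.Adj i j → κ i ≠ κ j) (hconn : T'.Connected)
    (h1 : h < (univ.filter (fun x => κ x = true)).card)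
    (h2 : h < (univ.filter (fun x => κ x = false)).card) : ¬ Arr (FC h n s) T' := by
  classical
  intro harr
  obtain ⟨b, hb⟩ := harr colC colC_symm
  cases b with
  | true =>
    -- red
    have hedge : ∀ (P : VC h n → VC h n → Prop), (∀ u v, P u v → P v u) →
        (∀ u v, relC s u v → colC u v = true → P u v) →
        ∀ u v, (cls (FC h n s) colC true).Adj u v → P u v := by
      intro P hP h3 u v huv
      rcases adj_cases huv.1 with h4 | h4
      · exact h3 u v h4 huv.2.1
      · exact hP _ _ (h3 v u h4 huv.2.2)
    refine no_emb (cls (FC h n s) colC true) T' κ hκ hconn h1 h2 (labR s) (hubR s)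
      (fun ℓ => match ℓ with
        | some (none, j) => PC h n none j
        | some (some i, _) => YC h n s (some i)
        | none => univ.image VC.q) ?_ ?_ hb
    · refine hedge (fun u v => labR s u = labR s v) (fun u v h => h.symm) ?_
      intro u v huv hc
      rcases red_cases u v huv hc with ⟨j, l, t, rfl, rfl⟩ | ⟨x, x', rfl, rfl, h⟩ |
        ⟨l, j, t, rfl, rfl⟩ | ⟨i, l, j, t, rfl, rfl, h⟩ <;> simp [labR]
    · intro ℓ
      rcases ℓ with _ | ⟨i, j⟩
      · right
        refine ⟨?_, ?_⟩
        · intro v hv
          cases v with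
          | q x => simp
          | y l => simp [labR] at hv
          | w i l => simp [labR] at hv
          | p i j l => cases i <;> simp [labR] at hv
          | z i j t => cases i <;> simp [labR] at hv
        · refine le_trans Finset.card_image_le ?_
          simp
      · left
        have halt : ∀ u v, (cls (FC h n s) colC true).Adj u v → labR s u ≠ none →
            (hubR s u ↔ ¬ hubR s v) := by
          intro u v huv hlab
          rcases adj_cases huv.1 with h4 | h4
          · rcases red_cases u v h4 huv.2.1 with ⟨j, l, t, rfl, rfl⟩ | ⟨x, x', rfl, rfl, h⟩ |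
              ⟨l, j, t, rfl, rfl⟩ | ⟨i, l, j, t, rfl, rfl, h⟩
            · simp [hubR]
            · simp [labR] at hlab
            · simp [hubR]
            · simp only [hubR]; simp [h]
          · rcases red_cases v u h4 huv.2.2 with ⟨j, l, t, rfl, rfl⟩ | ⟨x, x', rfl, rfl, h⟩ |
              ⟨l, j, t, rfl, rfl⟩ | ⟨i, l, j, t, rfl, rfl, h⟩
            · simp [hubR]
            · simp [labR] at hlab
            · simp [hubR]
            · simp only [hubR]; simp [h]
        refine ⟨?_, ?_, fun u v hu huv => halt u v huv (by rw [hu]; simp)⟩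
        · intro v hv hhub
          cases v with
          | q x => simp [labR] at hv
          | y l =>
            simp only [labR, Option.some.injEq, Prod.mk.injEq] at hv
            obtain ⟨h3, h4⟩ := hv
            subst h3
            show VC.y l ∈ YC h n s (some (decide (l.val < s)))
            rw [mem_YC]
            exact ⟨l, by simp [mainC]⟩
          | w i' l =>
            simp only [labR, Option.some.injEq, Prod.mk.injEq] at hv
            obtain ⟨h3, h4⟩ := hv
            subst h3
            show VC.w i' l ∈ YC h n s (some i')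
            rw [mem_YC]
            refine ⟨l, ?_⟩
            simp only [mainC]
            rw [if_neg hhub]
          | p i' j' l =>
            cases i' with
            | none =>
              simp only [labR, Option.some.injEq, Prod.mk.injEq] at hv
              obtain ⟨h3, h4⟩ := hv
              subst h3
              subst h4
              show VC.p none j' l ∈ PC h n none j'
              rw [mem_PC]
              exact ⟨l, rfl⟩
            | some i' => simp [hubR] at hhub
          | z i' j' t => simp [hubR] at hhub
        · cases i with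
          | none => exact (card_PC h n none j).le
          | some i => exact (card_YC h n s (some i)).le
  | false =>
    have hedge : ∀ (P : VC h n → VC h n → Prop), (∀ u v, P u v → P v u) →
        (∀ u v, relC s u v → colC u v = false → P u v) →
        ∀ u v, (cls (FC h n s) colC false).Adj u v → P u v := by
      intro P hP h3 u v huv
      rcases adj_cases huv.1 with h4 | h4
      · exact h3 u v h4 huv.2.1
      · exact hP _ _ (h3 v u h4 huv.2.2)
    refine no_emb (cls (FC h n s) colC false) T' κ hκ hconn h1 h2 labB hubB
      (fun ℓ => match ℓ with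
        | none => YC h n s none
        | some (i, j) => PC h n (some i) j) ?_ ?_ hb
    · refine hedge (fun u v => labB u = labB v) (fun u v h => h.symm) ?_
      intro u v huv hc
      rcases blue_cases u v huv hc with ⟨i, j, l, t, rfl, rfl⟩ | ⟨l, x, rfl, rfl⟩ |
        ⟨l, j, t, rfl, rfl⟩ <;> simp [labB]
    · intro ℓ
      left
      have halt : ∀ u v, (cls (FC h n s) colC false).Adj u v → (hubB u ↔ ¬ hubB v) := by
        intro u v huv
        rcases adj_cases huv.1 with h4 | h4
        · rcases blue_cases u v h4 huv.2.1 with ⟨i, j, l, t, rfl, rfl⟩ | ⟨l, x, rfl, rfl⟩ |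
            ⟨l, j, t, rfl, rfl⟩ <;> simp [hubB]
        · rcases blue_cases v u h4 huv.2.2 with ⟨i, j, l, t, rfl, rfl⟩ | ⟨l, x, rfl, rfl⟩ |
            ⟨l, j, t, rfl, rfl⟩ <;> simp [hubB]
      refine ⟨?_, ?_, fun u v _ huv => halt u v huv⟩
      · intro v hv hhub
        cases v with
        | q x => simp [hubB] at hhub
        | y l =>
          simp only [labB] at hv
          subst hv
          show VC.y l ∈ YC h n s none
          rw [mem_YC]
          exact ⟨l, rfl⟩
        | w i' l => simp [hubB] at hhub
        | p i' j' l =>
          cases i' with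
          | none => simp [hubB] at hhub
          | some i' =>
            simp only [labB] at hv
            subst hv
            show VC.p (some i') j' l ∈ PC h n (some i') j'
            rw [mem_PC]
            exact ⟨l, rfl⟩
        | z i' j' t => simp [hubB] at hhub
      · rcases ℓ with _ | ⟨i, j⟩
        · exact (card_YC h n s none).le
        · exact (card_PC h n (some i) j).le

end MP3240T
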