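import Pool.Agent.Lib.MP_3240be_co.H51.Defs

/-!
# Row STR (board TREES, MP_3240be_co): structure of the trees of Case II
-/

set_option autoImplicit false

namespace MP3240T

open Finset

/-- A set closed under adjacency contains everything reachable. -/
theorem strReach {V : Type} (G : SimpleGraph V) (S : Set V)
    (hc : ∀ v ∈ S, ∀ w, G.Adj v w → w ∈ S) {s t : V} (h : G.Reachable s t) (hs : s ∈ S) :
    t ∈ S := by
  obtain ⟨p⟩ := h
  induction p with
  | nil => exact hs
  | cons hadj _ ih => exact ih (hc _ hs _ hadj)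

theorem t2_ctr_ctr {a : ℕ} (c : Fin a → ℕ) : ¬ (T2 c).Adj .ctr .ctr := by
  intro h; exact h.ne rfl

theorem t2_ctr_al {a : ℕ} (c : Fin a → ℕ) (i : Fin a) : (T2 c).Adj .ctr (.al i) := by
  rw [T2, SimpleGraph.fromRel_adj]
  exact ⟨by simp, Or.inl trivial⟩

theorem t2_ctr_lf {a : ℕ} (c : Fin a → ℕ) (i : Fin a) (l : Fin (c i)) :
    ¬ (T2 c).Adj .ctr (.lf i l) := by
  rw [T2, SimpleGraph.fromRel_adj]
  rintro ⟨-, h | h⟩ <;> exact h

theorem t2_al_al {a : ℕ} (c : Fin a → ℕ) (i j : Fin a) : ¬ (T2 c).Adj (.al i) (.al j) := by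
  rw [T2, SimpleGraph.fromRel_adj]
  rintro ⟨-, h | h⟩ <;> exact h

theorem t2_al_lf {a : ℕ} (c : Fin a → ℕ) (i j : Fin a) (l : Fin (c j)) :
    (T2 c).Adj (.al i) (.lf j l) ↔ i = j := by
  rw [T2, SimpleGraph.fromRel_adj]
  constructor
  · rintro ⟨-, h | h⟩
    · exact h
    · exact h.elim
  · intro h
    exact ⟨by simp, Or.inl h⟩

theorem t2_lf_lf {a : ℕ} (c : Fin a → ℕ) (i j : Fin a) (l : Fin (c i)) (m : Fin (c j)) :
    ¬ (T2 c).Adj (.lf i l) (.lf j m) := by
  rw [T2, SimpleGraph.fromRel_adj]
  rintro ⟨-, h | h⟩ <;> exact h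

theorem str_proof : StrStatement := by
  classical
  intro n T κ hT hprop hA hone
  have hconn := hT.connected
  have kne : ∀ {i j}, T.Adj i j → κ i = true → κ j = false := by
    intro i j hij hi
    have := hprop i j hij
    rw [hi] at this
    cases hj : κ j
    · rfl
    · exact absurd hj.symm this
  have kne' : ∀ {i j}, T.Adj i j → κ i = false → κ j = true := by
    intro i j hij hi
    have := hprop i j hij
    rw [hi] at this
    cases hj : κ j
    · exact absurd hj.symm this
    · rfl
  -- two vertices of A
  obtain ⟨s, hs, s2, hs2, hss⟩ := Finset.one_lt_card.1 hA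
  simp only [clA, mem_filter, mem_univ, true_and] at hs hs2
  -- a non-leaf neighbour
  have hex : ∃ β s', T.Adj s β ∧ T.Adj β s' ∧ s' ≠ s := by
    by_contra hno
    push Not at hno
    have hall : ∀ t, t ∈ ({v | v = s ∨ T.Adj s v} : Set (Fin n)) := by
      intro t
      refine strReach T _ ?_ (hconn.preconnected s t) (Or.inl rfl)
      rintro v (rfl | hv) w hw
      · exact Or.inr hw
      · exact Or.inl (hno v w hv hw)
    rcases hall s2 with h | h
    · exact hss h.symm
    · have := kne h hs
      rw [hs2] at this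
      exact absurd this (by decide)
  obtain ⟨β, s', hsβ, hβs', hs's⟩ := hex
  have hκβ : κ β = false := kne hsβ hs
  -- a vertex behind a neighbour of β is a leaf
  have hleaf : ∀ t y w, T.Adj β t → T.Adj t y → y ≠ β → T.Adj y w → w = t := by
    intro t y w hβt hty hyβ hyw
    by_contra hwt
    have hκt : κ t = true := kne' hβt hκβ
    have hnl : ∃ x', T.Adj β x' ∧ x' ≠ t := by
      by_cases h : s = t
      · exact ⟨s', hβs', fun h' => hs's (h'.trans h.symm)⟩
      · exact ⟨s, hsβ.symm, h⟩
    obtain ⟨x', hx', hx't⟩ := hnl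
    exact hyβ (hone t β y x' w hκt hβt.symm hty hx' hx't hyw hwt).symm
  -- everything is near β
  have hall : ∀ t, t ∈ ({v | v = β ∨ T.Adj β v ∨ ∃ u, T.Adj β u ∧ T.Adj u v} : Set (Fin n)) := by
    intro t
    refine strReach T _ ?_ (hconn.preconnected β t) (Or.inl rfl)
    rintro v (rfl | hv | ⟨u, hβu, huv⟩) w hw
    · exact Or.inr (Or.inl hw)
    · exact Or.inr (Or.inr ⟨v, hv, hw⟩)
    · by_cases hvβ : v = β
      · subst hvβ
        exact Or.inr (Or.inl hw)
      · have := hleaf u v w hβu huv hvβ hw
        subst this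
        exact Or.inr (Or.inl hβu)
  have hAβ : ∀ x, κ x = true → T.Adj β x := by
    intro x hx
    rcases hall x with h | h | ⟨u, hβu, hux⟩
    · subst h; rw [hκβ] at hx; exact absurd hx (by decide)
    · exact h
    · have h1 := kne' hβu hκβ
      have h2 := kne hux h1
      rw [hx] at h2
      exact absurd h2 (by decide)
  have hBl : ∀ y, κ y = false → y ≠ β → ∃ u, κ u = true ∧ T.Adj u y := by
    intro y hy hyβ
    rcases hall y with h | h | ⟨u, hβu, hux⟩
    · exact absurd h hyβ
    · have := kne' h hκβ
      rw [hy] at this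
      exact absurd this (by decide)
    · exact ⟨u, kne' hβu hκβ, hux⟩
  -- enumerations
  let α : Fin (clA κ).card ≃ {x // x ∈ clA κ} := (clA κ).equivFin.symm
  have hα : ∀ j, κ (α j).1 = true := by
    intro j
    have := (α j).2
    simpa only [clA, mem_filter, mem_univ, true_and] using this
  let L : Fin (clA κ).card → Finset (Fin n) := fun j => univ.filter (fun y => T.Adj (α j).1 y ∧ y ≠ β)
  let c : Fin (clA κ).card → ℕ := fun j => (L j).card
  let l : ∀ j, Fin (c j) ≃ {x // x ∈ L j} := fun j => (L j).equivFin.symm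
  have hl : ∀ j i, T.Adj (α j).1 (l j i).1 ∧ (l j i).1 ≠ β := by
    intro j i
    have := (l j i).2
    simpa only [L, mem_filter, mem_univ, true_and] using this
  let g : D2 c → Fin n := fun u => match u with
    | .ctr => β
    | .al j => (α j).1
    | .lf j i => (l j i).1
  have gctr : g .ctr = β := rfl
  have gal : ∀ j, g (.al j) = (α j).1 := fun _ => rfl
  have glf : ∀ j i, g (.lf j i) = (l j i).1 := fun _ _ => rfl
  have κal : ∀ j, κ (g (.al j)) = true := fun j => hα j
  have κlf : ∀ j i, κ (g (.lf j i)) = false := fun j i => kne (hl j i).1 (hα j)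
  have κctr : κ (g .ctr) = false := hκβ
  have αinj : ∀ i j, (α i).1 = (α j).1 → i = j := fun i j h => α.injective (Subtype.ext h)
  have hlone : ∀ i j m, T.Adj (α i).1 (l j m).1 → i = j := by
    intro i j m h
    have h1 := hleaf (α j).1 (l j m).1 (α i).1 (hAβ _ (hα j)) (hl j m).1 (hl j m).2 h.symm
    exact αinj i j h1
  have ginj : Function.Injective g := by
    intro u v huv
    cases u with
    | ctr =>
      cases v with
      | ctr => rfl
      | al j => have := κal j; rw [← huv, κctr] at this; exact absurd this (by decide)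
      | lf j i => exact absurd (huv.symm.trans gctr) (hl j i).2
    | al i =>
      cases v with
      | ctr => have := κal i; rw [huv, κctr] at this; exact absurd this (by decide)
      | al j => rw [αinj i j huv]
      | lf j m => have := κal i; rw [huv, κlf] at this; exact absurd this (by decide)
    | lf i m =>
      cases v with
      | ctr => exact absurd (huv.trans gctr) (hl i m).2
      | al j => have := κal j; rw [← huv, κlf] at this; exact absurd this (by decide)
      | lf j m' =>
        have huv' : (l i m).1 = (l j m').1 := huv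
        have hij : i = j := hlone i j m' (by rw [← huv']; exact (hl i m).1)
        subst hij
        have : m = m' := (l i).injective (Subtype.ext huv')
        rw [this]
  have gsurj : Function.Surjective g := by
    intro x
    cases hx : κ x with
    | true =>
      refine ⟨.al (α.symm ⟨x, ?_⟩), ?_⟩
      · simp only [clA, mem_filter, mem_univ, true_and]; exact hx
      · rw [gal, Equiv.apply_symm_apply]
    | false =>
      by_cases hxβ : x = β
      · exact ⟨.ctr, hxβ.symm⟩
      · obtain ⟨u, hu, hux⟩ := hBl x hx hxβ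
        have hu' : u ∈ clA κ := by simp only [clA, mem_filter, mem_univ, true_and]; exact hu
        set j := α.symm ⟨u, hu'⟩ with hj
        have hαj : (α j).1 = u := by rw [hj, Equiv.apply_symm_apply]
        have hxL : x ∈ L j := by
          simp only [L, mem_filter, mem_univ, true_and]
          rw [hαj]; exact ⟨hux, hxβ⟩
        refine ⟨.lf j ((l j).symm ⟨x, hxL⟩), ?_⟩
        rw [glf, Equiv.apply_symm_apply]
  have gadj : ∀ u v, T.Adj (g u) (g v) ↔ (T2 c).Adj u v := by
    have hBB : ∀ {x y}, κ x = false → κ y = false → ¬ T.Adj x y := by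
      intro x y hx hy h
      exact hprop x y h (hx.trans hy.symm)
    have hAA : ∀ {x y}, κ x = true → κ y = true → ¬ T.Adj x y := by
      intro x y hx hy h
      exact hprop x y h (hx.trans hy.symm)
    intro u v
    cases u with
    | ctr =>
      cases v with
      | ctr => exact iff_of_false (hBB κctr κctr) (t2_ctr_ctr c)
      | al j => exact iff_of_true (hAβ _ (hα j)) (t2_ctr_al c j)
      | lf j i => exact iff_of_false (hBB κctr (κlf j i)) (t2_ctr_lf c j i)
    | al i =>
      cases v with
      | ctr => exact iff_of_true (hAβ _ (hα i)).symm (t2_ctr_al c i).symm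
      | al j => exact iff_of_false (hAA (κal i) (κal j)) (t2_al_al c i j)
      | lf j m =>
        rw [t2_al_lf]
        constructor
        · exact hlone i j m
        · rintro rfl; exact (hl i m).1
    | lf i m =>
      cases v with
      | ctr => exact iff_of_false (hBB (κlf i m) κctr) (fun h => t2_ctr_lf c i m h.symm)
      | al j =>
        rw [SimpleGraph.adj_comm, SimpleGraph.adj_comm (T2 c), t2_al_lf]
        constructor
        · exact hlone j i m
        · rintro rfl; exact (hl j m).1
      | lf j m' => exact iff_of_false (hBB (κlf i m) (κlf j m')) (t2_lf_lf c i j m m')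
  refine ⟨c, (Equiv.ofBijective g ⟨ginj, gsurj⟩).symm, ?_, ?_⟩
  · intro i j
    obtain ⟨u, rfl⟩ := gsurj i
    obtain ⟨v, rfl⟩ := gsurj j
    have hu : (Equiv.ofBijective g ⟨ginj, gsurj⟩).symm (g u) = u :=
      (Equiv.ofBijective g ⟨ginj, gsurj⟩).symm_apply_apply u
    have hv : (Equiv.ofBijective g ⟨ginj, gsurj⟩).symm (g v) = v :=
      (Equiv.ofBijective g ⟨ginj, gsurj⟩).symm_apply_apply v
    rw [hu, hv]
    exact gadj u v
  · intro i
    obtain ⟨u, rfl⟩ := gsurj i
    have hu : (Equiv.ofBijective g ⟨ginj, gsurj⟩).symm (g u) = u :=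
      (Equiv.ofBijective g ⟨ginj, gsurj⟩).symm_apply_apply u
    rw [hu]
    constructor
    · intro h
      cases u with
      | ctr => rw [κctr] at h; exact absurd h (by decide)
      | al j => exact ⟨j, rfl⟩
      | lf j m => rw [κlf] at h; exact absurd h (by decide)
    · rintro ⟨j, rfl⟩
      exact κal j

end MP3240T
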