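import Pool.Agent.Lib.MP_3240be_co.H22.L8
import Pool.Agent.Lib.MP_3240be_co.H30.Cpt
import Pool.Agent.Lib.MP_3240be_co.H30.Grd
import Pool.Agent.Lib.MP_3240be_co.H31.R2B
import Pool.Agent.Lib.MP_3240be_co.H51.H39.LR
import Pool.Agent.Lib.MP_3240be_co.H51.H60.Sta
import Pool.Agent.Lib.MP_3240be_co.H51.H76.N2A
import Pool.Agent.Lib.MP_3240be_co.H51.H76.Pen
import Pool.Agent.Lib.MP_3240be_co.H51.H94.Typ
import Pool.Agent.Lib.MP_3240be_co.H51.L7
import Pool.Agent.Lib.MP_3240be_co.H51.STR
import Pool.Agent.Lib.MP_3240be_co.H67.N2B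
import Pool.Agent.Lib.MP_3240be_co.H67.R2A
import Pool.Agent.Lib.MP_3240be_co.H74.Ext
import Pool.Agent.Lib.MP_3240be_co.H84.NF1
import Pool.Agent.Lib.MP_3240be_co.H84.Spl
import Pool.Agent.Lib.MP_3240be_co.H51.NFC
import Pool.Agent.Lib.MP_3240be_co.H51.DArr
import Pool.Agent.Lib.MP_3240be_co.H56.LargerClass

/-!
# Trees: assembly
-/

set_option autoImplicit false

namespace MP3240T

open Finset

theorem emb_of_equiv {X X' V : Type} (T : SimpleGraph X) (T1 : SimpleGraph X') (e : X ≃ X')
    (h : ∀ i j, T.Adj i j ↔ T1.Adj (e i) (e j)) (G : SimpleGraph V) : Emb T G ↔ Emb T1 G := by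
  constructor
  · rintro ⟨f, hf, ha⟩
    refine ⟨f ∘ e.symm, hf.comp e.symm.injective, ?_⟩
    intro i j hij
    refine ha _ _ ?_
    rw [h]
    simpa using hij
  · rintro ⟨f, hf, ha⟩
    exact ⟨f ∘ e, hf.comp e.injective, fun i j hij => ha _ _ ((h i j).mp hij)⟩

theorem arr_of_equiv {X X' V : Type} (T : SimpleGraph X) (T1 : SimpleGraph X') (e : X ≃ X')
    (h : ∀ i j, T.Adj i j ↔ T1.Adj (e i) (e j)) (F : SimpleGraph V) : Arr F T ↔ Arr F T1 := by
  constructor
  · intro hA c hc
    obtain ⟨b, hb⟩ := hA c hc
    exact ⟨b, (emb_of_equiv T T1 e h _).mp hb⟩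
  · intro hA c hc
    obtain ⟨b, hb⟩ := hA c hc
    exact ⟨b, (emb_of_equiv T T1 e h _).mpr hb⟩

/-- `Arr` for finite hosts is `Arrows`. -/
theorem arr_iff {m n : ℕ} (F : SimpleGraph (Fin m)) (H : SimpleGraph (Fin n)) :
    Arr F H ↔ Pool.Agent.Results.MP_3240be_co.LargerClass.Arrows F H := by
  constructor
  · intro h c hc
    obtain ⟨b, f, hf, ha⟩ := h c hc
    exact ⟨b, f, hf, fun i j hij => ⟨(ha i j hij).1, (ha i j hij).2.1⟩⟩
  · intro h c hc
    obtain ⟨b, f, hf, ha⟩ := h c hc
    exact ⟨b, f, hf, fun i j hij => ⟨(ha i j hij).1, (ha i j hij).2,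
      by rw [hc]; exact (ha i j hij).2⟩⟩

section Pend

variable {n : ℕ} (T : SimpleGraph (Fin n)) (T' : SimpleGraph (Fin (n + 1)))
  (hext : ∀ i j : Fin n, T'.Adj i.castSucc j.castSucc ↔ T.Adj i j) (v : Fin n)
  (hpend : ∀ i : Fin n, T'.Adj (Fin.last n) i.castSucc ↔ i = v)

include hext hpend in
theorem pend_conn (hT : T.Connected) : T'.Connected := by
  have hwalk : ∀ i j, T.Reachable i j → T'.Reachable i.castSucc j.castSucc := by
    rintro i j ⟨w⟩
    induction w with
    | nil => exact SimpleGraph.Reachable.refl _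
    | @cons a b c h p ih =>
      exact (SimpleGraph.Adj.reachable ((hext a b).mpr h)).trans ih
  have hv : ∀ x : Fin (n + 1), T'.Reachable x v.castSucc := by
    intro x
    induction x using Fin.lastCases with
    | last => exact SimpleGraph.Adj.reachable ((hpend v).mpr rfl)
    | cast i => exact hwalk i v (hT.preconnected i v)
  have : Nonempty (Fin (n + 1)) := ⟨0⟩
  exact SimpleGraph.Connected.mk (fun x y => (hv x).trans (hv y).symm)

/-- the 2-colouring of the pendant extension -/
def pendCol (κ : Fin n → Bool) (b : Bool) : Fin (n + 1) → Bool := Fin.snoc (α := fun _ => Bool) κ b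

theorem pendCol_cast (κ : Fin n → Bool) (b : Bool) (i : Fin n) :
    pendCol κ b i.castSucc = κ i := by
  simp [pendCol]

theorem pendCol_last (κ : Fin n → Bool) (b : Bool) : pendCol κ b (Fin.last n) = b := by
  simp [pendCol]

include hext hpend in
theorem pend_col (κ : Fin n → Bool) (hκ : ∀ i j, T.Adj i j → κ i ≠ κ j) (hv : κ v = true) :
    ∀ i j, T'.Adj i j → pendCol κ false i ≠ pendCol κ false j := by
  intro i j hij
  induction i using Fin.lastCases with
  | last =>
    induction j using Fin.lastCases with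
    | last => exact absurd hij (T'.loopless.irrefl _)
    | cast j =>
      have : j = v := (hpend j).mp hij
      rw [pendCol_last, pendCol_cast, this, hv]
      simp
  | cast i =>
    induction j using Fin.lastCases with
    | last =>
      have : i = v := (hpend i).mp hij.symm
      rw [pendCol_last, pendCol_cast, this, hv]
      simp
    | cast j =>
      rw [pendCol_cast, pendCol_cast]
      exact hκ i j ((hext i j).mp hij)

theorem pend_cardA (κ : Fin n → Bool) :
    (univ.filter (fun x => pendCol κ false x = true)).card = (clA κ).card := by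
  classical
  rw [Fin.univ_castSuccEmb]
  simp only [Finset.filter_cons, pendCol_last]
  simp only [Finset.filter_map, Finset.card_map, Bool.false_eq_true, if_false]
  congr 1
  ext i
  simp [clA, pendCol_cast]

theorem pend_cardB (κ : Fin n → Bool) :
    (univ.filter (fun x => pendCol κ false x = false)).card =
      (univ.filter (fun x => κ x = false)).card + 1 := by
  classical
  rw [Fin.univ_castSuccEmb]
  simp only [Finset.filter_cons, pendCol_last, if_true]
  rw [Finset.card_cons]
  congr 1
  rw [Finset.filter_map, Finset.card_map]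
  congr 1
  ext i
  simp [pendCol_cast]

end Pend

theorem not_emb_SH0 {n h : ℕ} (T' : SimpleGraph (Fin (n + 1))) (κ : Fin (n + 1) → Bool)
    (hκ : ∀ i j, T'.Adj i j → κ i ≠ κ j) (hconn : T'.Connected)
    (h1 : h < (univ.filter (fun x => κ x = true)).card)
    (h2 : h < (univ.filter (fun x => κ x = false)).card) : ¬ Emb T' (SH h 0) := by
  classical
  refine no_emb (SH h 0) T' κ hκ hconn h1 h2 (fun _ => ()) (fun u => u.isLeft = true)
    (fun _ => univ.image Sum.inl) (fun _ _ _ => rfl) ?_
  intro _
  left
  refine ⟨?_, ?_, ?_⟩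
  · intro u _ hu
    rcases u with u | u
    · simp
    · simp at hu
  · refine le_trans Finset.card_image_le ?_
    simp
  · intro u w _ huw
    rw [SH, SimpleGraph.fromRel_adj] at huw
    rcases u with u | ⟨m, u⟩ <;> rcases w with w | ⟨m', w⟩
    · simp at huw
    · simp
    · simp
    · rcases u with _ | u
      · rcases w with _ | w
        · simp at huw
        · exact w.elim0
      · exact u.elim0

theorem emb_SH_big {n h : ℕ} (T' : SimpleGraph (Fin n)) (κ : Fin n → Bool)
    (hκ : ∀ i j, T'.Adj i j → κ i ≠ κ j) (hA : (clA κ).card = h + 1) (v : Fin n)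
    (hv : κ v = true) : Emb T' (SH h n) := by
  classical
  have hadj : ∀ (i : Fin h) (u : ℕ × Option (Fin n)), (SH h n).Adj (.inl i) (.inr u) := by
    intro i u
    rw [SH, SimpleGraph.fromRel_adj]
    exact ⟨by simp, Or.inl trivial⟩
  refine hubrule ext_proof T' κ hκ hA v hv (SH h n) (univ.image Sum.inl) ?_ ?_ (.inr (0, none))
    (by simp) (univ.image (fun j : Fin n => .inr (0, some j))) (univ.image Sum.inl) ?_ ?_ ?_
    (Finset.Subset.refl _) ?_ ?_
  · rw [Finset.card_image_of_injective _ Sum.inl_injective]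
    simp
  · refine Set.infinite_of_injective_forall_mem (f := fun m : ℕ => .inr (m, none)) ?_ ?_
    · intro m m' hm
      simpa using hm
    · intro m y hy
      obtain ⟨i, -, rfl⟩ := Finset.mem_image.mp hy
      exact hadj i _
  · intro x hx
    obtain ⟨j, -, rfl⟩ := Finset.mem_image.mp hx
    simp
  · rw [Finset.card_image_of_injective _ (fun i j hij => by simpa using hij), Finset.card_univ,
      Fintype.card_fin]
    exact le_trans (Finset.card_le_univ _) (by simp)
  · intro x hx
    obtain ⟨j, -, rfl⟩ := Finset.mem_image.mp hx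
    rw [SH, SimpleGraph.fromRel_adj]
    exact ⟨by simp, Or.inl rfl⟩
  · rw [Finset.card_image_of_injective _ Sum.inl_injective, Finset.card_univ, Fintype.card_fin]
    have h1 : n2 T' v ⊆ (clA κ).erase v := by
      intro y hy
      have hy' : y ≠ v ∧ ∃ b, T'.Adj v b ∧ T'.Adj b y := by simpa [n2] using hy
      obtain ⟨h2, b, h3, h4⟩ := hy'
      rw [Finset.mem_erase]
      refine ⟨h2, ?_⟩
      have h5 := hκ v b h3
      have h6 := hκ b y h4
      rw [hv] at h5
      have h7 : κ b = false := by
        cases hb : κ b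
        · rfl
        · rw [hb] at h5; exact absurd rfl h5
      rw [h7] at h6
      have h8 : κ y = true := by
        cases hb : κ y
        · rw [hb] at h6; exact absurd rfl h6
        · rfl
      simp [clA, h8]
    have h2 := Finset.card_le_card h1
    rw [Finset.card_erase_of_mem (by simp [clA, hv])] at h2
    omega
  · intro x hx y hy
    obtain ⟨i, -, rfl⟩ := Finset.mem_image.mp hy
    obtain ⟨j, -, rfl⟩ := Finset.mem_image.mp hx
    exact (hadj i _).symm

theorem card_D2 {a n : ℕ} {c : Fin a → ℕ} (e : Fin n ≃ D2 c) : n = 1 + a + ∑ j, c j := by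
  let e1 : D2 c ≃ Unit ⊕ (Fin a ⊕ (Σ i, Fin (c i))) :=
    { toFun := fun u => match u with
        | .ctr => .inl ()
        | .al i => .inr (.inl i)
        | .lf i j => .inr (.inr ⟨i, j⟩)
      invFun := fun u => match u with
        | .inl _ => .ctr
        | .inr (.inl i) => .al i
        | .inr (.inr x) => .lf x.1 x.2
      left_inv := by rintro (_ | _ | _) <;> rfl
      right_inv := by rintro (_ | _ | _) <;> rfl }
  have h1 := Fintype.card_congr (e.trans e1)
  rw [Fintype.card_fin, Fintype.card_sum, Fintype.card_sum, Fintype.card_sigma] at h1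
  simp only [Fintype.card_unit, Fintype.card_fin] at h1
  omega

/-- Trees, `v` in a class that is not larger than the other one. -/
theorem trees_small (hTI : TIStatement) (hAR : AR1IStatement) {n : ℕ} (T : SimpleGraph (Fin n))
    (T' : SimpleGraph (Fin (n + 1))) (hT : T.IsTree)
    (hext : ∀ i j : Fin n, T'.Adj i.castSucc j.castSucc ↔ T.Adj i j) (v : Fin n)
    (hpend : ∀ i : Fin n, T'.Adj (Fin.last n) i.castSucc ↔ i = v) (κ : Fin n → Bool)
    (hκ : ∀ i j, T.Adj i j → κ i ≠ κ j) (hv : κ v = true)
    (hle : (clA κ).card ≤ (univ.filter (fun x => κ x = false)).card) :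
    ∃ (m : ℕ) (F0 : SimpleGraph (Fin m)), Arr F0 T ∧ ¬ Arr F0 T' := by
  classical
  have hconn' := pend_conn T T' hext v hpend hT.connected
  have hκ' := pend_col T T' hext v hpend κ hκ hv
  have hcA := pend_cardA κ
  have hcB := pend_cardB κ
  have hApos : 0 < (clA κ).card := Finset.card_pos.mpr ⟨v, by simp [clA, hv]⟩
  obtain ⟨h, hh⟩ : ∃ h, (clA κ).card = h + 1 := ⟨(clA κ).card - 1, by omega⟩
  have hn : (clA κ).card + (univ.filter (fun x => κ x = false)).card = n := by
    have h1 := Finset.card_filter_add_card_filter_not (s := (univ : Finset (Fin n)))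
      (fun x => κ x = true)
    rw [Finset.card_univ, Fintype.card_fin] at h1
    simp only [Bool.not_eq_true] at h1
    exact h1
  by_cases hh0 : h = 0
  · -- star
    have hv1 : ∀ x, κ x = true → x = v := by
      intro x hx
      have h1 : (clA κ).card = 1 := by omega
      obtain ⟨y, hy⟩ := Finset.card_eq_one.mp h1
      have h2 : x ∈ clA κ := by simp [clA, hx]
      have h3 : v ∈ clA κ := by simp [clA, hv]
      rw [hy, Finset.mem_singleton] at h2 h3
      rw [h2, h3]
    refine sta_proof n T T' v hext hpend ?_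
    intro i j
    constructor
    · intro hij
      have h1 := hκ i j hij
      cases hi : κ i
      · right
        have hj : κ j = true := by
          cases hj : κ j
          · rw [hi, hj] at h1; exact absurd rfl h1
          · rfl
        exact ⟨hv1 j hj, fun h => by rw [h, hv] at hi; exact Bool.noConfusion hi⟩
      · left
        refine ⟨hv1 i hi, fun h => ?_⟩
        rw [h, hv, hi] at h1
        exact h1 rfl
    · have key : ∀ j, j ≠ v → T.Adj v j := by
        intro j hj
        obtain ⟨w⟩ := hT.connected.preconnected j v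
        cases w with
        | nil => exact absurd rfl hj
        | @cons _ b _ h1 p =>
          have h2 := hκ j b h1
          have h3 : κ j = false := by
            cases h4 : κ j
            · rfl
            · exact absurd (hv1 j h4) hj
          have h5 : κ b = true := by
            cases h6 : κ b
            · rw [h3, h6] at h2; exact absurd rfl h2
            · rfl
          rw [hv1 b h5] at h1
          exact h1.symm
      rintro (⟨rfl, hj⟩ | ⟨rfl, hi⟩)
      · exact key j hj
      · exact (key i hi).symm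
  by_cases hI : ∃ s x y x' y' : Fin n, κ s = true ∧ T.Adj s x ∧ T.Adj s y ∧ x ≠ y ∧
      T.Adj x x' ∧ x' ≠ s ∧ T.Adj y y' ∧ y' ≠ s
  · -- Case I
    obtain ⟨s, x, y, x', y', h1, h2, h3, h4, h5, h6, h7, h8⟩ := hI
    obtain ⟨D⟩ := hTI n T κ s x y x' y' hT hκ h1 h2 h3 h4 h5 h6 h7 h8
    have hAc' : (clA (pendCol κ false)).card = h + 1 := by
      rw [← hh, ← hcA]
      rfl
    have hbig : Emb T' (SH h (n + 1)) := by
      refine emb_SH_big T' (pendCol κ false) hκ' hAc' v.castSucc ?_
      rw [pendCol_cast, hv]
    have hnot0 : ¬ Emb T' (SH h 0) :=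
      not_emb_SH0 T' (pendCol κ false) hκ' hconn' (by rw [hcA]; omega) (by rw [hcB]; omega)
    have hex : ∃ K, Emb T' (SH h K) := ⟨_, hbig⟩
    obtain ⟨k, hk⟩ : ∃ k, Nat.find hex = k + 1 := by
      refine ⟨Nat.find hex - 1, ?_⟩
      have h9 : Nat.find hex ≠ 0 := by
        intro h10
        have := Nat.find_spec hex
        rw [h10] at this
        exact hnot0 this
      omega
    have hk1 : Emb T' (SH h (k + 1)) := hk ▸ Nat.find_spec hex
    have hk0 : ¬ Emb T' (SH h k) := Nat.find_min hex (by omega)
    have hTk : Emb T (SH h (k + 1)) := by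
      obtain ⟨f, hf, ha⟩ := hk1
      exact ⟨fun i => f i.castSucc, hf.comp (Fin.castSucc_injective n),
        fun i j hij => ha _ _ ((hext i j).mpr hij)⟩
    refine cpt_proof _ (FI h n k) n (n + 1) T T' ?_ ?_
    · rw [hh] at D
      exact hAR n h k T κ D hTk
    · exact nf1_proof n h k T' (pendCol κ false) hκ' hconn' (by rw [hcA]; omega)
        (by rw [hcB]; omega) hk0
  · -- Case II
    obtain ⟨c, e, he, hal⟩ := str_proof n T κ hT hκ (by omega) (by
      intro s x y x' y' h1 h2 h3 h4 h5 h6 h7
      by_contra hxy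
      exact hI ⟨s, x, y, x', y', h1, h2, h3, hxy, h4, h5, h6, h7⟩)
    revert c
    rw [hh]
    intro c e he hal
    obtain ⟨i0, hi0⟩ := (hal v).mp hv
    obtain ⟨e', he'⟩ := pen_proof n (h + 1) T T' v c e i0 hext hpend he hi0
    have hcard : n = 2 + h + ∑ j, c j := by
      have h1 := card_D2 e
      omega
    have hsum' : ∑ j, (if j = i0 then c j + 1 else c j) = ∑ j, c j + 1 := by
      have h1 : ∀ j, (if j = i0 then c j + 1 else c j) = c j + (if j = i0 then 1 else 0) := by
        intro j
        split_ifs <;> rfl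
      rw [Finset.sum_congr rfl (fun j _ => h1 j), Finset.sum_add_distrib, Finset.sum_ite_eq']
      simp
    by_cases hA : ∃ i, n + 1 ≤ 2 * c i
    · obtain ⟨i, hi⟩ := hA
      refine cpt_proof _ (rook n) n (n + 1) T T' ?_ (n2a_proof n T' hconn')
      rw [arr_of_equiv T (T2 c) e he]
      exact r2a_proof (h + 1) c n i (by omega) hi
    · push Not at hA
      let P : ℕ → Prop := fun K => (∀ i, K ≤ c i) ∧ (h + 1) * K + h ≤ ∑ j, c j
      have hP0 : P 0 := ⟨fun i => Nat.zero_le _, by omega⟩
      have hPk := Nat.findGreatest_spec (P := P) (Nat.zero_le (c 0)) hP0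
      have hPm : ∀ K, (∀ i, K ≤ c i) → (h + 1) * K + h ≤ ∑ j, c j →
          K ≤ Nat.findGreatest P (c 0) := fun K h1 h2 =>
        Nat.le_findGreatest (h1 0) ⟨h1, h2⟩
      set k := Nat.findGreatest P (c 0) with hk
      refine cpt_proof _ (FB h n k) n (n + 1) T T' ?_ ?_
      · rw [arr_of_equiv T (T2 c) e he]
        exact H31.r2b_proof h c n k (by omega) hcard (fun i => by have := hA i; omega) hPk.1 (by omega)
          hPm
      · rw [arr_of_equiv T' _ e' he']
        refine n2b_proof h _ n k (by omega) ?_ ?_ ?_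
        · rw [hsum']
          omega
        · intro i
          have := hPk.1 i
          split_ifs <;> omega
        · rw [hsum']
          have := hPk.2
          omega

/-- Trees. -/
theorem trees (hTI : TIStatement) (hAR : AR1IStatement) {n : ℕ} (T : SimpleGraph (Fin n))
    (T' : SimpleGraph (Fin (n + 1))) (hT : T.IsTree)
    (hext : ∀ i j : Fin n, T'.Adj i.castSucc j.castSucc ↔ T.Adj i j) (v : Fin n)
    (hpend : ∀ i : Fin n, T'.Adj (Fin.last n) i.castSucc ↔ i = v) :
    ∃ (m : ℕ) (F0 : SimpleGraph (Fin m)), Arr F0 T ∧ ¬ Arr F0 T' := by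
  classical
  obtain ⟨C⟩ := hT.colorable_two
  let κ : Fin n → Bool := fun x => decide (C x = C v)
  have hκ : ∀ i j, T.Adj i j → κ i ≠ κ j := by
    intro i j hij h
    have h1 := C.valid hij
    simp only [κ, decide_eq_decide] at h
    by_cases h2 : C i = C v
    · exact h1 (h2.trans (h.mp h2).symm)
    · have h3 : C j ≠ C v := fun h4 => h2 (h.mpr h4)
      apply h1
      generalize C i = x at *
      generalize C j = y at *
      generalize C v = z at *
      fin_cases x <;> fin_cases y <;> fin_cases z <;> simp_all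
  have hv : κ v = true := by simp [κ]
  by_cases hle : (clA κ).card ≤ (univ.filter (fun x => κ x = false)).card
  · exact trees_small hTI hAR T T' hT hext v hpend κ hκ hv hle
  · obtain ⟨m, F, h1, h2⟩ := Pool.Agent.Results.MP_3240be_co.LargerClass.result T T' hT.connected
      hext v hpend κ hκ (by
        rw [hv]
        have e1 : (univ.filter (fun i => κ i ≠ true)) = univ.filter (fun x => κ x = false) := by
          ext x
          simp
        rw [e1]
        push Not at hle
        exact hle)
    exact ⟨m, F, (arr_iff F T).mpr h1, fun h => h2 ((arr_iff F T').mp h)⟩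

end MP3240T
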