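import Pool.Agent.Lib.MP_3240be_co.H51.CCarr

/-!
# Graphs whose components are small or have few hubs contain no `T'`; the colouring of `FC`
-/

set_option autoImplicit false

namespace MP3240T

open Finset

/-- Two proper 2-colourings of a connected graph agree up to a swap. -/
theorem two_colour {X : Type} (T : SimpleGraph X) (hc : T.Connected) (κ : X → Bool)
    (hκ : ∀ i j, T.Adj i j → κ i ≠ κ j) (s : X → Prop)
    (hs : ∀ i j, T.Adj i j → (s i ↔ ¬ s j)) (v : X) (i : X) :
    (s i ↔ s v) ↔ κ i = κ v := by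
  obtain ⟨w⟩ := hc.preconnected i v
  induction w with
  | nil => simp
  | @cons a b c h p ih =>
    have h1 := hs a b h
    have h2 := hκ a b h
    have h3 : κ a = κ c ↔ ¬ (κ b = κ c) := by
      cases ha : κ a <;> cases hb : κ b <;> cases hc' : κ c <;> simp_all
    rw [h3, ← ih, h1]
    by_cases hb : s b <;> by_cases hc' : s c <;> simp [hb, hc']

/-- `T'` (connected, `n + 1` vertices, both classes with more than `h` elements) is not contained in a
graph whose components have at most `n` vertices or are bipartite with at most `h` hubs. -/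
theorem no_emb {V L : Type} (G : SimpleGraph V) {n h : ℕ} (T' : SimpleGraph (Fin (n + 1)))
    (κ : Fin (n + 1) → Bool) (hκ : ∀ i j, T'.Adj i j → κ i ≠ κ j) (hconn : T'.Connected)
    (h1 : h < (univ.filter (fun x => κ x = true)).card)
    (h2 : h < (univ.filter (fun x => κ x = false)).card)
    (lab : V → L) (hub : V → Prop) (S : L → Finset V)
    (hlab : ∀ u v, G.Adj u v → lab u = lab v)
    (hS : ∀ ℓ, ((∀ v, lab v = ℓ → hub v → v ∈ S ℓ) ∧ (S ℓ).card ≤ h ∧
      ∀ u v, lab u = ℓ → G.Adj u v → (hub u ↔ ¬ hub v)) ∨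
      ((∀ v, lab v = ℓ → v ∈ S ℓ) ∧ (S ℓ).card ≤ n)) : ¬ Emb T' G := by
  classical
  rintro ⟨f, hf, hadj⟩
  have hconst' : ∀ i j, lab (f i) = lab (f j) := by
    intro i j
    obtain ⟨w⟩ := hconn.preconnected i j
    induction w with
    | nil => rfl
    | @cons a b c h p ih => rw [hlab _ _ (hadj a b h)]; exact ih
  have hconst : ∀ i, lab (f i) = lab (f 0) := fun i => hconst' i 0
  rcases hS (lab (f 0)) with ⟨hA, hB, hC⟩ | ⟨hA, hB⟩
  · have hcol := two_colour T' hconn κ hκ (fun i => hub (f i))
      (fun i j hij => hC (f i) (f j) (hconst i) (hadj i j hij)) 0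
    have key : ∀ b : Bool, (∀ i, κ i = b → hub (f i)) →
        (univ.filter (fun x => κ x = b)).card ≤ h := by
      intro b hb
      refine le_trans (Finset.card_le_card_of_injOn f ?_ (hf.injOn)) hB
      intro i hi
      have hi' : κ i = b := by simpa using hi
      exact hA _ (hconst i) (hb i hi')
    by_cases h0 : hub (f 0)
    · have := key (κ 0) (fun i hi => ((hcol i).mpr hi).mpr h0)
      cases hk : κ 0
      · rw [hk] at this; omega
      · rw [hk] at this; omega
    · have := key (!κ 0) (fun i hi => by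
        by_contra hcon
        have h3 := (hcol i).mp (iff_of_false hcon h0)
        rw [hi] at h3
        cases hk : κ 0 <;> simp [hk] at h3)
      cases hk : κ 0
      · rw [hk] at this
        simp only [Bool.not_false] at this
        omega
      · rw [hk] at this
        simp only [Bool.not_true] at this
        omega
  · have h3 : (univ : Finset (Fin (n + 1))).card ≤ (S (lab (f 0))).card :=
      Finset.card_le_card_of_injOn f (fun i _ => hA _ (hconst i)) hf.injOn
    rw [Finset.card_univ, Fintype.card_fin] at h3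
    omega

/-- directed red pairs -/
def redC {h n : ℕ} : VC h n → VC h n → Bool
  | .p none _ _, .z _ _ _ => true
  | .q _, .q _ => true
  | .y _, .z (some _) _ _ => true
  | .w _ _, .z (some _) _ _ => true
  | _, _ => false

/-- the colouring -/
def colC {h n : ℕ} (u v : VC h n) : Bool := redC u v || redC v u

/-- component labels for the red graph -/
def labR {h n : ℕ} (s : ℕ) : VC h n → Option (Option Bool × ℕ)
  | .y l => some (some (decide (l.val < s)), 0)
  | .w i _ => some (some i, 0)
  | .p none j _ => some (none, j)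
  | .p (some i) _ _ => some (some i, 1)
  | .z none j _ => some (none, j)
  | .z (some i) _ _ => some (some i, 0)
  | .q _ => none

/-- hubs of the red graph -/
def hubR {h n : ℕ} (s : ℕ) : VC h n → Prop
  | .y _ => True
  | .w i l => decide (l.val < s) ≠ i
  | .p none _ _ => True
  | _ => False

/-- component labels for the blue graph -/
def labB {h n : ℕ} : VC h n → Option (Bool × ℕ)
  | .y _ => none
  | .w i _ => some (i, 0)
  | .p none _ _ => none
  | .p (some i) j _ => some (i, j)
  | .z none _ _ => none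
  | .z (some i) j _ => some (i, j)
  | .q _ => none

/-- hubs of the blue graph -/
def hubB {h n : ℕ} : VC h n → Prop
  | .y _ => True
  | .p (some _) _ _ => True
  | _ => False

theorem mainC_cases {h n : ℕ} (s : ℕ) (i : Option Bool) (l : Fin h) (u : VC h n)
    (hu : u = mainC s i l) : (u = .y l ∧ (i = none ∨ i = some (decide (l.val < s)))) ∨
      ∃ i', i = some i' ∧ decide (l.val < s) ≠ i' ∧ u = .w i' l := by
  cases i with
  | none => exact Or.inl ⟨hu, Or.inl rfl⟩
  | some i =>
    simp only [mainC] at hu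
    split_ifs at hu with h1
    · exact Or.inl ⟨hu, Or.inr (by rw [h1])⟩
    · exact Or.inr ⟨i, rfl, h1, hu⟩

/-- list of the edges of the host -/
theorem relC_cases {h n s : ℕ} (u v : VC h n) (huv : relC s u v) :
    (∃ i j l t, u = .p i j l ∧ v = .z i j t) ∨ (∃ l x, u = .y l ∧ v = .q x) ∨
    (∃ x x', u = .q x ∧ v = .q x' ∧ x ≠ x') ∨
    (∃ l i j t, u = .y l ∧ v = .z i j t ∧ (i = none ∨ i = some (decide (l.val < s)))) ∨
    (∃ i l j t, u = .w i l ∧ v = .z (some i) j t ∧ decide (l.val < s) ≠ i) := by
  cases u <;> cases v <;> simp only [relC] at huv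
  · exact Or.inr (Or.inr (Or.inr (Or.inl (by
      obtain ⟨l', hl'⟩ := huv
      rcases mainC_cases s _ l' _ hl' with ⟨h1, h2⟩ | ⟨i', h1, h2, h3⟩
      · simp only [VC.y.injEq] at h1
        subst h1
        exact ⟨_, _, _, _, rfl, rfl, h2⟩
      · cases h3))))
  · exact Or.inr (Or.inl ⟨_, _, rfl, rfl⟩)
  · exact Or.inr (Or.inr (Or.inr (Or.inr (by
      obtain ⟨l', hl'⟩ := huv
      rcases mainC_cases s _ l' _ hl' with ⟨h1, h2⟩ | ⟨i', h1, h2, h3⟩
      · cases h1
      · simp only [VC.w.injEq] at h3
        obtain ⟨h4, h5⟩ := h3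
        subst h4
        subst h5
        subst h1
        exact ⟨_, _, _, _, rfl, rfl, h2⟩))))
  · exact Or.inl ⟨_, _, _, _, rfl, by rw [huv.1, huv.2]⟩
  · obtain ⟨l', hl'⟩ := huv
    rcases mainC_cases s _ l' _ hl' with ⟨h1, -⟩ | ⟨i', -, -, h3⟩
    · cases h1
    · cases h3
  · obtain ⟨l', hl'⟩ := huv
    rcases mainC_cases s _ l' _ hl' with ⟨h1, -⟩ | ⟨i', -, -, h3⟩
    · cases h1
    · cases h3
  · exact Or.inr (Or.inr (Or.inl ⟨_, _, rfl, rfl, huv⟩))

end MP3240T
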